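import Pool.Agent.H37.LB.EQF
import Pool.Agent.H97.NW.SIE
import Pool.Agent.H87.AX.GX
import Pool.Agent.H87.SA2.DnB

/-! # [H37 LB AUL] The auxiliary function

Adapt `cell_zero_x`, `cj_x` (`Pool/Agent/H97/FB/EQX.lean`) and `auxAX` (`AXX.lean`, there with cells and branches; here it is easier). `PP = univ.biUnion / filter: pairs (i, p) with p ∈ dm.Rt i` (a Finset of `an.I × Ix k n`; `card ≤ Dn * n` by `dm.cardI, dm.card`; `Finset.sigma` or `univ.filter`).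
`siegel_gen` with `ι' = (Fin (J+1) × Fin Dn) × ι`, `C' = Fin KK × γ`, `P' = {z // z ∈ PP}`, `V (k0, c) z ((s, j), μ) = fc k0 * zcR X0 e (zs z.1) k0 s j * Rf c μ z.2`, `fc k0 = M^((k0+e-1)/e) (1/X0)^k0`, `r = 1`: `2 (card PP * (KK * card γ)) ≤ card ι'`. BOUND: `‖V‖ ≤ X0^e * ((X0^κ)^Dl * 2^Dl * B2) * Hs` (`axx_fac`, `zcR_le`,
`(2R)^k0 ≤ (2R)^KK ≤ B2`). CONJUGATION `cj`: `σ = starRingEnd ∘ inclusion`: `π1` from `dm.gal σ` (`zs (π1 i) = conj (zs i)` as in `cj_x`), and for the labels `π p` = the index tuple with `θ v (π p v) = conj (θ v (p v))` (`lab_perm`: `Cj σ z z'` for algebraic `z` says `z' = conj z`); `(π1 i, π p) ∈ PP` by `dm.gal`; involution since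
`zs` and `θ v` are injective; `Rf c μ (π p) = conj (Rf c μ p)` by `(hRf c μ).gal` (the value is algebraic). So `V (cj z) = conj (V z)`. LIOUVILLE: the number `W z = ∑_x A x V z x = fc * ∑_μ ak .. * Rf c μ p` is an algebraic integer (`fac_GX, X0_int_GX, PI_*_GX`, `(hRf c μ).int`), `< 1` for all `z ∈ PP`, and
permuted by every `σ` (`z' = (π1 i, π p)`, `G_*_GX`-lemmas as in `V_gal` of `EQX.lean`; `(hRf c μ).gal`): `liou_zero`: zero. `fc ≠ 0`. -/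

namespace Pool.Agent.H37.LB

open Finset Polynomial Pool.Agent.H72.ES Pool.Agent.H87.SA Pool.Agent.H87.SA2 Pool.Agent.H87.AX
  Pool.Agent.H8.AW Pool.Agent.H52.AC Pool.Agent.H97.NW Pool.Agent.H8.RZ Pool.Agent.H97.FB
  Pool.Agent.H97.FC

section priv

variable {Dn Dl κ e M : ℕ} {X0 R : ℝ}

private theorem aul_AA {z : ℂ} (hz : IsIntegral ℤ z) : z ∈ AA :=
  mem_algebraicClosure_iff.mpr hz.tower_top.isAlgebraic

private theorem aul_X0_le (an : AnchX Dn Dl κ e M X0 R) {r : ℕ} (hr : r < e) :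
    ‖(X0 : ℂ) ^ r‖ ≤ X0 ^ κ := by
  have h1 := (an.ψ_le _).trans (an.ν_x0 r hr)
  rw [map_pow, an.ψ_x0] at h1
  rw [norm_pow, Complex.norm_real, Real.norm_eq_abs, ← abs_pow]
  exact h1

private theorem aul_subMul : SubMul (fun z : ℂ => ‖z‖) where
  nonneg := norm_nonneg
  zero := norm_zero
  neg := norm_neg
  add := norm_add_le
  mul a b := (norm_mul a b).le
  one := by simp

/-- the normalising factor -/
private noncomputable def aulF (M e k : ℕ) (X0 : ℝ) : ℂ :=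
  (M : ℂ) ^ ((k + e - 1) / e) * (((1 / X0 : ℝ)) : ℂ) ^ k

private theorem aul_fac (he : 1 ≤ e) (hX : 1 ≤ X0) (hM : X0 ^ e = (M : ℝ)) (k : ℕ) :
    ‖aulF M e k X0‖ ≤ X0 ^ e := by
  unfold aulF
  rw [fac_GX he hX hM, norm_pow, Complex.norm_real, Real.norm_of_nonneg (by linarith)]
  apply pow_le_pow_right₀ hX
  have h1 : e * ((k + e - 1) / e) ≤ k + e - 1 := Nat.mul_div_le _ _
  omega

private theorem aul_fac_ne (hX : 1 ≤ X0) (hM : X0 ^ e = (M : ℝ)) (k : ℕ) : aulF M e k X0 ≠ 0 := by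
  have hX0 : (((1 / X0 : ℝ)) : ℂ) ≠ 0 := by
    have : (1 / X0 : ℝ) ≠ 0 := by positivity
    exact_mod_cast this
  have hM0 : (M : ℂ) ≠ 0 := by
    have : (M : ℝ) ≠ 0 := by
      rw [← hM]
      positivity
    exact_mod_cast this
  exact mul_ne_zero (pow_ne_zero _ hM0) (pow_ne_zero _ hX0)

private theorem aul_fac_conj (k : ℕ) : (starRingEnd ℂ) (aulF M e k X0) = aulF M e k X0 := by
  unfold aulF
  rw [map_mul, map_pow, map_pow, map_natCast, Complex.conj_ofReal]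

private theorem aul_int (an : AnchX Dn Dl κ e M X0 R) (he : 1 ≤ e) (hX : 1 ≤ X0)
    (hM : X0 ^ e = (M : ℝ)) (k s j : ℕ) (i : an.I) :
    IsIntegral ℤ (aulF M e k X0 * zcR (X0 : ℂ) e (an.zs i) k s j) := by
  have hX0 := X0_int_GX he hM
  refine IsIntegral.mul ?_ ?_
  · unfold aulF
    rw [fac_GX he hX hM]
    exact hX0.pow _
  · rw [zcR]
    exact (hX0.pow _).mul (PI_mul_GX (PI_pow_GX PI_X_GX _) (PI_pow_GX (an.zs_int _) _) k)

private theorem aul_gal (an : AnchX Dn Dl κ e M X0 R) (he : 1 ≤ e) (hX : 1 ≤ X0)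
    (hM : X0 ^ e = (M : ℝ)) (k s j : ℕ) (σ : AA →+* ℂ) (i i' : an.I)
    (h1 : ∀ (k : ℕ) (a : AA),
      (a : ℂ) = (((1 / X0 : ℝ)) : ℂ) ^ k * PowerSeries.coeff k (an.zs i) →
      σ a = (((1 / X0 : ℝ)) : ℂ) ^ k * PowerSeries.coeff k (an.zs i')) :
    G_GX σ (aulF M e k X0 * zcR (X0 : ℂ) e (an.zs i) k s j)
      (aulF M e k X0 * zcR (X0 : ℂ) e (an.zs i') k s j) := by
  have hX0 : (((1 / X0 : ℝ)) : ℂ) ∈ AA := by
    rw [Complex.ofReal_div, Complex.ofReal_one, one_div]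
    exact inv_mem (aul_AA (X0_int_GX he hM))
  have hu : PG_GX σ (PowerSeries.rescale (((1 / X0 : ℝ)) : ℂ) (an.zs i))
      (PowerSeries.rescale (((1 / X0 : ℝ)) : ℂ) (an.zs i')) := by
    intro l
    rw [PowerSeries.coeff_rescale, PowerSeries.coeff_rescale]
    refine ⟨⟨_, mul_mem (pow_mem hX0 l) (aul_AA (an.zs_int i l))⟩, rfl, ?_⟩
    exact h1 l _ rfl
  unfold aulF
  rw [zcR_GX he hX hM, zcR_GX he hX hM]
  split_ifs
  · exact G_mul_GX (G_pow_GX (G_nat_GX σ M) _) (PG_pow_GX hu j _)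
  · exact G_zero_GX σ

/-- complex conjugation -/
private theorem aul_cj (an : AnchX Dn Dl κ e M X0 R) (he : 1 ≤ e) (hX : 1 ≤ X0)
    (hM : X0 ^ e = (M : ℝ)) {k n : ℕ} {θ : Fin k → Fin n → ℂ} (dm : DiagM an θ) (g : Fin k → ℤ[X])
    (hg : ∀ v, (g v).Monic) (hr : ∀ v, Rts (g v) (θ v)) :
    ∃ cz : an.I × Ix k n → an.I × Ix k n, (∀ z, z.2 ∈ dm.Rt z.1 → (cz z).2 ∈ dm.Rt (cz z).1) ∧
      (∀ z, cz (cz z) = z) ∧
      (∀ z k s j, zcR (X0 : ℂ) e (an.zs (cz z).1) k s j =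
        (starRingEnd ℂ) (zcR (X0 : ℂ) e (an.zs z.1) k s j)) ∧
      ∀ (c : Ix k n → ℂ), EqF θ c → ∀ z, c (cz z).2 = (starRingEnd ℂ) (c z.2) := by
  obtain ⟨σ, hσ⟩ : ∃ σ : AA →+* ℂ, ∀ a : AA, σ a = (starRingEnd ℂ) (a : ℂ) :=
    ⟨(starRingEnd ℂ).comp (algebraMap AA ℂ), fun a => rfl⟩
  obtain ⟨π1, h1, h2⟩ := dm.gal σ
  obtain ⟨π, hπ⟩ := lab_perm g hg hr σ
  have hX0 : (((1 / X0 : ℝ)) : ℂ) ∈ AA := by
    rw [Complex.ofReal_div, Complex.ofReal_one, one_div]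
    exact inv_mem (aul_AA (X0_int_GX he hM))
  have hne : (((1 / X0 : ℝ)) : ℂ) ≠ 0 := by
    have : (1 / X0 : ℝ) ≠ 0 := by positivity
    exact_mod_cast this
  have g1 : ∀ i k, PowerSeries.coeff k (an.zs (π1 i)) =
      (starRingEnd ℂ) (PowerSeries.coeff k (an.zs i)) := by
    intro i k
    have h3 := h1 i k ⟨_, mul_mem (pow_mem hX0 k) (aul_AA (an.zs_int i k))⟩ rfl
    rw [hσ] at h3
    simp only [map_mul, map_pow, Complex.conj_ofReal] at h3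
    exact (mul_left_cancel₀ (pow_ne_zero _ hne) h3).symm
  have g2 : ∀ i, an.zs (π1 i) = (an.zs i).map (starRingEnd ℂ) := by
    intro i
    ext k
    rw [PowerSeries.coeff_map, g1]
  have g3 : ∀ (z w : ℂ), IsIntegral ℤ z → Cj σ z w → w = (starRingEnd ℂ) z := by
    intro z w hz hzw
    have h3 := hzw ⟨z, aul_AA hz⟩ rfl
    rw [hσ] at h3
    exact h3.symm
  have g4 : ∀ (p : Ix k n) v, θ v (π p v) = (starRingEnd ℂ) (θ v (p v)) := fun p v =>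
    g3 _ _ ((gdG_one (hg v) (hr v)).int (p v) 0) (hπ p v)
  refine ⟨fun z => (π1 z.1, π z.2), ?_, ?_, ?_, ?_⟩
  · intro z hz
    exact h2 z.1 z.2 (π z.2) hz fun v => hπ z.2 v
  · intro z
    refine Prod.ext ?_ ?_
    · refine an.zs_inj ?_
      ext k
      simp only
      rw [g1, g1, Complex.conj_conj]
    · funext v
      refine (hr v).2 ?_
      simp only
      rw [g4, g4, Complex.conj_conj]
  · intro z k s j
    simp only
    rw [zcR_map, Complex.conj_ofReal, g2]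
  · intro c hc z
    exact g3 _ _ (hc.int z.2) (hc.gal σ z.2 (π z.2) fun v => hπ z.2 v)

end priv

theorem aux_lab {Dn Dl κ e M : ℕ} {X0 R : ℝ} (an : AnchX Dn Dl κ e M X0 R) (hD : 1 ≤ Dn)
    (hDl : Dn ≤ Dl) (he : 1 ≤ e) (hX : 1 ≤ X0) (hM : X0 ^ e = (M : ℝ)) (hR : 1 ≤ R) {k n : ℕ}
    {θ : Fin k → Fin n → ℂ} (dm : DiagM an θ) (g : Fin k → ℤ[X]) (hg : ∀ v, (g v).Monic)
    (hr : ∀ v, Rts (g v) (θ v)) {ι γ : Type} [Fintype ι] [Fintype γ] (Rf : γ → ι → Ix k n → ℂ)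
    (hRf : ∀ c μ, EqF θ (Rf c μ)) {Hs B2 : ℝ} (hHs : 1 ≤ Hs) (hHb : ∀ c μ p, ‖Rf c μ p‖ ≤ Hs)
    (J KK : ℕ) (hB2 : (2 * R) ^ KK ≤ B2)
    (hcount : 2 * (Dn * n * (KK * Fintype.card γ)) ≤ (J + 1) * Dn * Fintype.card ι)
    (hι : 0 < Fintype.card ι) :
    ∃ A : ι → ℕ → ℕ → ℤ, (∃ μ, ∃ s ≤ J, ∃ j < Dn, A μ s j ≠ 0) ∧
      (∀ μ s j, |((A μ s j : ℤ) : ℝ)| ≤ 4 * ((((J + 1) * Dn * Fintype.card ι : ℕ) : ℝ) *
        (X0 ^ e * ((X0 ^ κ) ^ Dl * 2 ^ Dl * B2) * Hs))) ∧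
      ∀ k0 < KK, ∀ (i : an.I) (p : Ix k n), p ∈ dm.Rt i → ∀ c,
        ∑ μ, ak an J (A μ) k0 i * Rf c μ p = 0 := by
  classical
  obtain ⟨PP, hPP⟩ : ∃ PP : Finset (an.I × Ix k n), ∀ z, z ∈ PP ↔ z.2 ∈ dm.Rt z.1 :=
    ⟨univ.filter fun z => z.2 ∈ dm.Rt z.1, fun z => by simp⟩
  have hPPc : PP.card ≤ Dn * n := by
    have h1 : PP.card = ∑ i : an.I, (PP.filter fun z => z.1 = i).card :=
      card_eq_sum_card_fiberwise fun _ _ => mem_univ _
    have h2 : ∀ i : an.I, (PP.filter fun z => z.1 = i).card ≤ n := by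
      intro i
      refine le_trans (card_le_card_of_injOn (fun z => z.2) ?_ ?_) (dm.card i)
      · intro z hz
        obtain ⟨h3, h4⟩ := mem_filter.1 hz
        have h5 := (hPP z).1 h3
        rw [h4] at h5
        exact h5
      · intro z hz z' hz' hzz
        exact Prod.ext ((mem_filter.1 hz).2.trans (mem_filter.1 hz').2.symm) hzz
    calc PP.card ≤ ∑ _i : an.I, n := by
          rw [h1]
          exact sum_le_sum fun i _ => h2 i
      _ = Fintype.card an.I * n := by rw [sum_const, card_univ, smul_eq_mul]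
      _ ≤ Dn * n := Nat.mul_le_mul_right _ dm.cardI
  obtain ⟨cz, hcz1, hcz2, hcz3, hcz4⟩ := aul_cj an he hX hM dm g hg hr
  let cj : {z // z ∈ PP} → {z // z ∈ PP} := fun z =>
    ⟨cz z.1, (hPP _).2 (hcz1 z.1 ((hPP _).1 z.2))⟩
  have hcj : ∀ z, cj (cj z) = z := by
    intro z
    apply Subtype.ext
    exact hcz2 z.1
  let V : (Fin KK × γ) → {z // z ∈ PP} → ((Fin (J + 1) × Fin Dn) × ι) → ℂ := fun K z x =>
    (aulF M e (K.1 : ℕ) X0 * zcR (X0 : ℂ) e (an.zs z.1.1) (K.1 : ℕ) (x.1.1 : ℕ) (x.1.2 : ℕ)) *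
      Rf K.2 x.2 z.1.2
  have hconj : ∀ K z x, V K (cj z) x = (starRingEnd ℂ) (V K z x) := by
    intro K z x
    simp only [V, cj]
    rw [map_mul, map_mul, aul_fac_conj, hcz3, hcz4 _ (hRf K.2 x.2)]
  set B' : ℝ := X0 ^ e * ((X0 ^ κ) ^ Dl * 2 ^ Dl * B2) with hB'
  have h2R : 1 ≤ 2 * R := by linarith
  have hB21 : 1 ≤ B2 := (one_le_pow₀ h2R).trans hB2
  have hB'1 : 1 ≤ B' := by
    rw [hB']
    refine one_le_mul_of_one_le_of_one_le (one_le_pow₀ hX) ?_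
    refine one_le_mul_of_one_le_of_one_le ?_ hB21
    exact one_le_mul_of_one_le_of_one_le (one_le_pow₀ (one_le_pow₀ hX)) (one_le_pow₀ (by norm_num))
  have hVn : ∀ K z x, ‖V K z x‖ ≤ B' * Hs := by
    intro K z x
    simp only [V]
    rw [norm_mul, norm_mul, hB']
    have hz := zcR_le aul_subMul (A := X0 ^ κ) (R := R) (one_le_pow₀ hX) hR (x0 := (X0 : ℂ)) he
      (fun r hr => aul_X0_le an hr) (an.zs_le z.1.1) hDl (K.1 : ℕ) (x.1.1 : ℕ) (x.1.2 : ℕ)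
      x.1.2.isLt
    have hz2 : ‖zcR (X0 : ℂ) e (an.zs z.1.1) (K.1 : ℕ) (x.1.1 : ℕ) (x.1.2 : ℕ)‖ ≤
        (X0 ^ κ) ^ Dl * 2 ^ Dl * B2 := by
      refine hz.trans ?_
      refine mul_le_mul_of_nonneg_left ?_ (by positivity)
      exact (pow_le_pow_right₀ h2R K.1.isLt.le).trans hB2
    exact mul_le_mul (mul_le_mul (aul_fac he hX hM _) hz2 (norm_nonneg _) (by positivity))
      (hHb _ _ _) (norm_nonneg _) (by positivity)
  have hcard : Fintype.card ((Fin (J + 1) × Fin Dn) × ι) = (J + 1) * Dn * Fintype.card ι := by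
    rw [Fintype.card_prod, Fintype.card_prod, Fintype.card_fin, Fintype.card_fin]
  have hcard0 : 0 < Fintype.card ((Fin (J + 1) × Fin Dn) × ι) := by
    rw [hcard]
    exact Nat.mul_pos (Nat.mul_pos (Nat.succ_pos J) hD) hι
  have hM1 : 1 ≤ (((J + 1) * Dn * Fintype.card ι : ℕ) : ℝ) * (B' * Hs) := by
    apply one_le_mul_of_one_le_of_one_le _ (one_le_mul_of_one_le_of_one_le hB'1 hHs)
    rw [← hcard]
    exact_mod_cast hcard0
  obtain ⟨A, hA0, hAb, hAs⟩ := siegel_gen V cj hcj hconj hM1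
    (by
      intro K z
      calc ∑ x, ‖V K z x‖ ≤ ∑ _x : (Fin (J + 1) × Fin Dn) × ι, B' * Hs :=
            Finset.sum_le_sum fun x _ => hVn K z x
        _ = (((J + 1) * Dn * Fintype.card ι : ℕ) : ℝ) * (B' * Hs) := by
            rw [Finset.sum_const, Finset.card_univ, nsmul_eq_mul, hcard]) (r := 1) le_rfl
    (by
      rw [Fintype.card_coe, hcard, Fintype.card_prod, Fintype.card_fin, one_mul]
      calc (1 + 1) * (PP.card * (KK * Fintype.card γ))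
          ≤ 2 * (Dn * n * (KK * Fintype.card γ)) :=
            Nat.mul_le_mul_left _ (Nat.mul_le_mul_right _ hPPc)
        _ ≤ _ := hcount) hcard0
  obtain ⟨A1, hA1⟩ : ∃ A1 : ι → ℕ → ℕ → ℤ, A1 = fun μ s j =>
      if h : s < J + 1 ∧ j < Dn then A ((⟨s, h.1⟩, ⟨j, h.2⟩), μ) else 0 := ⟨_, rfl⟩
  have hA1e : ∀ (s : Fin (J + 1)) (j : Fin Dn) (μ : ι), A1 μ (s : ℕ) (j : ℕ) = A ((s, j), μ) := by
    intro s j μ
    rw [hA1]
    simp only
    rw [dif_pos ⟨s.isLt, j.isLt⟩]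
  refine ⟨A1, ?_, ?_, ?_⟩
  · obtain ⟨x, hx⟩ := Function.ne_iff.1 hA0
    refine ⟨x.2, (x.1.1 : ℕ), Nat.lt_succ_iff.1 x.1.1.isLt, (x.1.2 : ℕ), x.1.2.isLt, fun h0 => ?_⟩
    apply hx
    rw [hA1e] at h0
    exact h0
  · intro μ s j
    rw [hA1]
    simp only
    rw [pow_one] at hAb
    have h1 : 4 * ((((J + 1) * Dn * Fintype.card ι : ℕ) : ℝ) * (B' * Hs)) =
        4 * ((((J + 1) * Dn * Fintype.card ι : ℕ) : ℝ) * (X0 ^ e * ((X0 ^ κ) ^ Dl * 2 ^ Dl * B2) *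
          Hs)) := rfl
    rw [← h1]
    split_ifs with h
    · exact hAb _
    · rw [Int.cast_zero, abs_zero]
      linarith
  intro k0 hk0 i p hp c
  -- the linear form
  have hW : ∀ z : {z // z ∈ PP}, ∑ x, (A x : ℂ) * V (⟨k0, hk0⟩, c) z x =
      aulF M e k0 X0 * ∑ μ, ak an J (A1 μ) k0 z.1.1 * Rf c μ z.1.2 := by
    intro z
    simp only [V]
    rw [Fintype.sum_prod_type, sum_comm, mul_sum]
    refine sum_congr rfl fun μ _ => ?_
    unfold ak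
    rw [Finset.sum_range, sum_mul, mul_sum, Fintype.sum_prod_type]
    refine sum_congr rfl fun s _ => ?_
    rw [Finset.sum_range, sum_mul, mul_sum]
    refine sum_congr rfl fun j _ => ?_
    rw [hA1e]
    ring
  have hzero : ∀ z : {z // z ∈ PP}, ∑ x, (A x : ℂ) * V (⟨k0, hk0⟩, c) z x = 0 := by
    refine liou_zero _ ?_ ?_ ?_
    · intro z
      refine IsIntegral.sum _ fun x _ => IsIntegral.mul (isIntegral_intCast_GX _) ?_
      exact IsIntegral.mul (aul_int an he hX hM _ _ _ _) ((hRf c x.2).int _)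
    · intro σ z
      obtain ⟨π1, h1, h2⟩ := dm.gal σ
      obtain ⟨π, hπ⟩ := lab_perm g hg hr σ
      have hmem : (π1 z.1.1, π z.1.2) ∈ PP :=
        (hPP _).2 (h2 z.1.1 z.1.2 (π z.1.2) ((hPP _).1 z.2) fun v => hπ z.1.2 v)
      refine ⟨⟨(π1 z.1.1, π z.1.2), hmem⟩, fun a ha => ?_⟩
      obtain ⟨b, hb1, hb2⟩ : G_GX σ (∑ x, (A x : ℂ) * V (⟨k0, hk0⟩, c) z x)
          (∑ x, (A x : ℂ) * V (⟨k0, hk0⟩, c) ⟨(π1 z.1.1, π z.1.2), hmem⟩ x) := by
        refine G_sum_GX _ _ _ fun x _ => G_mul_GX (G_int_GX σ _) (G_mul_GX ?_ ?_)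
        · exact aul_gal an he hX hM _ _ _ σ _ _ fun k a ha => h1 z.1.1 k a ha
        · refine ⟨⟨_, aul_AA ((hRf c x.2).int z.1.2)⟩, rfl, ?_⟩
          exact (hRf c x.2).gal σ z.1.2 (π z.1.2) (fun v => hπ z.1.2 v) _ rfl
      have hab : a = b := Subtype.ext (ha.trans hb1.symm)
      rw [hab, hb2]
    · intro z
      exact hAs (⟨k0, hk0⟩, c) z
  have h1 := hzero ⟨(i, p), (hPP _).2 hp⟩
  rw [hW] at h1
  exact (mul_eq_zero.1 h1).resolve_left (aul_fac_ne hX hM k0)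

end Pool.Agent.H37.LB
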