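import Pool.Agent.H37.LB.TSM
import Pool.Agent.H87.SA2.Core
import Pool.Agent.H97.FB.TWN

/-! # [H37 LB CRL] The zero estimate

Copy of `lzx_core` (`Pool/Agent/H97/FB/LZX.lean`) for an index type `ι` with `card ι ≤ r1` (there `Mo P N`; the points are not used) and of the last lines of `lin_zero`. `δ0, c0` from `two_sided Q0 r1 τ`; `c = max c0 6`. Then `∑_μ w μ • ue an J (A μ) = 0`; `usR_sum` and `an.indep` give `∑_μ w μ * A μ s j = 0` for `s ≤ J`, `j < Dn`. -/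

/-! # [H37 LB CRL] The zero estimate

Copy of `lzx_core` (`Pool/Agent/H97/FB/LZX.lean`) for an index type `ι` with `card ι ≤ r1` (there `Mo P N`; the points are not used) and of the last lines of `lin_zero`. `δ0, c0` from `two_sided Q0 r1 τ`; `c = max c0 6`. Then `∑_μ w μ • ue an J (A μ) = 0`; `usR_sum` and `an.indep` give `∑_μ w μ * A μ s j = 0` for `s ≤ J`, `j < Dn`. -/

namespace Pool.Agent.H37.LB

open Finset Polynomial Pool.Agent.H72.ES Pool.Agent.H87.SA Pool.Agent.H87.SA2 Pool.Agent.H87.AX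
  Pool.Agent.H8.AW Pool.Agent.H52.AC Pool.Agent.H97.NW Pool.Agent.H8.RZ Pool.Agent.H97.FB
  Pool.Agent.H97.FC

private theorem crl_core {Q0 r1 : ℕ} {τ δ0 : ℝ} {c0 : ℕ} (_hδ0 : 0 < δ0)
    (hts : ∀ (Dn Dl κ J r0 K k0 K' : ℕ) (X0 R Y A c1 Δ : ℝ), 2 ≤ R → (2 * R) ^ c0 ≤ X0 →
      c0 * Real.log X0 ≤ Y → J * Real.log X0 ≤ Y → Dn ≤ Q0 → Dl ≤ Q0 → κ ≤ Q0 → r0 ≤ r1 →
      τ * Y ≤ K * Real.log X0 → K ≤ K' + r0 → 1 ≤ A →
      A ≤ ((J : ℝ) + 1) * Dn * ((X0 ^ κ) ^ Dl * 2 ^ Dl) * Real.exp (δ0 * Y) →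
      1 ≤ c1 → c1 ≤ X0 ^ (J + κ * Dn) → 1 ≤ Δ → Δ ≤ X0 ^ κ →
      X0 ^ K' ≤ (8 * (2 * R)) ^ K' * ((r0.factorial * (2 * (r0.factorial *
        (2 * (2 * R)) ^ r0 * A)) ^ r0) * (4 * (2 * R)) ^ k0) ^ (Dl + 1) →
      X0 ^ k0 ≤ 2 * (c1 ^ r0 * Δ ^ (r0 ^ 2 + K')) * ((8 * (2 * R)) ^ K' *
        ((r0.factorial * (2 * (r0.factorial * (2 * (2 * R)) ^ r0 * A)) ^ r0) *
          (4 * (2 * R)) ^ k0)) →
      False)
    {Dn Dl κ e M : ℕ} {X0 R : ℝ} (an : AnchX Dn Dl κ e M X0 R)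
    (hb : Bnd Q0 Dn Dl κ e M X0 R) (hR0 : (2 * R) ^ c0 ≤ X0) (hR6 : (2 * R) ^ 6 ≤ X0) {Y : ℝ}
    (hLY : c0 * Real.log X0 ≤ Y) (hY : 0 ≤ Y) {ι : Type} [Fintype ι] (A : ι → ℕ → ℕ → ℤ)
    (hA : ∀ μ s j, |((A μ s j : ℤ) : ℝ)| ≤ Real.exp (δ0 * Y))
    (hcard : Fintype.card ι ≤ r1) (w : ι → ℤ)
    (hvan : ∀ l : ℕ, (l : ℝ) * Real.log X0 < τ * Y →
      ∑ μ, fl an (Jx X0 Y) (A μ) l * ((w μ : ℤ) : ℝ) = 0) :
    ∑ μ, w μ • ue an (Jx X0 Y) (A μ) = 0 := by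
  by_contra hne
  have hR2 : 2 ≤ R := hb.R2
  have hR1 : (1 : ℝ) ≤ R := by linarith
  have h2R : (4 : ℝ) ≤ 2 * R := by linarith
  have h64 : 64 * R ≤ X0 := by
    have h1 : (2 * R) ^ 6 = (2 * R) ^ 5 * (2 * R) := by ring
    have h2 : (4 : ℝ) ^ 5 ≤ (2 * R) ^ 5 := pow_le_pow_left₀ (by norm_num) h2R 5
    have h3 : (4 : ℝ) ^ 5 * (2 * R) ≤ (2 * R) ^ 5 * (2 * R) :=
      mul_le_mul_of_nonneg_right h2 (by linarith)
    rw [h1] at hR6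
    nlinarith
  have hX1 : 1 < X0 := by linarith
  have hX0 : 0 < X0 := by linarith
  have hL : 0 < Real.log X0 := Real.log_pos hX1
  obtain ⟨J, hJ⟩ : ∃ J : ℕ, J = Jx X0 Y := ⟨_, rfl⟩
  rw [← hJ] at hne hvan
  have hJL : (J : ℝ) * Real.log X0 ≤ Y := by
    have h1 : (J : ℝ) ≤ Y / Real.log X0 := by
      rw [hJ]
      unfold Jx
      exact Nat.floor_le (div_nonneg hY hL.le)
    rwa [le_div_iff₀ hL] at h1
  obtain ⟨A1, hA1d⟩ : ∃ A1 : ℝ, A1 = ((J : ℝ) + 1) * Dn * ((X0 ^ κ) ^ Dl * 2 ^ Dl) *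
      Real.exp (δ0 * Y) := ⟨_, rfl⟩
  have hDnR : (1 : ℝ) ≤ Dn := by exact_mod_cast hb.D1
  have hXκ : (1 : ℝ) ≤ X0 ^ κ := one_le_pow₀ hX1.le
  have hA11 : 1 ≤ A1 := by
    rw [hA1d]
    refine one_le_mul_of_one_le_of_one_le ?_ (Real.one_le_exp (by positivity))
    refine one_le_mul_of_one_le_of_one_le ?_
      (one_le_mul_of_one_le_of_one_le (one_le_pow₀ hXκ) (one_le_pow₀ (by norm_num)))
    refine one_le_mul_of_one_le_of_one_le ?_ hDnR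
    have : (0 : ℝ) ≤ J := Nat.cast_nonneg _
    linarith
  have hMN : 1 ≤ M := by
    have h1 : (1 : ℝ) ≤ (M : ℝ) := by
      rw [← hb.pow]
      exact one_le_pow₀ hX1.le
    exact_mod_cast h1
  have hcvZ : Cv (1 / X0) (an.Z.map an.ψ) := an.cv (by linarith) (by linarith)
  have hcvu : ∀ μ, Cv (1 / X0) ((ue an J (A μ)).map an.ψ) := fun μ =>
    cv_ue an (by linarith) (by linarith) J (A μ)
  have hh : (0 : ℝ) ≤ 1 / X0 := by positivity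
  obtain ⟨K, hKd⟩ : ∃ K : ℕ, K = ⌈τ * Y / Real.log X0⌉₊ := ⟨_, rfl⟩
  have hKL : τ * Y ≤ K * Real.log X0 := by
    have h1 : τ * Y / Real.log X0 ≤ K := by
      rw [hKd]
      exact Nat.le_ceil _
    rwa [div_le_iff₀ hL] at h1
  obtain ⟨r0, hr0⟩ : ∃ r0 : ℕ, r0 = Fintype.card ι := ⟨_, rfl⟩
  obtain ⟨k0, K', hKK', h1, h2⟩ := zeroEstR an.ψ an.sub an.ψ_le an.liou (M := X0) (A := A1)
    (R := 2 * R) hA11 (by linarith) (by linarith) (ι := ι) r0 hr0.symm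
    (fun μ => ue an J (A μ))
    (fun μ k => by
      unfold ue
      rw [coeff_usR]
      refine (Pool.Agent.H8.KF.SubMul_sum an.sub _ _).trans ?_
      have e1 : ∀ s ∈ range (J + 1), an.ν (∑ j ∈ range Dn,
          ((A μ s j : ℤ) : an.E) * zcR an.x0 e an.Z k s j) ≤
          Dn * (Real.exp (δ0 * Y) * (((X0 ^ κ) ^ Dl * 2 ^ Dl) * (2 * R) ^ k)) := by
        intro s _
        refine (Pool.Agent.H8.KF.SubMul_sum an.sub _ _).trans ?_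
        have e2 : ∀ j ∈ range Dn, an.ν (((A μ s j : ℤ) : an.E) * zcR an.x0 e an.Z k s j) ≤
            Real.exp (δ0 * Y) * (((X0 ^ κ) ^ Dl * 2 ^ Dl) * (2 * R) ^ k) := by
          intro j hj
          have e3 := zcR_le an.sub (A := X0 ^ κ) (R := R) hXκ hR1 hb.e1 an.ν_x0
            an.Z_le hb.DDl k s j (mem_range.1 hj)
          exact (an.sub.mul _ _).trans (mul_le_mul
            ((Pool.Agent.H8.KF.SubMul_int an.sub _).trans (hA _ _ _)) e3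
            (an.sub.nonneg _) (Real.exp_pos _).le)
        refine (sum_le_sum e2).trans ?_
        rw [sum_const, card_range, nsmul_eq_mul]
      refine (sum_le_sum e1).trans ?_
      rw [sum_const, card_range, nsmul_eq_mul]
      refine le_of_eq ?_
      rw [hA1d]
      push_cast
      ring)
    (c := (M : ℤ) ^ (J / e) * an.ce ^ Dn) (Δ := an.Δ)
    (by
      have e1 : (1 : ℤ) ≤ (M : ℤ) ^ (J / e) := one_le_pow₀ (by exact_mod_cast hMN)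
      have e2 : (1 : ℤ) ≤ an.ce ^ Dn := one_le_pow₀ an.ce_pos
      exact one_le_mul_of_one_le_of_one_le e1 e2) an.Δ_pos
    (fun μ => by
      unfold ue
      rw [usR_map, an.ψ_x0]
      exact dnr_usR hX0 hb.e1 hb.pow J Dn (A μ) hcvZ an.dn)
    w hne K
    (by
      rw [PowerSeries.X_pow_dvd_iff]
      intro l hl
      have hmap : (∑ μ, w μ • ue an J (A μ)).map an.ψ = ∑ μ, w μ • (ue an J (A μ)).map an.ψ := by
        rw [map_sum]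
        refine sum_congr rfl fun μ _ => ?_
        rw [map_zsmul]
      rw [hmap, tay_sumZ hh _ _ (fun μ _ => Cv.zsmul hh (hcvu μ) _), map_sum]
      have hl' : (l : ℝ) * Real.log X0 < τ * Y := by
        have h3 : (l : ℝ) < τ * Y / Real.log X0 := by
          rw [hKd] at hl
          exact Nat.lt_ceil.1 hl
        rwa [lt_div_iff₀ hL] at h3
      rw [← hvan l hl']
      refine sum_congr rfl fun μ _ => ?_
      rw [tay_zsmul hh (hcvu μ), map_zsmul, zsmul_eq_mul, mul_comm]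
      rfl)
  have hce1 : (1 : ℝ) ≤ an.ce := by exact_mod_cast an.ce_pos
  have hΔR : (1 : ℝ) ≤ an.Δ := by exact_mod_cast an.Δ_pos
  have hM1 : (1 : ℝ) ≤ M := by exact_mod_cast hMN
  refine hts Dn Dl κ J r0 K k0 K' X0 R Y A1 (((M : ℤ) ^ (J / e) * an.ce ^ Dn : ℤ) : ℝ) an.Δ
    hR2 hR0 hLY hJL (hb.DDl.trans hb.Dl_le) hb.Dl_le hb.κ_le (by rw [hr0]; exact hcard) hKL hKK'
    hA11 (by rw [hA1d]) ?_ ?_ hΔR an.Δ_le h1 h2
  · push_cast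
    exact one_le_mul_of_one_le_of_one_le (one_le_pow₀ hM1) (one_le_pow₀ hce1)
  · push_cast
    have e1 : (M : ℝ) ^ (J / e) ≤ X0 ^ J := by
      rw [← hb.pow, ← pow_mul]
      exact pow_le_pow_right₀ hX1.le (Nat.mul_div_le _ _)
    have e2 : (an.ce : ℝ) ^ Dn ≤ (X0 ^ κ) ^ Dn :=
      pow_le_pow_left₀ (by linarith) an.ce_le Dn
    calc (M : ℝ) ^ (J / e) * (an.ce : ℝ) ^ Dn ≤ X0 ^ J * (X0 ^ κ) ^ Dn := by gcongr
      _ = X0 ^ (J + κ * Dn) := by rw [pow_add, pow_mul]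

theorem core_lab (Q0 r1 : ℕ) (τ : ℝ) (hτ : 0 < τ) : ∃ (δ0 : ℝ) (c : ℕ), 0 < δ0 ∧ 6 ≤ c ∧
    ∀ {Dn Dl κ e M : ℕ} {X0 R : ℝ} (an : AnchX Dn Dl κ e M X0 R), Bnd Q0 Dn Dl κ e M X0 R →
      (2 * R) ^ c ≤ X0 → ∀ Y : ℝ, 0 ≤ Y → c * Real.log X0 ≤ Y → ∀ {ι : Type} [Fintype ι],
      Fintype.card ι ≤ r1 → ∀ (A : ι → ℕ → ℕ → ℤ) (w : ι → ℤ),
      (∀ μ s j, |((A μ s j : ℤ) : ℝ)| ≤ Real.exp (δ0 * Y)) →
      (∀ l : ℕ, (l : ℝ) * Real.log X0 < τ * Y →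
        ∑ μ, fl an (Jx X0 Y) (A μ) l * ((w μ : ℤ) : ℝ) = 0) →
      ∀ s ≤ Jx X0 Y, ∀ j < Dn, ∑ μ, A μ s j * w μ = 0 := by
  obtain ⟨δ0, c0, hδ0, hts⟩ := two_sided Q0 r1 τ hτ
  refine ⟨δ0, max c0 6, hδ0, le_max_right _ _, ?_⟩
  intro Dn Dl κ e M X0 R an hb hRX Y hY hLY ι _ hcard A w hA hvan s hs j hj
  have hR2 : 2 ≤ R := hb.R2
  have hX4 : 4 ≤ X0 := by
    have h3 : (2 * R) ^ 1 ≤ (2 * R) ^ (max c0 6) := pow_le_pow_right₀ (by linarith) (by omega)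
    have h4 := h3.trans hRX
    rw [pow_one] at h4
    linarith
  have hX1 : 1 < X0 := by linarith
  have hL : 0 < Real.log X0 := Real.log_pos hX1
  have hR0 : (2 * R) ^ c0 ≤ X0 := (pow_le_pow_right₀ (by linarith) (le_max_left _ _)).trans hRX
  have hR6 : (2 * R) ^ 6 ≤ X0 := (pow_le_pow_right₀ (by linarith) (le_max_right _ _)).trans hRX
  have hLY0 : (c0 : ℝ) * Real.log X0 ≤ Y := by
    refine le_trans (mul_le_mul_of_nonneg_right ?_ hL.le) hLY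
    exact_mod_cast le_max_left c0 6
  have hH := crl_core hδ0 hts an hb hR0 hR6 hLY0 hY A hA hcard w hvan
  have hsum := usR_sum (univ : Finset ι) an.x0 e (Jx X0 Y) Dn w A an.Z
  have hzero : usR an.x0 e (Jx X0 Y) Dn (fun s j => ∑ μ : ι, w μ * A μ s j) an.Z = 0 := by
    rw [hsum]
    exact hH
  have h5 := an.indep (Jx X0 Y) _ hzero s hs j hj
  rw [← h5]
  exact sum_congr rfl fun μ _ => mul_comm _ _

end Pool.Agent.H37.LB
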