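import Pool.Agent.H97.FC.Defs

/-!
# MP_821da1_nt, Families for all degrees `n ≥ 3`, chapter K (helper37): definitions

The statement to be proved is `key` (`Pool/Agent/H97/FC/IFC.lean`); proof: `proofs` 353 (sections 5-9)
and the notes of helper97 and helper37 in the table `think`.
`Ix k n`: tuples of indices (labels). `zt θ z p = ∑_β z_β ∏_v θ_v(p_v)^(β_v)`: the value of an integer
polynomial at the vector of roots with the indices `p`.
`EqF θ c`: `c` is an equivariant family of algebraic integers, indexed by the index tuples.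
`Apx θ p0 w Z δ C`: the integers `w μ`, `μ ∈ C`, satisfy an approximate relation with coefficients in
`ℤ[θ]`, not all zero, of size at most `Z`, at the near vector of roots `p0`, up to `δ`.
`tv a b T x y`: the value at `(x, y)` of the polynomial with coefficients `T`, of degree at most `a` in
`x` and less than `b` in `y`.
`lpol P θ L b = ∑_(p ∈ S) θ(th p)^b ∏_(p' ≠ p) (Y - x_(p')(T))`: the label polynomial.
`ak an J a k i`, `ue an J a`, `fl an J a l`: the coefficient of `x^k` for the conjugate `i` of the anchor,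
the series over `E`, the Taylor coefficient at `1/X0` of `∑_(s ≤ J, j < Dn) a s j x0^(s mod e) x^s Z^j`.
-/

namespace Pool.Agent.H37.LB

open Finset Polynomial Pool.Agent.H72.ES Pool.Agent.H87.SA Pool.Agent.H87.SA2 Pool.Agent.H87.AX
  Pool.Agent.H8.AW Pool.Agent.H52.AC Pool.Agent.H97.NW Pool.Agent.H8.RZ Pool.Agent.H97.FB
  Pool.Agent.H97.FC

/-- tuples of indices -/
abbrev Ix (k n : ℕ) : Type := Fin k → Fin n

/-- equivariant families of algebraic integers -/
structure EqF {k n : ℕ} (θ : Fin k → Fin n → ℂ) (c : Ix k n → ℂ) : Prop where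
  int : ∀ p, IsIntegral ℤ (c p)
  gal : ∀ (σ : AA →+* ℂ) (p p' : Ix k n), (∀ v, Cj σ (θ v (p v)) (θ v (p' v))) →
    Cj σ (c p) (c p')

/-- the value of an integer polynomial at the vector of roots with the indices `p` -/
noncomputable def zt {k n : ℕ} (θ : Fin k → Fin n → ℂ) (z : Ix k n → ℤ) (p : Ix k n) : ℂ :=
  ∑ β : Ix k n, (z β : ℂ) * ∏ v, θ v (p v) ^ (β v : ℕ)

/-- an approximate relation -/
def Apx {k n : ℕ} (θ : Fin k → Fin n → ℂ) (p0 : Ix k n) {ι : Type} (w : ι → ℤ) (Z δ : ℝ)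
    (C : Finset ι) : Prop :=
  ∃ z : ι → Ix k n → ℤ, (∃ μ ∈ C, z μ ≠ 0) ∧ (∀ μ ∈ C, ∀ β, |((z μ β : ℤ) : ℝ)| ≤ Z) ∧
    ‖∑ μ ∈ C, zt θ (z μ) p0 * ((w μ : ℤ) : ℂ)‖ ≤ δ

/-- the value at `(x, y)` of a polynomial -/
def tv (a b : ℕ) (T : ℕ × ℕ → ℤ) (x y : ℤ) : ℤ :=
  ∑ s ∈ range (a + 1) ×ˢ range b, T s * (x ^ s.1 * y ^ s.2)

/-- the label polynomial -/
noncomputable def lpol {ν n : ℕ} (P : Ptd ν) (θ : Fin n → ℂ) {l : Fin n} (L : LbG P (v1 θ) l)
    (b : ℕ) : (PowerSeries ℂ)[X] :=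
  ∑ p ∈ L.S, C (PowerSeries.C (θ (L.th p) ^ b)) * ∏ p' ∈ univ.erase p, (X - C (P.C.pd.x p'))

variable {Dn Dl κ e M : ℕ} {X0 R : ℝ}

/-- the coefficient of `x^k`, for the conjugate `i` of the anchor -/
noncomputable def ak (an : AnchX Dn Dl κ e M X0 R) (J : ℕ) (a : ℕ → ℕ → ℤ) (k : ℕ) (i : an.I) : ℂ :=
  ∑ s ∈ range (J + 1), ∑ j ∈ range Dn, zcR (X0 : ℂ) e (an.zs i) k s j * (a s j : ℂ)

/-- the series over `E` -/
noncomputable def ue (an : AnchX Dn Dl κ e M X0 R) (J : ℕ) (a : ℕ → ℕ → ℤ) : PowerSeries an.E :=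
  usR an.x0 e J Dn a an.Z

/-- the Taylor coefficient at `1/X0` -/
noncomputable def fl (an : AnchX Dn Dl κ e M X0 R) (J : ℕ) (a : ℕ → ℕ → ℤ) (l : ℕ) : ℝ :=
  PowerSeries.coeff l (tay (1 / X0) ((ue an J a).map an.ψ))

end Pool.Agent.H37.LB
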