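import Pool.Agent.H37.LB.Defs
import Pool.Agent.H52.AC.LIO
import Pool.Agent.H97.FB.TRA
import Pool.Agent.H87.AX.GX

/-! # [H37 LB EQF] Equivariant families

`Cj σ z w` for algebraic `z` is `G_GX`-like; sums and products: if `(a : ℂ) = z + z'` with `z, z'` algebraic, write `z = b, z' = b'` with `b, b' : AA` (integral elements are in `AA`: `mem_algebraicClosure_iff`, as `mem_AA` in `EQX.lean`), `a = b + b'`, `map_add`. `cj_of_G`: `G_GX σ z w → Cj σ z w` (`Pool/Agent/H87/AX/GX.lean`;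
`Subtype.ext`) and conversely `Cj σ z w`, `IsIntegral ℤ z` gives `G_GX σ z w`; then use `G_sum_GX, G_mul_GX, G_pow_GX, G_int_GX`. `eqF_zt`: the roots `θ v i` are algebraic integers (`monic`, `rts`; `gdG_one .. .int`).
`lab_perm`: `σ` permutes the roots of `g v`: for `i` the number `σ a`, `(a : ℂ) = θ v i`, is again a root of `g v` (integer coefficients), so some `θ v i'`; injective. So for every `σ` there is a permutation `π` of `Ix k n` with `∀ p v, Cj σ (θ v (p v)) (θ v (π p v))`.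
`prod_ge`: `w = ∏_p c p` is an algebraic integer, `Cj σ w w` for all `σ` (reindex by `π`), `w ≠ 0`; `liou_zero` for the family with one element: if `‖w‖ < 1` then `w = 0`. So `1 ≤ ∏_p ‖c p‖ ≤ ‖c p0‖ h^(n^k - 1)`. -/

namespace Pool.Agent.H37.LB

open Finset Polynomial Pool.Agent.H72.ES Pool.Agent.H87.SA Pool.Agent.H87.SA2 Pool.Agent.H87.AX
  Pool.Agent.H8.AW Pool.Agent.H52.AC Pool.Agent.H97.NW Pool.Agent.H8.RZ Pool.Agent.H97.FB
  Pool.Agent.H97.FC

private theorem memAA {z : ℂ} (hz : IsIntegral ℤ z) : z ∈ AA :=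
  mem_algebraicClosure_iff.mpr hz.tower_top.isAlgebraic

private theorem cj_ofG {σ : AA →+* ℂ} {z w : ℂ} (h : G_GX σ z w) : Cj σ z w := by
  obtain ⟨b, hb1, hb2⟩ := h
  intro a ha
  have h1 : a = b := Subtype.ext (ha.trans hb1.symm)
  rw [h1, hb2]

private theorem ofCj {σ : AA →+* ℂ} {z w : ℂ} (hz : IsIntegral ℤ z) (h : Cj σ z w) :
    G_GX σ z w :=
  ⟨⟨z, memAA hz⟩, rfl, h _ rfl⟩

private theorem G_prod {σ : AA →+* ℂ} {T : Type} (s : Finset T) (z z' : T → ℂ)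
    (h : ∀ t ∈ s, G_GX σ (z t) (z' t)) : G_GX σ (∏ t ∈ s, z t) (∏ t ∈ s, z' t) := by
  classical
  induction s using Finset.induction_on with
  | empty => rw [prod_empty, prod_empty]; exact G_one_GX σ
  | insert a s ha ih =>
    rw [prod_insert ha, prod_insert ha]
    exact G_mul_GX (h a (mem_insert_self a s)) (ih fun t ht => h t (mem_insert_of_mem ht))

theorem eqF_add {k n : ℕ} {θ : Fin k → Fin n → ℂ} {c c' : Ix k n → ℂ} (h : EqF θ c)
    (h' : EqF θ c') : EqF θ fun p => c p + c' p where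
  int := fun p => (h.int p).add (h'.int p)
  gal := fun σ p p' hp => cj_ofG (G_add_GX (ofCj (h.int p) (h.gal σ p p' hp))
    (ofCj (h'.int p) (h'.gal σ p p' hp)))

theorem eqF_mul {k n : ℕ} {θ : Fin k → Fin n → ℂ} {c c' : Ix k n → ℂ} (h : EqF θ c)
    (h' : EqF θ c') : EqF θ fun p => c p * c' p where
  int := fun p => (h.int p).mul (h'.int p)
  gal := fun σ p p' hp => cj_ofG (G_mul_GX (ofCj (h.int p) (h.gal σ p p' hp))
    (ofCj (h'.int p) (h'.gal σ p p' hp)))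

theorem eqF_int {k n : ℕ} (θ : Fin k → Fin n → ℂ) (z : ℤ) : EqF θ fun _ => (z : ℂ) where
  int := fun _ => isIntegral_intCast_GX z
  gal := fun σ _ _ _ => cj_ofG (G_int_GX σ z)

theorem eqF_prod {k n : ℕ} {θ : Fin k → Fin n → ℂ} {ι : Type} (s : Finset ι)
    (c : ι → Ix k n → ℂ) (h : ∀ i ∈ s, EqF θ (c i)) : EqF θ fun p => ∏ i ∈ s, c i p where
  int := fun p => IsIntegral.prod _ fun i hi => (h i hi).int p
  gal := fun σ p p' hp => cj_ofG (G_prod _ _ _ fun i hi =>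
    ofCj ((h i hi).int p) ((h i hi).gal σ p p' hp))

private theorem rt_root {n : ℕ} {g : ℤ[X]} {θ : Fin n → ℂ} (h : Rts g θ) (l : Fin n) :
    eval₂ (Int.castRingHom ℂ) (θ l) g = 0 := by
  rw [← eval_map, h.1, eval_prod]
  apply Finset.prod_eq_zero (Finset.mem_univ l)
  rw [eval_sub, eval_X, eval_C, sub_self]

private theorem rt_int {n : ℕ} {g : ℤ[X]} {θ : Fin n → ℂ} (hm : g.Monic) (h : Rts g θ)
    (l : Fin n) : IsIntegral ℤ (θ l) :=
  ⟨g, hm, rt_root h l⟩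

theorem eqF_zt {k n : ℕ} {θ : Fin k → Fin n → ℂ} (g : Fin k → ℤ[X]) (hg : ∀ v, (g v).Monic)
    (hr : ∀ v, Rts (g v) (θ v)) (z : Ix k n → ℤ) : EqF θ (zt θ z) where
  int := fun p => by
    unfold zt
    exact IsIntegral.sum _ fun β _ => (isIntegral_intCast_GX _).mul
      (IsIntegral.prod _ fun v _ => (rt_int (hg v) (hr v) _).pow _)
  gal := fun σ p p' hp => by
    apply cj_ofG
    unfold zt
    refine G_sum_GX _ _ _ fun β _ => G_mul_GX (G_int_GX σ _) (G_prod _ _ _ fun v _ =>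
      G_pow_GX (ofCj (rt_int (hg v) (hr v) _) (hp v)) _)

private theorem perm_one {n : ℕ} {g : ℤ[X]} {θ : Fin n → ℂ} (hm : g.Monic) (h : Rts g θ)
    (σ : AA →+* ℂ) : ∃ π : Equiv.Perm (Fin n), ∀ i, Cj σ (θ i) (θ (π i)) := by
  have hA : ∀ i, θ i ∈ AA := fun i => memAA (rt_int hm h i)
  have h1 : ∀ i, ∃ j, σ ⟨θ i, hA i⟩ = θ j := by
    intro i
    have h2 : eval₂ (Int.castRingHom AA) (⟨θ i, hA i⟩ : AA) g = 0 := by
      apply Subtype.ext
      have h3 := hom_eval₂ g (Int.castRingHom AA) (algebraMap AA ℂ) (⟨θ i, hA i⟩ : AA)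
      have h4 : (algebraMap AA ℂ).comp (Int.castRingHom AA) = Int.castRingHom ℂ :=
        Subsingleton.elim _ _
      rw [h4] at h3
      have h5 : algebraMap AA ℂ (⟨θ i, hA i⟩ : AA) = θ i := rfl
      rw [h5, rt_root h i] at h3
      exact h3
    have h3 := hom_eval₂ g (Int.castRingHom AA) σ (⟨θ i, hA i⟩ : AA)
    have h4 : σ.comp (Int.castRingHom AA) = Int.castRingHom ℂ := Subsingleton.elim _ _
    rw [h4, h2, map_zero, ← eval_map, h.1, eval_prod] at h3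
    obtain ⟨j, _, hj⟩ := Finset.prod_eq_zero_iff.1 h3.symm
    rw [eval_sub, eval_X, eval_C] at hj
    exact ⟨j, sub_eq_zero.1 hj⟩
  choose f hf using h1
  have hinj : Function.Injective f := by
    intro i j hij
    have h2 : σ ⟨θ i, hA i⟩ = σ ⟨θ j, hA j⟩ := by rw [hf, hf, hij]
    have h3 := σ.injective h2
    exact h.2 (congrArg Subtype.val h3)
  refine ⟨Equiv.ofBijective f (Finite.injective_iff_bijective.1 hinj), fun i => ?_⟩
  intro a ha
  have h2 : a = (⟨θ i, hA i⟩ : AA) := Subtype.ext ha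
  rw [h2, hf]
  rfl

theorem lab_perm {k n : ℕ} {θ : Fin k → Fin n → ℂ} (g : Fin k → ℤ[X]) (hg : ∀ v, (g v).Monic)
    (hr : ∀ v, Rts (g v) (θ v)) (σ : AA →+* ℂ) :
    ∃ π : Equiv.Perm (Ix k n), ∀ p v, Cj σ (θ v (p v)) (θ v (π p v)) := by
  have h1 : ∀ v, ∃ π : Equiv.Perm (Fin n), ∀ i, Cj σ (θ v i) (θ v (π i)) := fun v =>
    perm_one (hg v) (hr v) σ
  choose π hπ using h1
  exact ⟨Equiv.piCongrRight π, fun p v => hπ v (p v)⟩

theorem prod_ge {k n : ℕ} {θ : Fin k → Fin n → ℂ} (g : Fin k → ℤ[X]) (hg : ∀ v, (g v).Monic)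
    (hr : ∀ v, Rts (g v) (θ v)) {c : Ix k n → ℂ} (hc : EqF θ c) (h0 : ∀ p, c p ≠ 0) {h : ℝ}
    (h1 : 1 ≤ h) (hb : ∀ p, ‖c p‖ ≤ h) (p0 : Ix k n) : 1 ≤ ‖c p0‖ * h ^ (n ^ k) := by
  have hw0 : ∏ p, c p ≠ 0 := Finset.prod_ne_zero_iff.2 fun p _ => h0 p
  have hw1 : IsIntegral ℤ (∏ p, c p) := IsIntegral.prod _ fun p _ => hc.int p
  have hw2 : ∀ σ : AA →+* ℂ, Cj σ (∏ p, c p) (∏ p, c p) := by
    intro σ
    obtain ⟨π, hπ⟩ := lab_perm g hg hr σ
    have h2 : G_GX σ (∏ p, c p) (∏ p, c (π p)) :=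
      G_prod _ _ _ fun p _ => ofCj (hc.int p) (hc.gal σ p (π p) (hπ p))
    rw [Equiv.prod_comp π c] at h2
    exact cj_ofG h2
  have hw3 : 1 ≤ ‖∏ p, c p‖ := by
    by_contra hcon
    apply hw0
    exact liou_zero (ι := Unit) (fun _ => ∏ p, c p) (fun _ => hw1)
      (fun σ _ => ⟨(), fun a ha => hw2 σ a ha⟩) (fun _ => not_le.1 hcon) ()
  refine hw3.trans ?_
  rw [norm_prod, ← Finset.mul_prod_erase Finset.univ _ (Finset.mem_univ p0)]
  refine mul_le_mul_of_nonneg_left ?_ (norm_nonneg _)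
  calc ∏ p ∈ univ.erase p0, ‖c p‖ ≤ ∏ _p ∈ univ.erase p0, h :=
        Finset.prod_le_prod (fun p _ => norm_nonneg _) fun p _ => hb p
    _ = h ^ (univ.erase p0).card := by rw [Finset.prod_const]
    _ ≤ h ^ (n ^ k) := by
        apply pow_le_pow_right₀ h1
        refine (Finset.card_le_card (Finset.erase_subset _ _)).trans ?_
        rw [Finset.card_univ, Fintype.card_pi_const, Fintype.card_fin]

end Pool.Agent.H37.LB
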