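import Pool.Agent.H37.LB.Defs
import Pool.Agent.H52.AC.EVH
import Pool.Agent.H97.NW.PTF
import Pool.Agent.H8.AW.Pt

/-! # [H37 LB LPE] The value of the label polynomial at the integer point

Write `pd = P.C.pd`, `T = P.T`, `x_i` the near branch (`i = P.i ∈ L.S`, `L.near`: `th i = l`), `z = y / x = evz T x_i` (`P.hy`). `P.facts` (`Pool/Agent/H97/NW/PTF.lean`): `R ‖T‖ ≤ 1/2`, `evy ≠ 0`, `x ≠ 0`.
(1) FORMAL: `(lpol P θ L b).eval (x_i) = C (θ l^b) * ∏_(p' ≠ i) (x_i - x_(p'))`: every term with `p ≠ i` contains the factor `p' = i`, which is `0` (`eval_finset_sum`, `sum_eq_single`, `eval_prod`). And `∏_(p' ≠ i) (x_i - x_(p')) = eval (x_i) (derivative ((fI d F).map (tq e q)))` (`pd.split`, `derivative_prod`).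
(2) `evz T` is additive and multiplicative on the series with `Gr ‖T‖` (`Pool/Agent/H52/AC/EVH.lean`: `gr_of_le`, `gr_C`, `gr_add`, `gr_mul`, `evz_add`, `evz_mul`, `evz_C`, maybe a bundled `evH`; `x_p` has growth `R^(k+1)` and `R ‖T‖ < 1`). All coefficients of `lpol` (sums and products of the `x_p` and constants) satisfy `Gr`;
so `evz T` of (1): `∑_(j < d) evz T (lpol.coeff j) z^j = θ l^b * evz T (eval (x_i) (derivative ..))` (`Polynomial.eval_eq_sum_range'` with `lpol_deg`-like bound; here the degree is `< d`: `natDegree_sum_le..`, reprove or import LPA).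
(3) `evz T (eval (x_i) ((derivative (fI d F)).map (tq e q))) = value of derivative (fI d F) at t = (q T)^e = 1/x, Y = z`: `tq e q` sends `t` to `(q T)^e`; `P.hT`. With `fI d F` (`Pool/Agent/H8/AW/Defs.lean`): the derivative in `Y` of `∑ F i j t^(d-i-j) Y^j` at `(1/x, y/x)` is `∑ F i j j x^(-(d-i-j)) (y/x)^(j-1) = evy d F x y / x^(d-1)`
(`evy` in `Pool/Agent/H72/ES/Defs.lean`; terms with `j = 0` vanish). A similar computation is the first lemma of `Pool/Agent/H8/AW/Pt.lean`. -/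

namespace Pool.Agent.H37.LB

open Finset Polynomial Pool.Agent.H72.ES Pool.Agent.H87.SA Pool.Agent.H87.SA2 Pool.Agent.H87.AX
  Pool.Agent.H8.AW Pool.Agent.H52.AC Pool.Agent.H97.NW Pool.Agent.H8.RZ Pool.Agent.H97.FB
  Pool.Agent.H97.FC

/-- the derivative of a product of linear factors at a root -/
private theorem le_der {d : ℕ} (z : Fin d → ℂ) (i : Fin d) :
    (derivative (∏ p, (X - C (z p)))).eval (z i) = ∏ p ∈ univ.erase i, (z i - z p) := by
  rw [← Finset.mul_prod_erase univ _ (mem_univ i), derivative_mul, eval_add, eval_mul, eval_mul,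
    derivative_X_sub_C, eval_one, one_mul, eval_sub, eval_X, eval_C, sub_self, zero_mul, add_zero,
    eval_prod]
  exact prod_congr rfl fun p _ => by rw [eval_sub, eval_X, eval_C]

/-- the derivative of `f(t, Z) = t^d F(1/t, Z/t)` in `Z` at `t = 1/x`, `Z = y/x` -/
private theorem le_fI (d : ℕ) (F : ℕ → ℕ → ℤ) (x y : ℤ) (hx : (x : ℂ) ≠ 0) :
    (derivative ((fI d F).map (eval₂RingHom (Int.castRingHom ℂ) (1 / (x : ℂ))))).eval
      ((y : ℂ) / (x : ℂ)) * (x : ℂ) ^ (d - 1) = ((evy d F x y : ℤ) : ℂ) := by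
  unfold fI evy
  rw [Polynomial.map_sum, derivative_sum, eval_finsetSum, sum_mul]
  push_cast
  have h1 : ∀ j ∈ range (d + 1),
      eval ((y : ℂ) / x) (derivative (Polynomial.map (eval₂RingHom (Int.castRingHom ℂ)
        (1 / (x : ℂ))) (C (∑ i ∈ range (d + 1 - j), C (F i j) * X ^ (d - i - j)) * X ^ j))) *
        (x : ℂ) ^ (d - 1) =
      ∑ i ∈ range (d + 1 - j), (F i j : ℂ) * (x : ℂ) ^ i * ((j : ℂ) * (y : ℂ) ^ (j - 1)) := by
    intro j hj
    rw [Polynomial.map_mul, Polynomial.map_pow, map_C, map_X, derivative_C_mul_X_pow, eval_mul,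
      eval_pow, eval_C, eval_X, map_sum, sum_mul, sum_mul, sum_mul]
    refine sum_congr rfl fun i hi => ?_
    rw [mem_range] at hi hj
    rcases Nat.eq_zero_or_pos j with h0 | h0
    · rw [h0, Nat.cast_zero]
      ring
    rw [coe_eval₂RingHom, eval₂_mul, eval₂_C, eval₂_pow, eval₂_X, eq_intCast, one_div, inv_pow,
      _root_.div_pow]
    have e1 : (x : ℂ) ^ (d - 1) = (x : ℂ) ^ (d - i - j) * (x : ℂ) ^ (j - 1) * (x : ℂ) ^ i := by
      rw [← pow_add, ← pow_add]
      congr 1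
      omega
    rw [e1]
    have e2 : (x : ℂ) ^ (d - i - j) ≠ 0 := pow_ne_zero _ hx
    have e3 : (x : ℂ) ^ (j - 1) ≠ 0 := pow_ne_zero _ hx
    field_simp
  rw [sum_congr rfl h1, Finset.sum_sigma', Finset.sum_sigma']
  refine Finset.sum_bij' (fun p _ => ⟨p.2, p.1⟩) (fun p _ => ⟨p.2, p.1⟩) ?_ ?_ ?_ ?_ ?_
  · intro p hp
    simp only [mem_sigma, mem_range] at hp ⊢
    omega
  · intro p hp
    simp only [mem_sigma, mem_range] at hp ⊢
    omega
  · intro p hp; rfl
  · intro p hp; rfl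
  · intro p hp; rfl

theorem lpol_eval {ν n : ℕ} (hν : 4 ≤ ν) (P : Ptd ν) (θ : Fin n → ℂ) {l : Fin n}
    (L : LbG P (v1 θ) l) (hT : P.Thr (cA ν)) (b : ℕ) :
    (∑ j ∈ range P.d, evz P.T ((lpol P θ L b).coeff j) * ((P.y : ℂ) / (P.x : ℂ)) ^ j) *
      (P.x : ℂ) ^ (P.d - 1) = θ l ^ b * ((evy P.d P.F P.x P.y : ℤ) : ℂ) := by
  obtain ⟨f1, -, -, -, f5, -⟩ := P.facts hν hT
  have hT1 : P.C.pd.R * ‖P.T‖ < 1 := by linarith
  have hR : 0 ≤ P.C.pd.R := by linarith [P.C.pd.R_ge]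
  have hxC : (P.x : ℂ) ≠ 0 := by exact_mod_cast f5
  have ht : ((P.C.pd.q : ℂ) * P.T) ^ P.C.pd.e = 1 / (P.x : ℂ) := by
    rw [eq_div_iff hxC]
    exact P.hT
  have hs := Pool.Agent.H8.AW.split_at P.C.pd hT1
  rw [ht] at hs
  have hd1 : 1 ≤ P.d := P.C.d1
  obtain ⟨z, hz⟩ : ∃ z : Fin P.d → ℂ, z = fun p => evT P.T (P.C.pd.x p) := ⟨_, rfl⟩
  have hzi : z P.i = (P.y : ℂ) / (P.x : ℂ) := by
    rw [hz]
    exact P.hy
  have hs' : (fI P.d P.F).map (eval₂RingHom (Int.castRingHom ℂ) (1 / (P.x : ℂ))) =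
      ∏ p, (X - C (z p)) := by
    rw [hs, hz]
  let yc : Fin P.d → cvT P.T := fun p => ⟨P.C.pd.x p, CvT_of hR (P.C.pd.growth p) hT1⟩
  let cc : Fin P.d → cvT P.T := fun p => ⟨PowerSeries.C (θ (L.th p) ^ b), CvT.C _ _⟩
  obtain ⟨Lp, hLp⟩ : ∃ Lp : (cvT P.T)[X], Lp = ∑ p ∈ L.S, C (cc p) *
      ∏ p' ∈ univ.erase p, (X - C (yc p')) := ⟨_, rfl⟩
  have hmap : lpol P θ L b = Lp.map (cvT P.T).subtype := by
    unfold lpol
    rw [hLp, Polynomial.map_sum]
    refine sum_congr rfl fun p _ => ?_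
    rw [Polynomial.map_mul, map_C, Polynomial.map_prod]
    congr 1
    refine prod_congr rfl fun p' _ => ?_
    rw [Polynomial.map_sub, map_X, map_C]
    rfl
  obtain ⟨lC, hlC⟩ : ∃ lC : ℂ[X], lC = ∑ p ∈ L.S, C (θ (L.th p) ^ b) *
      ∏ p' ∈ univ.erase p, (X - C (z p')) := ⟨_, rfl⟩
  have hmapC : Lp.map (Pool.Agent.H8.AW.evH P.T) = lC := by
    rw [hLp, hlC, Polynomial.map_sum]
    refine sum_congr rfl fun p _ => ?_
    rw [Polynomial.map_mul, map_C, Polynomial.map_prod]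
    have hc : Pool.Agent.H8.AW.evH P.T (cc p) = θ (L.th p) ^ b := evT_C P.T _
    rw [hc]
    congr 1
    refine prod_congr rfl fun p' _ => ?_
    rw [Polynomial.map_sub, map_X, map_C, hz]
    rfl
  have hco : ∀ j, evz P.T ((lpol P θ L b).coeff j) = lC.coeff j := by
    intro j
    rw [hmap, ← hmapC, coeff_map, coeff_map]
    rfl
  have hdeg : lC.natDegree < P.d := by
    have h1 : lC.natDegree ≤ P.d - 1 := by
      rw [hlC]
      refine natDegree_sum_le_of_forall_le _ _ fun p _ => ?_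
      refine (natDegree_C_mul_le _ _).trans ((natDegree_prod_le _ _).trans ?_)
      have h2 : ∀ p' ∈ univ.erase p, (X - C (z p')).natDegree = 1 :=
        fun p' _ => natDegree_X_sub_C _
      rw [sum_congr rfl h2, sum_const, card_erase_of_mem (mem_univ p), card_univ, Fintype.card_fin,
        smul_eq_mul, mul_one]
    omega
  have hsum : ∑ j ∈ range P.d, evz P.T ((lpol P θ L b).coeff j) *
      ((P.y : ℂ) / (P.x : ℂ)) ^ j = lC.eval (z P.i) := by
    rw [hzi, eval_eq_sum_range' hdeg]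
    exact sum_congr rfl fun j _ => by rw [hco]
  have hval : lC.eval (z P.i) = θ l ^ b * ∏ p' ∈ univ.erase P.i, (z P.i - z p') := by
    rw [hlC, eval_finsetSum, sum_eq_single P.i]
    · rw [eval_mul, eval_C, eval_prod, L.near]
      congr 1
      exact prod_congr rfl fun p' _ => by rw [eval_sub, eval_X, eval_C]
    · intro p _ hp
      rw [eval_mul, eval_prod, prod_eq_zero (mem_erase.2 ⟨Ne.symm hp, mem_univ P.i⟩), mul_zero]
      rw [eval_sub, eval_X, eval_C, sub_self]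
    · intro h
      exact absurd L.mem h
  rw [hsum, hval, mul_assoc, ← le_der, ← hs', hzi, le_fI P.d P.F P.x P.y hxC]

end Pool.Agent.H37.LB
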