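import Pool.Agent.H37.LB.Defs

/-! # [H37 LB LPG] Degree and growth of the label polynomial

`lpol_deg`: every term has degree at most `P.d - 1` (`natDegree_sum_le_of_forall_le`, `natDegree_prod_le` with `natDegree_X_sub_C`, `card_erase_of_mem`; `P.C.d1 : 1 ≤ P.d`).
`lpol_growth`: for a finset `s` of branches the coefficient of `Y^j T^k` of `∏_(p' ∈ s) (Y - x_(p'))` is at most `(2R)^(k + card s) 2^(card s)` (induction on `s`: the coefficient of `Y^j` of `(Y - x) Q` is `Q_(j-1) - x Q_j`, and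
`coeff k (x Q_j) = ∑_(a + b = k) ..`, `∑_(a+b=k) R^(a+1) (2R)^(b+m) 2^m ≤ (2R)^(k+m+1) 2^m ∑_a 2^(-a-1) ≤ (2R)^(k+m+1) 2^m`; `2 ≤ R`). `card (univ.erase p) ≤ ν`, `card S ≤ P.d ≤ ν` terms, `‖θ^b‖ ≤ H^b`; `(2R)^(k+ν) 2^ν ≤ (4R)^(k+ν)`. -/

namespace Pool.Agent.H37.LB

open Finset Polynomial Pool.Agent.H72.ES Pool.Agent.H87.SA Pool.Agent.H87.SA2 Pool.Agent.H87.AX
  Pool.Agent.H8.AW Pool.Agent.H52.AC Pool.Agent.H97.NW Pool.Agent.H8.RZ Pool.Agent.H97.FB
  Pool.Agent.H97.FC

theorem lpol_deg {ν n : ℕ} (P : Ptd ν) (θ : Fin n → ℂ) {l : Fin n} (L : LbG P (v1 θ) l) (b : ℕ) :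
    ∀ j, P.d ≤ j → (lpol P θ L b).coeff j = 0 := by
  intro j hj
  have hd := P.C.d1
  apply coeff_eq_zero_of_natDegree_lt
  have h1 : (lpol P θ L b).natDegree ≤ P.d - 1 := by
    unfold lpol
    apply natDegree_sum_le_of_forall_le
    intro p _
    refine (natDegree_C_mul_le _ _).trans ((natDegree_prod_le _ _).trans ?_)
    refine (Finset.sum_le_sum (g := fun _ => 1) fun p' _ => natDegree_X_sub_C_le _).trans ?_
    rw [Finset.sum_const, Finset.card_erase_of_mem (Finset.mem_univ p), Finset.card_univ,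
      Fintype.card_fin, smul_eq_mul, mul_one]
  omega

private theorem geo (R : ℝ) (hR : 2 ≤ R) (k m : ℕ) :
    ∑ x ∈ antidiagonal k, R ^ (x.1 + 1) * (2 * R) ^ (x.2 + m) ≤ (2 * R) ^ (k + m + 1) := by
  have h1 : ∀ x ∈ antidiagonal k, R ^ (x.1 + 1) * (2 * R) ^ (x.2 + m) =
      (2 * R) ^ (k + m + 1) * ((1 / 2) * (1 / 2) ^ x.1) := by
    intro x hx
    rw [Finset.HasAntidiagonal.mem_antidiagonal] at hx
    have h2 : R ^ (x.1 + 1) = (2 * R) ^ (x.1 + 1) * (1 / 2) ^ (x.1 + 1) := by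
      rw [← mul_pow]
      congr 1
      ring
    rw [h2, ← hx, show x.1 + x.2 + m + 1 = (x.1 + 1) + (x.2 + m) by ring, pow_add]
    rw [pow_succ (1 / 2 : ℝ)]
    ring
  rw [Finset.sum_congr rfl h1, ← Finset.mul_sum, ← Finset.mul_sum]
  have h3 : ∑ x ∈ antidiagonal k, (1 / 2 : ℝ) ^ x.1 ≤ 2 := by
    rw [Finset.Nat.sum_antidiagonal_eq_sum_range_succ_mk]
    exact sum_geometric_two_le _
  have h4 : 0 ≤ (2 * R) ^ (k + m + 1) := by positivity
  nlinarith

private theorem prod_growth {d : ℕ} (x : Fin d → PowerSeries ℂ) (R : ℝ) (hR : 2 ≤ R)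
    (hx : ∀ i k, ‖PowerSeries.coeff k (x i)‖ ≤ R ^ (k + 1)) (s : Finset (Fin d)) :
    ∀ j k, ‖PowerSeries.coeff k ((∏ p ∈ s, ((X : (PowerSeries ℂ)[X]) - C (x p))).coeff j)‖ ≤
      (2 * R) ^ (k + s.card) * 2 ^ s.card := by
  classical
  have hR0 : 0 < R := by linarith
  induction s using Finset.induction_on with
  | empty =>
    intro j k
    rw [prod_empty, Polynomial.coeff_one, card_empty, add_zero, pow_zero, mul_one]
    have h1 : (1 : ℝ) ≤ (2 * R) ^ k := one_le_pow₀ (by linarith)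
    split_ifs with hj
    · rw [PowerSeries.coeff_one]
      split_ifs
      · rw [norm_one]
        exact h1
      · rw [norm_zero]
        positivity
    · rw [map_zero, norm_zero]
      positivity
  | insert a s ha ih =>
    intro j k
    rw [prod_insert ha, card_insert_of_notMem ha]
    obtain ⟨Q, hQ⟩ : ∃ Q : (PowerSeries ℂ)[X], Q = ∏ p ∈ s, ((X : (PowerSeries ℂ)[X]) - C (x p)) :=
      ⟨_, rfl⟩
    rw [← hQ] at ih ⊢
    rw [sub_mul, Polynomial.coeff_sub, Polynomial.coeff_C_mul, map_sub]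
    have h0 : ∀ k, (2 * R) ^ (k + s.card) * 2 ^ s.card ≤ (2 * R) ^ (k + (s.card + 1)) * 2 ^ s.card := by
      intro k
      refine mul_le_mul_of_nonneg_right ?_ (by positivity)
      exact pow_le_pow_right₀ (by linarith) (by omega)
    have h1 : ‖PowerSeries.coeff k ((X * Q).coeff j)‖ ≤ (2 * R) ^ (k + (s.card + 1)) * 2 ^ s.card := by
      refine le_trans ?_ (h0 k)
      rcases j with _ | j
      · rw [Polynomial.coeff_X_mul_zero, map_zero, norm_zero]
        positivity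
      · rw [Polynomial.coeff_X_mul]
        exact ih j k
    have h2 : ‖PowerSeries.coeff k (x a * Q.coeff j)‖ ≤ (2 * R) ^ (k + (s.card + 1)) * 2 ^ s.card := by
      rw [PowerSeries.coeff_mul]
      refine (norm_sum_le _ _).trans ?_
      have h3 : ∀ y ∈ antidiagonal k, ‖PowerSeries.coeff y.1 (x a) * PowerSeries.coeff y.2 (Q.coeff j)‖
          ≤ R ^ (y.1 + 1) * (2 * R) ^ (y.2 + s.card) * 2 ^ s.card := by
        intro y _
        rw [norm_mul, mul_assoc]
        exact mul_le_mul (hx a y.1) (ih j y.2) (norm_nonneg _) (by positivity)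
      refine (Finset.sum_le_sum h3).trans ?_
      rw [← Finset.sum_mul]
      refine mul_le_mul_of_nonneg_right ?_ (by positivity)
      exact geo R hR k s.card
    refine (norm_sub_le _ _).trans ?_
    rw [pow_succ 2 s.card]
    linarith

theorem lpol_growth {ν n : ℕ} (P : Ptd ν) (θ : Fin n → ℂ) {l : Fin n} (L : LbG P (v1 θ) l)
    {H : ℝ} (hH : 1 ≤ H) (hθ : ∀ i, ‖θ i‖ ≤ H) (b j k : ℕ) :
    ‖PowerSeries.coeff k ((lpol P θ L b).coeff j)‖ ≤ ν * H ^ b * (4 * P.C.pd.R) ^ (k + ν) := by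
  have hR := P.C.pd.R_ge
  have hR0 : 0 < P.C.pd.R := by linarith
  have hdn := P.C.dn
  have hterm : ∀ p ∈ L.S, ‖PowerSeries.coeff k ((C (PowerSeries.C (θ (L.th p) ^ b)) *
      ∏ p' ∈ univ.erase p, (X - C (P.C.pd.x p'))).coeff j)‖ ≤
      H ^ b * (4 * P.C.pd.R) ^ (k + ν) := by
    intro p _
    rw [Polynomial.coeff_C_mul, PowerSeries.coeff_C_mul, norm_mul, norm_pow]
    have h1 := prod_growth P.C.pd.x P.C.pd.R hR P.C.pd.growth (univ.erase p) j k
    have h2 : (univ.erase p).card ≤ ν := by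
      rw [Finset.card_erase_of_mem (Finset.mem_univ p), Finset.card_univ, Fintype.card_fin]
      omega
    have h3 : (2 * P.C.pd.R) ^ (k + (univ.erase p).card) * 2 ^ (univ.erase p).card ≤
        (4 * P.C.pd.R) ^ (k + ν) := by
      have h4 : (2 * P.C.pd.R) ^ (k + (univ.erase p).card) ≤ (2 * P.C.pd.R) ^ (k + ν) :=
        pow_le_pow_right₀ (by linarith) (by omega)
      have h5 : (2 : ℝ) ^ (univ.erase p).card ≤ 2 ^ (k + ν) :=
        pow_le_pow_right₀ (by norm_num) (by omega)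
      calc (2 * P.C.pd.R) ^ (k + (univ.erase p).card) * 2 ^ (univ.erase p).card ≤
            (2 * P.C.pd.R) ^ (k + ν) * 2 ^ (k + ν) :=
            mul_le_mul h4 h5 (by positivity) (by positivity)
        _ = (4 * P.C.pd.R) ^ (k + ν) := by
            rw [← mul_pow]
            congr 1
            ring
    refine mul_le_mul (pow_le_pow_left₀ (norm_nonneg _) (hθ _) _) (h1.trans h3) (norm_nonneg _)
      (by positivity)
  unfold lpol
  rw [Polynomial.finsetSum_coeff, map_sum]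
  refine (norm_sum_le _ _).trans ((Finset.sum_le_sum hterm).trans ?_)
  rw [Finset.sum_const, nsmul_eq_mul, mul_assoc]
  refine mul_le_mul_of_nonneg_right ?_ (by positivity)
  have h6 : L.S.card ≤ ν := by
    refine (Finset.card_le_univ _).trans ?_
    rw [Fintype.card_fin]
    exact hdn
  exact_mod_cast h6

end Pool.Agent.H37.LB
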