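import Pool.Agent.H37.LB.LPA
import Pool.Agent.H37.LB.LPG
import Pool.Agent.H37.LB.LPE

/-! # [H37 LB LPB] The integer polynomials with the labels as values

`pd = P.C.pd`, `e, q, R`; `e ≤ ν!`, `q, R ≤ b`, `2 ≤ b`. For `b' : Fin n` let `ψ` be the integers of `lpol_int`. DEFINE `T b' (a, j) := if j < d ∧ a + j ≤ K + d ∧ K + d - a - j ≤ K then ψ (K + d - a - j) j * q^(e (K - (K + d - a - j))) else 0` and `t := q^(e K) * x^(K+1) * evy d F x y`.
COEFFICIENTS: `|ψ k j| = ‖coeff (e k) ..‖ ≤ ν H^b' (4R)^(e k + ν) ≤ ν H^n (4b)^(ν! K + ν)`, `q^(eK) ≤ b^(ν! K)`, `4 ≤ b^2`, `ν ≤ b^ν`. `‖t‖ ≥ |x|^(K+1) ≥ |x|^K` (`evy ≠ 0` is an integer, `P.facts`).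
VALUE: `tv (K+ν) ν (T b') x y = ∑_(j < d) ∑_(k ≤ K) ψ k j q^(e(K-k)) x^(K+d-k-j) y^j` (reindex `a = K + d - k - j`; `d ≤ ν`) `= q^(eK) x^(K+d) ∑_j (∑_(k ≤ K) ψ k j (q^e x)^(-k)) z^j`, `z = y/x`. Since `(qT)^e x = 1`: `T^(e k) = (q^e x)^(-k)`, so `evz T (lpol.coeff j) = ∑' m, coeff m .. T^m = ∑' k, ψ k j (q^e x)^(-k)` (only the
`m` divisible by `e` contribute), and by `lpol_eval` `tv .. = θ l^b' t - q^(eK) x^(K+d) ∑_j z^j tail_j` (`x^(K+d) = x^(K+1) x^(d-1)`), `tail_j = ∑'_(k > K) ψ k j (q^e x)^(-k)`, `‖tail_j‖ ≤ ∑'_(k > K) ν H^n (4R)^(e k + ν) (q^e |x|)^(-k) ≤ 2 ν H^n (4R)^(e(K+1)+ν) (q^e |x|)^(-(K+1))`, because `(4R)^e / |x| ≤ 1/2` (`|x| ≥ b^(cA ν)`,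
`cA ν` is huge: `cA ν = 20 ν^2 (10^6 ν^5 ν!)`). `‖z‖ = ‖evz T x_i‖ ≤ 2R` (`evz_le`). Error `≤ q^(eK) |x|^(K+d) ν (2R)^ν 2 ν H^n (4R)^(e(K+1)+ν) (q^e |x|)^(-(K+1)) ≤ H^n b^(c0 (K+1)) |x|^ν`. E.g. `c0 = 20 ν! ν^2`. -/

namespace Pool.Agent.H37.LB

open Finset Polynomial Pool.Agent.H72.ES Pool.Agent.H87.SA Pool.Agent.H87.SA2 Pool.Agent.H87.AX
  Pool.Agent.H8.AW Pool.Agent.H52.AC Pool.Agent.H97.NW Pool.Agent.H8.RZ Pool.Agent.H97.FB
  Pool.Agent.H97.FC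

/-- the truncated polynomial -/
private def tp (ψ : ℕ → ℕ → ℤ) (e q d K : ℕ) (s : ℕ × ℕ) : ℤ :=
  ∑ k ∈ range (K + 1),
    if s.2 < d ∧ s.1 = K + d - k - s.2 then ψ k s.2 * (q : ℤ) ^ (e * (K - k)) else 0

private theorem tv_tp (ψ : ℕ → ℕ → ℤ) {e q d ν K : ℕ} (hd : d ≤ ν) (x y : ℤ) :
    tv (K + ν) ν (tp ψ e q d K) x y =
      ∑ j ∈ range d, ∑ k ∈ range (K + 1),
        ψ k j * (q : ℤ) ^ (e * (K - k)) * (x ^ (K + d - k - j) * y ^ j) := by
  unfold tv tp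
  rw [Finset.sum_product_right]
  have h1 : ∑ j ∈ range d, ∑ k ∈ range (K + 1),
        ψ k j * (q : ℤ) ^ (e * (K - k)) * (x ^ (K + d - k - j) * y ^ j) =
      ∑ j ∈ range ν, if j < d then ∑ k ∈ range (K + 1),
        ψ k j * (q : ℤ) ^ (e * (K - k)) * (x ^ (K + d - k - j) * y ^ j) else 0 := by
    rw [← Finset.sum_filter]
    apply Finset.sum_congr _ (fun _ _ => rfl)
    ext j
    rw [Finset.mem_filter, Finset.mem_range, Finset.mem_range]
    omega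
  rw [h1]
  apply Finset.sum_congr rfl
  intro j _
  by_cases hj : j < d
  · rw [if_pos hj]
    simp only [hj, true_and, Finset.sum_mul, ite_mul, zero_mul]
    rw [Finset.sum_comm]
    apply Finset.sum_congr rfl
    intro k hk
    rw [Finset.mem_range] at hk
    rw [Finset.sum_ite_eq', if_pos (Finset.mem_range.2 (by omega))]
  · rw [if_neg hj]
    simp only [hj, false_and, if_false, Finset.sum_const_zero, zero_mul]

private theorem tp_le (ψ : ℕ → ℕ → ℤ) {e q d K : ℕ} {B : ℝ} (hB : 0 ≤ B)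
    (h : ∀ k ≤ K, ∀ j < d, |((ψ k j : ℤ) : ℝ)| * (q : ℝ) ^ (e * (K - k)) ≤ B) (s : ℕ × ℕ) :
    |((tp ψ e q d K s : ℤ) : ℝ)| ≤ 2 ^ K * B := by
  unfold tp
  rw [Int.cast_sum]
  refine (Finset.abs_sum_le_sum_abs _ _).trans ?_
  have h1 : ∀ k ∈ range (K + 1), |(((if s.2 < d ∧ s.1 = K + d - k - s.2 then
      ψ k s.2 * (q : ℤ) ^ (e * (K - k)) else 0 : ℤ) : ℤ) : ℝ)| ≤ B := by
    intro k hk
    rw [Finset.mem_range] at hk
    split_ifs with hs
    · push_cast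
      rw [abs_mul, abs_of_nonneg (by positivity : (0 : ℝ) ≤ (q : ℝ) ^ (e * (K - k)))]
      exact h k (by omega) _ hs.1
    · rw [Int.cast_zero, abs_zero]
      exact hB
  refine (Finset.sum_le_card_nsmul _ _ _ h1).trans ?_
  rw [Finset.card_range, nsmul_eq_mul]
  apply mul_le_mul_of_nonneg_right _ hB
  have h2 : K + 1 ≤ 2 ^ K := Nat.lt_two_pow_self
  exact_mod_cast h2

private theorem tail_bd {w : PowerSeries ℂ} {ρ C : ℝ} {τ : ℂ} (hρ : 0 ≤ ρ) (hC : 0 ≤ C)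
    (h : ρ * ‖τ‖ ≤ 1 / 2) (hw : ∀ m, ‖PowerSeries.coeff m w‖ ≤ C * ρ ^ m) (N : ℕ) :
    ‖(∑ m ∈ range N, PowerSeries.coeff m w * τ ^ m) - evz τ w‖ ≤ 2 * C * (ρ * ‖τ‖) ^ N := by
  have h0 : 0 ≤ ρ * ‖τ‖ := mul_nonneg hρ (norm_nonneg _)
  have hb : ∀ m, ‖PowerSeries.coeff m w * τ ^ m‖ ≤ C * (ρ * ‖τ‖) ^ m := by
    intro m
    rw [norm_mul, norm_pow, mul_pow, ← mul_assoc]
    exact mul_le_mul_of_nonneg_right (hw m) (pow_nonneg (norm_nonneg _) m)
  have hs : Summable fun m => PowerSeries.coeff m w * τ ^ m :=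
    Summable.of_norm_bounded
      ((summable_geometric_of_lt_one h0 (by linarith)).mul_left C) hb
  have h1 := hs.sum_add_tsum_nat_add N
  have h2 : (∑ m ∈ range N, PowerSeries.coeff m w * τ ^ m) - evz τ w =
      -∑' m, PowerSeries.coeff (m + N) w * τ ^ (m + N) := by
    unfold Pool.Agent.H52.AC.evz
    rw [← h1]
    ring
  rw [h2, norm_neg]
  have h3 : HasSum (fun m : ℕ => C * (ρ * ‖τ‖) ^ N * (ρ * ‖τ‖) ^ m)
      (C * (ρ * ‖τ‖) ^ N * (1 - ρ * ‖τ‖)⁻¹) :=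
    (hasSum_geometric_of_lt_one h0 (by linarith)).mul_left _
  refine (tsum_of_norm_bounded h3 fun m => ?_).trans ?_
  · refine (hb (m + N)).trans (le_of_eq ?_)
    rw [pow_add]
    ring
  · have h4 : (1 - ρ * ‖τ‖)⁻¹ ≤ 2 := by
      rw [inv_le_comm₀ (by linarith) (by norm_num)]
      linarith
    calc C * (ρ * ‖τ‖) ^ N * (1 - ρ * ‖τ‖)⁻¹ ≤ C * (ρ * ‖τ‖) ^ N * 2 :=
          mul_le_mul_of_nonneg_left h4 (by positivity)
      _ = 2 * C * (ρ * ‖τ‖) ^ N := by ring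

private theorem sum_dvd (g : ℕ → ℂ) {e : ℕ} (he : 1 ≤ e) (c : ℕ → ℂ) (K : ℕ)
    (h : ∀ m, g m = if e ∣ m then c (m / e) else 0) (τ : ℂ) :
    ∑ m ∈ range (e * (K + 1)), g m * τ ^ m = ∑ k ∈ range (K + 1), c k * τ ^ (e * k) := by
  have hinj : ∀ k1 ∈ range (K + 1), ∀ k2 ∈ range (K + 1), e * k1 = e * k2 → k1 = k2 := by
    intro k1 _ k2 _ h1
    exact Nat.eq_of_mul_eq_mul_left (by omega) h1
  have hsub : (range (K + 1)).image (fun k => e * k) ⊆ range (e * (K + 1)) := by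
    intro m hm
    rw [Finset.mem_image] at hm
    obtain ⟨k, hk, rfl⟩ := hm
    rw [Finset.mem_range] at hk ⊢
    exact Nat.mul_lt_mul_of_pos_left hk (by omega)
  rw [← Finset.sum_subset hsub]
  · rw [Finset.sum_image hinj]
    apply Finset.sum_congr rfl
    intro k _
    rw [h, if_pos (Dvd.intro k rfl), Nat.mul_div_cancel_left k (by omega)]
  · intro m hm hm2
    rw [h, if_neg, zero_mul]
    rintro ⟨k, rfl⟩
    apply hm2
    rw [Finset.mem_image]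
    rw [Finset.mem_range] at hm
    exact ⟨k, Finset.mem_range.2 (Nat.lt_of_mul_lt_mul_left hm), rfl⟩

private theorem alg_id {q e K d k j : ℕ} {x y τ : ℂ} (hx : x ≠ 0)
    (hT : ((q : ℂ) * τ) ^ e * x = 1) (hk : k ≤ K) (hj : j < d) :
    (q : ℂ) ^ (e * (K - k)) * (x ^ (K + d - k - j) * y ^ j) =
      (q : ℂ) ^ (e * K) * x ^ (K + d) * ((y / x) ^ j * τ ^ (e * k)) := by
  have h1 : τ ^ (e * k) * ((q : ℂ) ^ (e * k) * x ^ k) = 1 := by
    calc τ ^ (e * k) * ((q : ℂ) ^ (e * k) * x ^ k) = (((q : ℂ) * τ) ^ e * x) ^ k := by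
          rw [mul_pow, mul_pow, mul_pow, pow_mul, pow_mul]
          ring
      _ = 1 := by rw [hT, one_pow]
  have h2 : y ^ j = (y / x) ^ j * x ^ j := by
    rw [← mul_pow, div_mul_cancel₀ _ hx]
  have h3 : e * (K - k) + e * k = e * K := by
    rw [← mul_add, Nat.sub_add_cancel hk]
  have h4 : K + d - k - j + j + k = K + d := by omega
  calc (q : ℂ) ^ (e * (K - k)) * (x ^ (K + d - k - j) * y ^ j)
      = (q : ℂ) ^ (e * (K - k)) * (x ^ (K + d - k - j) * ((y / x) ^ j * x ^ j)) *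
          (τ ^ (e * k) * ((q : ℂ) ^ (e * k) * x ^ k)) := by rw [h1, mul_one, ← h2]
    _ = ((q : ℂ) ^ (e * (K - k)) * (q : ℂ) ^ (e * k)) * (x ^ (K + d - k - j) * x ^ j * x ^ k) *
          ((y / x) ^ j * τ ^ (e * k)) := by ring
    _ = _ := by rw [← pow_add, ← pow_add, ← pow_add, h3, h4]

theorem label_poly (ν : ℕ) (hν : 4 ≤ ν) : ∃ c0 : ℕ, ∀ {n : ℕ} (P : Ptd ν) (θ : Fin n → ℂ)
    (l : Fin n) (_ : LbG P (v1 θ) l) (_ : GdG (v1 θ)) (H : ℝ), 1 ≤ H → (∀ i, ‖θ i‖ ≤ H) →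
    P.Thr (cA ν) → ∀ K : ℕ, ∃ (T : Fin n → ℕ × ℕ → ℤ) (t : ℂ), |(P.x : ℝ)| ^ K ≤ ‖t‖ ∧
      (∀ b s, |((T b s : ℤ) : ℝ)| ≤ H ^ n * (P.b : ℝ) ^ (c0 * (K + 1))) ∧
      ∀ b : Fin n, ‖((tv (K + ν) ν (T b) P.x P.y : ℤ) : ℂ) - θ l ^ (b : ℕ) * t‖ ≤
        H ^ n * (P.b : ℝ) ^ (c0 * (K + 1)) * |(P.x : ℝ)| ^ ν := by
  refine ⟨4 * ν.factorial + 8 * ν + 2, ?_⟩
  intro n P θ l L G H hH hθ hThr K
  obtain ⟨hRT, hevy, _, _, hx0, _⟩ := P.facts hν hThr
  have hb2 := P.C.b2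
  have hd1 := P.C.d1
  have hdn := P.C.dn
  have hR2 := P.C.pd.R_ge
  have hRb := P.C.R_le
  have he1 := P.C.pd.e_pos
  have hq1 := P.C.pd.q_pos
  have hqb := P.C.q_le
  have heν : P.C.pd.e ≤ ν.factorial := P.C.e_le.trans (Nat.factorial_le hdn)
  obtain ⟨e, he⟩ : ∃ e, e = P.C.pd.e := ⟨_, rfl⟩
  obtain ⟨q, hq⟩ : ∃ q, q = P.C.pd.q := ⟨_, rfl⟩
  obtain ⟨R, hR⟩ : ∃ R, R = P.C.pd.R := ⟨_, rfl⟩
  obtain ⟨d, hd⟩ : ∃ d, d = P.d := ⟨_, rfl⟩
  obtain ⟨β, hβ⟩ : ∃ β : ℝ, β = P.b := ⟨_, rfl⟩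
  obtain ⟨X, hX⟩ : ∃ X : ℝ, X = |(P.x : ℝ)| := ⟨_, rfl⟩
  have hβ2 : 2 ≤ β := by rw [hβ]; exact_mod_cast hb2
  have hβ1 : 1 ≤ β := by linarith
  have hR2' : 2 ≤ R := by rw [hR]; exact hR2
  have hRβ : R ≤ β := by rw [hR, hβ]; exact hRb
  have hq1' : (1 : ℝ) ≤ q := by rw [hq]; exact_mod_cast hq1
  have hqβ : (q : ℝ) ≤ β := by rw [hq, hβ]; exact_mod_cast hqb
  have heν' : e ≤ ν.factorial := by rw [he]; exact heν
  have he1' : 1 ≤ e := by rw [he]; exact he1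
  have hThr' : β ^ cA ν ≤ X := by rw [hβ, hX]; exact hThr
  have hX1 : 1 ≤ X := (one_le_pow₀ hβ1).trans hThr'
  have hX0 : 0 < X := by linarith
  have hH0 : 0 ≤ H ^ n := by positivity
  have hH1 : ∀ b : Fin n, H ^ (b : ℕ) ≤ H ^ n := fun b => pow_le_pow_right₀ hH b.2.le
  have hνβ : (ν : ℝ) ≤ β ^ ν := by
    have h1 : ν ≤ 2 ^ ν := Nat.lt_two_pow_self.le
    have h2 : (ν : ℝ) ≤ 2 ^ ν := by exact_mod_cast h1
    exact h2.trans (pow_le_pow_left₀ (by norm_num) hβ2 ν)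
  have h4R : 4 * R ≤ β ^ 3 := by
    have h1 : β ^ 3 = β * β * β := by ring
    rw [h1]
    have h2 : 4 ≤ β * β := by nlinarith
    calc 4 * R ≤ 4 * β := by linarith
      _ ≤ β * β * β := mul_le_mul_of_nonneg_right h2 (by linarith)
  have h4Rp : ∀ m, (4 * R) ^ m ≤ β ^ (3 * m) := fun m => by
    rw [pow_mul]
    exact pow_le_pow_left₀ (by linarith) h4R m
  have h2R : ∀ m, (2 * R) ^ m ≤ β ^ (2 * m) := fun m => by
    rw [pow_mul]
    refine pow_le_pow_left₀ (by linarith) ?_ m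
    nlinarith
  -- the norm of T
  have hTn : ((q : ℝ) * ‖P.T‖) ^ e * X = 1 := by
    have h5 := congrArg norm P.hT
    rw [norm_mul, norm_pow, norm_mul, norm_one, Complex.norm_natCast, Complex.norm_intCast] at h5
    rw [hq, he, hX]
    exact h5
  have hτ : 4 * R * ‖P.T‖ ≤ 1 / 2 := by
    by_contra hcon
    rw [not_le] at hcon
    have h5 : 1 < (8 * R * ‖P.T‖) ^ e := one_lt_pow₀ (by linarith) (by omega)
    have h6 : (8 * R * ‖P.T‖) ^ e ≤ (8 * R) ^ e * ((q : ℝ) * ‖P.T‖) ^ e := by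
      rw [← mul_pow]
      apply pow_le_pow_left₀ (by positivity)
      have h7 : ‖P.T‖ ≤ (q : ℝ) * ‖P.T‖ := le_mul_of_one_le_left (norm_nonneg _) hq1'
      exact mul_le_mul_of_nonneg_left h7 (by positivity)
    have h7 : (8 * R) ^ e ≤ X := by
      refine le_trans ?_ hThr'
      calc (8 * R) ^ e ≤ (β ^ 4) ^ e := by
            apply pow_le_pow_left₀ (by positivity)
            have h8 : β ^ 4 = β ^ 3 * β := by ring
            have h9 : (8 : ℝ) ≤ β ^ 3 := by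
              have := pow_le_pow_left₀ (by norm_num : (0 : ℝ) ≤ 2) hβ2 3
              linarith
            rw [h8]
            calc 8 * R ≤ 8 * β := by linarith
              _ ≤ β ^ 3 * β := mul_le_mul_of_nonneg_right h9 (by linarith)
        _ = β ^ (4 * e) := by rw [← pow_mul]
        _ ≤ β ^ cA ν := by
            apply pow_le_pow_right₀ hβ1
            have h8 : 1 ≤ ν ^ 5 := Nat.one_le_pow _ _ (by omega)
            have h9 : 1 ≤ 20 * ν ^ 2 := by nlinarith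
            unfold cA
            calc 4 * e ≤ 10 ^ 6 * ν.factorial := by omega
              _ = 1 * (10 ^ 6 * 1 * ν.factorial) := by ring
              _ ≤ 20 * ν ^ 2 * (10 ^ 6 * ν ^ 5 * ν.factorial) := by gcongr
    have h8 : (8 * R) ^ e * ((q : ℝ) * ‖P.T‖) ^ e ≤ 1 := by
      rw [← hTn, mul_comm]
      exact mul_le_mul_of_nonneg_left h7 (by positivity)
    linarith
  -- the integers
  choose ψ hψ using fun b : Fin n => lpol_int P θ L G (b : ℕ)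
  rw [← he] at hψ
  have hgr : ∀ (b : Fin n) (j m : ℕ), ‖PowerSeries.coeff m ((lpol P θ L (b : ℕ)).coeff j)‖ ≤
      ν * H ^ n * (4 * R) ^ ν * (4 * R) ^ m := by
    intro b j m
    have h1 := lpol_growth P θ L hH hθ (b : ℕ) j m
    rw [← hR] at h1
    refine h1.trans ?_
    rw [pow_add, mul_assoc (ν * H ^ n), mul_comm ((4 * R) ^ ν)]
    apply mul_le_mul_of_nonneg_right _ (by positivity)
    exact mul_le_mul_of_nonneg_left (hH1 b) (Nat.cast_nonneg _)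
  have hψn : ∀ (b : Fin n) (k j : ℕ), |((ψ b k j : ℤ) : ℝ)| ≤
      ν * H ^ n * (4 * R) ^ ν * (4 * R) ^ (e * k) := by
    intro b k j
    have h1 := hgr b j (e * k)
    rw [hψ b, if_pos (Dvd.intro k rfl), Nat.mul_div_cancel_left k (by omega),
      Complex.norm_intCast] at h1
    exact h1
  have hxC : (P.x : ℂ) ≠ 0 := by exact_mod_cast hx0
  refine ⟨fun b => tp (ψ b) e q d K,
    (q : ℂ) ^ (e * K) * (P.x : ℂ) ^ (K + 1) * ((evy P.d P.F P.x P.y : ℤ) : ℂ), ?_, ?_, ?_⟩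
  · rw [norm_mul, norm_mul, norm_pow, norm_pow, Complex.norm_natCast, Complex.norm_intCast,
      Complex.norm_intCast, ← hX]
    have h1 : (1 : ℝ) ≤ |((evy P.d P.F P.x P.y : ℤ) : ℝ)| := by
      have h2 := Int.one_le_abs hevy
      exact_mod_cast h2
    have h2 : (1 : ℝ) ≤ (q : ℝ) ^ (e * K) := one_le_pow₀ hq1'
    have h3 : X ^ K ≤ X ^ (K + 1) := pow_le_pow_right₀ hX1 (Nat.le_succ K)
    calc X ^ K ≤ X ^ (K + 1) := h3
      _ = 1 * X ^ (K + 1) * 1 := by ring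
      _ ≤ (q : ℝ) ^ (e * K) * X ^ (K + 1) * |((evy P.d P.F P.x P.y : ℤ) : ℝ)| := by gcongr
  · intro b s
    rw [← hβ]
    have h1 := tp_le (ψ b) (e := e) (q := q) (d := d) (K := K)
      (B := β ^ ν * H ^ n * β ^ (3 * ν) * β ^ (3 * (ν.factorial * K)) * β ^ (ν.factorial * K))
      (by positivity) ?_ s
    · refine h1.trans ?_
      have h2 : (2 : ℝ) ^ K ≤ β ^ K := pow_le_pow_left₀ (by norm_num) hβ2 K
      calc 2 ^ K * (β ^ ν * H ^ n * β ^ (3 * ν) * β ^ (3 * (ν.factorial * K)) *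
            β ^ (ν.factorial * K))
          ≤ β ^ K * (β ^ ν * H ^ n * β ^ (3 * ν) * β ^ (3 * (ν.factorial * K)) *
            β ^ (ν.factorial * K)) := mul_le_mul_of_nonneg_right h2 (by positivity)
        _ = H ^ n * (β ^ K * β ^ ν * β ^ (3 * ν) * β ^ (3 * (ν.factorial * K)) *
            β ^ (ν.factorial * K)) := by ring
        _ = H ^ n * β ^ (K + ν + 3 * ν + 3 * (ν.factorial * K) + ν.factorial * K) := by
            rw [← pow_add, ← pow_add, ← pow_add, ← pow_add]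
        _ ≤ _ := by
            apply mul_le_mul_of_nonneg_left _ hH0
            apply pow_le_pow_right₀ hβ1
            nlinarith [Nat.zero_le (ν * K), Nat.zero_le ν.factorial]
    · intro k hk j _
      have h2 := hψn b k j
      have h3 : (4 * R) ^ (e * k) ≤ β ^ (3 * (ν.factorial * K)) := by
        refine (h4Rp _).trans (pow_le_pow_right₀ hβ1 ?_)
        exact Nat.mul_le_mul_left 3 (Nat.mul_le_mul heν' hk)
      have h4 : (q : ℝ) ^ (e * (K - k)) ≤ β ^ (ν.factorial * K) := by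
        calc (q : ℝ) ^ (e * (K - k)) ≤ β ^ (e * (K - k)) :=
              pow_le_pow_left₀ (by linarith) hqβ _
          _ ≤ β ^ (ν.factorial * K) :=
              pow_le_pow_right₀ hβ1 (Nat.mul_le_mul heν' (Nat.sub_le K k))
      have h5 : (4 * R) ^ ν ≤ β ^ (3 * ν) := h4Rp ν
      have h6 : |((ψ b k j : ℤ) : ℝ)| ≤
          β ^ ν * H ^ n * β ^ (3 * ν) * β ^ (3 * (ν.factorial * K)) := by
        refine h2.trans ?_
        gcongr
      exact mul_le_mul h6 h4 (by positivity) (by positivity)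
  · intro b
    rw [← hβ, ← hX]
    -- the values
    obtain ⟨w, hw⟩ : ∃ w : ℕ → PowerSeries ℂ, w = fun j => (lpol P θ L (b : ℕ)).coeff j :=
      ⟨_, rfl⟩
    have hS : ∀ j, ∑ m ∈ range (e * (K + 1)), PowerSeries.coeff m (w j) * P.T ^ m =
        ∑ k ∈ range (K + 1), ((ψ b k j : ℤ) : ℂ) * P.T ^ (e * k) := by
      intro j
      apply sum_dvd (fun m => PowerSeries.coeff m (w j)) he1' (fun k => ((ψ b k j : ℤ) : ℂ)) K
      intro m
      rw [hw]
      exact hψ b m j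
    have hE := lpol_eval hν P θ L hThr (b : ℕ)
    have hTV : ((tv (K + ν) ν (tp (ψ b) e q d K) P.x P.y : ℤ) : ℂ) =
        (q : ℂ) ^ (e * K) * (P.x : ℂ) ^ (K + d) * ∑ j ∈ range d, ((P.y : ℂ) / (P.x : ℂ)) ^ j *
          ∑ m ∈ range (e * (K + 1)), PowerSeries.coeff m (w j) * P.T ^ m := by
      rw [tv_tp (ψ b) (by rw [hd]; exact hdn) P.x P.y, Finset.mul_sum, Int.cast_sum]
      apply Finset.sum_congr rfl
      intro j hj
      rw [Finset.mem_range] at hj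
      rw [hS j, Int.cast_sum, Finset.mul_sum, Finset.mul_sum]
      apply Finset.sum_congr rfl
      intro k hk
      rw [Finset.mem_range] at hk
      have h1 := alg_id (q := q) (e := e) (K := K) (d := d) (k := k) (j := j) (x := (P.x : ℂ))
        (y := (P.y : ℂ)) (τ := P.T) hxC (by rw [hq, he]; exact P.hT) (by omega) hj
      push_cast
      calc ((ψ b k j : ℤ) : ℂ) * (q : ℂ) ^ (e * (K - k)) *
            ((P.x : ℂ) ^ (K + d - k - j) * (P.y : ℂ) ^ j)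
          = ((ψ b k j : ℤ) : ℂ) * ((q : ℂ) ^ (e * (K - k)) *
            ((P.x : ℂ) ^ (K + d - k - j) * (P.y : ℂ) ^ j)) := by ring
        _ = _ := by rw [h1]; ring
    have hθt : θ l ^ (b : ℕ) * ((q : ℂ) ^ (e * K) * (P.x : ℂ) ^ (K + 1) *
          ((evy P.d P.F P.x P.y : ℤ) : ℂ)) =
        (q : ℂ) ^ (e * K) * (P.x : ℂ) ^ (K + d) * ∑ j ∈ range d, ((P.y : ℂ) / (P.x : ℂ)) ^ j *
          evz P.T (w j) := by
      have h1 : (P.x : ℂ) ^ (K + d) = (P.x : ℂ) ^ (K + 1) * (P.x : ℂ) ^ (P.d - 1) := by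
        rw [← pow_add]
        congr 1
        omega
      rw [h1]
      calc θ l ^ (b : ℕ) * ((q : ℂ) ^ (e * K) * (P.x : ℂ) ^ (K + 1) *
            ((evy P.d P.F P.x P.y : ℤ) : ℂ))
          = (q : ℂ) ^ (e * K) * (P.x : ℂ) ^ (K + 1) *
            (θ l ^ (b : ℕ) * ((evy P.d P.F P.x P.y : ℤ) : ℂ)) := by ring
        _ = _ := by
            rw [← hE, hw, hd]
            have h2 : ∑ j ∈ range P.d, ((P.y : ℂ) / (P.x : ℂ)) ^ j *
                evz P.T ((lpol P θ L (b : ℕ)).coeff j) =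
                ∑ j ∈ range P.d, evz P.T ((lpol P θ L (b : ℕ)).coeff j) *
                  ((P.y : ℂ) / (P.x : ℂ)) ^ j :=
              Finset.sum_congr rfl fun j _ => mul_comm _ _
            rw [h2]
            ring
    rw [hTV, hθt, ← mul_sub, ← Finset.sum_sub_distrib, norm_mul, norm_mul, norm_pow, norm_pow,
      Complex.norm_natCast, Complex.norm_intCast, ← hX]
    -- the bound of z
    have hz : ‖(P.y : ℂ) / (P.x : ℂ)‖ ≤ 2 * R := by
      rw [← P.hy, hR]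
      refine evz_le (by linarith) (by linarith) hRT fun m => ?_
      rw [mul_comm, ← pow_succ]
      exact P.C.pd.growth P.i m
    have hsum : ‖∑ j ∈ range d, (((P.y : ℂ) / (P.x : ℂ)) ^ j *
          (∑ m ∈ range (e * (K + 1)), PowerSeries.coeff m (w j) * P.T ^ m) -
            ((P.y : ℂ) / (P.x : ℂ)) ^ j * evz P.T (w j))‖ ≤
        ν * ((2 * R) ^ ν * (2 * (ν * H ^ n * (4 * R) ^ ν) * (4 * R * ‖P.T‖) ^ (e * (K + 1)))) := by
      refine (norm_sum_le _ _).trans ?_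
      have h1 : ∀ j ∈ range d, ‖((P.y : ℂ) / (P.x : ℂ)) ^ j *
          (∑ m ∈ range (e * (K + 1)), PowerSeries.coeff m (w j) * P.T ^ m) -
            ((P.y : ℂ) / (P.x : ℂ)) ^ j * evz P.T (w j)‖ ≤
          (2 * R) ^ ν * (2 * (ν * H ^ n * (4 * R) ^ ν) * (4 * R * ‖P.T‖) ^ (e * (K + 1))) := by
        intro j hj
        rw [Finset.mem_range] at hj
        rw [← mul_sub, norm_mul, norm_pow]
        have h2 := tail_bd (w := w j) (ρ := 4 * R) (C := ν * H ^ n * (4 * R) ^ ν) (τ := P.T)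
          (by linarith) (by positivity) hτ (fun m => by rw [hw]; exact hgr b j m) (e * (K + 1))
        have h3 : ‖(P.y : ℂ) / (P.x : ℂ)‖ ^ j ≤ (2 * R) ^ ν := by
          calc ‖(P.y : ℂ) / (P.x : ℂ)‖ ^ j ≤ (2 * R) ^ j :=
                pow_le_pow_left₀ (norm_nonneg _) hz j
            _ ≤ (2 * R) ^ ν := pow_le_pow_right₀ (by linarith) (by omega)
        exact mul_le_mul h3 h2 (norm_nonneg _) (by positivity)
      refine (Finset.sum_le_card_nsmul _ _ _ h1).trans ?_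
      rw [Finset.card_range, nsmul_eq_mul]
      apply mul_le_mul_of_nonneg_right _ (by positivity)
      have : d ≤ ν := by rw [hd]; exact hdn
      exact_mod_cast this
    have hcan : (q : ℝ) ^ (e * K) * X ^ (K + d) * (4 * R * ‖P.T‖) ^ (e * (K + 1)) ≤
        β ^ (3 * (ν.factorial * (K + 1))) * X ^ ν := by
      have h1 : ((q : ℝ) * ‖P.T‖) ^ (e * (K + 1)) * X ^ (K + 1) = 1 := by
        rw [pow_mul, ← mul_pow, hTn, one_pow]
      have h2 : (q : ℝ) ^ (e * K) ≤ (q : ℝ) ^ (e * (K + 1)) :=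
        pow_le_pow_right₀ hq1' (Nat.mul_le_mul_left e (Nat.le_succ K))
      have h3 : (4 * R) ^ (e * (K + 1)) ≤ β ^ (3 * (ν.factorial * (K + 1))) :=
        (h4Rp _).trans (pow_le_pow_right₀ hβ1
          (Nat.mul_le_mul_left 3 (Nat.mul_le_mul_right _ heν')))
      have h4 : X ^ (K + d) = X ^ (K + 1) * X ^ (d - 1) := by
        rw [← pow_add]
        congr 1
        omega
      have h5 : X ^ (d - 1) ≤ X ^ ν := pow_le_pow_right₀ hX1 (by omega)
      calc (q : ℝ) ^ (e * K) * X ^ (K + d) * (4 * R * ‖P.T‖) ^ (e * (K + 1))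
          ≤ (q : ℝ) ^ (e * (K + 1)) * X ^ (K + d) * (4 * R * ‖P.T‖) ^ (e * (K + 1)) := by
            gcongr
        _ = (4 * R) ^ (e * (K + 1)) * (((q : ℝ) * ‖P.T‖) ^ (e * (K + 1)) * X ^ (K + 1)) *
            X ^ (d - 1) := by
            rw [h4, mul_pow (4 * R), mul_pow (q : ℝ)]
            ring
        _ = (4 * R) ^ (e * (K + 1)) * X ^ (d - 1) := by rw [h1, mul_one]
        _ ≤ _ := mul_le_mul h3 h5 (by positivity) (by positivity)
    calc (q : ℝ) ^ (e * K) * X ^ (K + d) * ‖∑ j ∈ range d, (((P.y : ℂ) / (P.x : ℂ)) ^ j *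
          (∑ m ∈ range (e * (K + 1)), PowerSeries.coeff m (w j) * P.T ^ m) -
            ((P.y : ℂ) / (P.x : ℂ)) ^ j * evz P.T (w j))‖
        ≤ (q : ℝ) ^ (e * K) * X ^ (K + d) * (ν * ((2 * R) ^ ν *
          (2 * (ν * H ^ n * (4 * R) ^ ν) * (4 * R * ‖P.T‖) ^ (e * (K + 1))))) :=
          mul_le_mul_of_nonneg_left hsum (by positivity)
      _ = H ^ n * (ν * (2 * R) ^ ν * (2 * (ν * (4 * R) ^ ν)) *
          ((q : ℝ) ^ (e * K) * X ^ (K + d) * (4 * R * ‖P.T‖) ^ (e * (K + 1)))) := by ring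
      _ ≤ H ^ n * (β ^ ν * β ^ (2 * ν) * (β * (β ^ ν * β ^ (3 * ν))) *
          (β ^ (3 * (ν.factorial * (K + 1))) * X ^ ν)) := by
          apply mul_le_mul_of_nonneg_left _ hH0
          apply mul_le_mul _ hcan (by positivity) (by positivity)
          have h1 := h2R ν
          have h2 := h4Rp ν
          gcongr
      _ = H ^ n * β ^ (ν + 2 * ν + (1 + (ν + 3 * ν)) + 3 * (ν.factorial * (K + 1))) * X ^ ν := by
          rw [pow_add, pow_add, pow_add, pow_add, pow_add, pow_one]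
          ring
      _ ≤ _ := by
          apply mul_le_mul_of_nonneg_right _ (by positivity)
          apply mul_le_mul_of_nonneg_left _ hH0
          apply pow_le_pow_right₀ hβ1
          nlinarith [Nat.zero_le (ν * K), Nat.zero_le ν.factorial,
            Nat.zero_le (ν.factorial * K)]

end Pool.Agent.H37.LB
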