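import Pool.Agent.H37.LB.LLM
import Pool.Agent.H37.LB.LPB
import Pool.Agent.H97.FB.TRA

/-! # [H37 LB KY1] Enough monomials have an approximate relation

`c0` from `label_poly ν`. `K0 = (ν + 3) R1 + ..` (any value with the properties below works). `K v = ⌊(4k - 2) Y / ell_v⌋₊`; `ell_v ≤ R1 L ≤ Y / (ν+3)`.
(1) BOX: for `μ ∈ bxs (Df P Y) E` and `s ∈ bxs (K + ν) ν`: `μ + s ∈ bxs (Df P (4 k Y)) (E + ν)`: `⌊Y/ell⌋ + K v + ν ≤ 4 k Y / ell` since `ν ell ≤ Y`; `< E + ν - 1`. (2) `label_poly` for every `P v` (labels `lm.L v`, `GdG (v1 (θ v))` from `lm.monic, lm.rts`: `gdG_one` of `Pool/Agent/H97/FB`) with `K v`: `T v`, `t v`,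
`‖t v‖ ≥ |x_v|^(K v)`. `TB = H^n * exp (c0 ((4k-2) K2 + 1) R1 L / c)`: `b^c ≤ |x| = exp ell`, so `log b ≤ ell / c ≤ R1 L / c`, `K v ≤ (4k-2) K2`. `log H ≤ ell_v / c ≤ R1 L / c`. `Δ = exp (- (4k-3) Y)`: the error divided by `‖t v‖` is at most `TB |x|^(ν - K v) ≤ TB exp (ν ell - (4k-2) Y + ell) ≤ exp (-(4k-3) Y)`
(`(ν+1) R1 L + log TB ≤ Y`). `‖θ v l^b‖ ≤ H^n` (as the `H` of `label_lemma`). (3) `W = exp ((k+1) Y)`: `|x_v|^(a_v) ≤ exp Y`, `|y_v|^(b_v) ≤ (|x_v|^2)^E`-ish: `|y_v| = |x_v| |evz T x_i| ≤ 2 R |x_v| ≤ |x_v|^2`, `2 E k R1 L ≤ Y` (`K0 E L ≤ Y`, `K0 ≥ 2 k R1`). This is `mv_le` (stated here, used again in `key`).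
(4) `label_lemma` with `r = ρ' L`; `card C ≤ r1 := ((⌈K2⌉+1) E0)^k`, `card bx ≤ r2 := (((4k-2) ⌈K2⌉ + ν + 1) ν)^k` (`Df P Y v ≤ Y / ell_v ≤ K2`). `N0 = n^k card C ≤ n^k r1`. The base `4 N0 |bx| TB^k exp(ρ' L r1 r2) ≤ exp ((C1/c + ρ' r1 r2 + C2 / c) L)`-like (constants `≤ exp (const) ≤ exp (const R1 L / c)` because `L ≥ ell / R1 ≥ c log 2 / R1`),
so `Z ≤ exp (ρ1 L)` for `ρ' = ρ1 / (4 n^k r1 (r1 r2 + 1))` and `c` large; `δ = card C n^k Z (k Δ (H^n + 1)^k) W ≤ exp (small + (k+1) Y - (4k-3) Y) ≤ exp (-4 Y)` since `4k - 3 - (k+1) = 3k - 4 ≥ 8` and `small ≤ Y`. `Apx` is monotone in `Z, δ`. (`n^k * card C > card B'` gives `C` nonempty, `n ≥ 1`.) -/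

namespace Pool.Agent.H37.LB

open Finset Polynomial Pool.Agent.H72.ES Pool.Agent.H87.SA Pool.Agent.H87.SA2 Pool.Agent.H87.AX
  Pool.Agent.H8.AW Pool.Agent.H52.AC Pool.Agent.H97.NW Pool.Agent.H8.RZ Pool.Agent.H97.FB
  Pool.Agent.H97.FC

private theorem ky1_exp {ν : ℕ} (P : Ptd ν) (h : 0 < P.ell) : |(P.x : ℝ)| = Real.exp P.ell := by
  unfold Ptd.ell at *
  rw [Real.exp_log]
  rw [abs_pos]
  intro h0
  rw [h0, abs_zero, Real.log_zero] at h
  exact lt_irrefl _ h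

private theorem ky1_y {ν : ℕ} (hν : 4 ≤ ν) (P : Ptd ν) (hT : P.Thr (cA ν)) :
    |(P.y : ℝ)| ≤ |(P.x : ℝ)| ^ 2 := by
  obtain ⟨h1, -, -, h4, h5, -⟩ := P.facts hν hT
  have hR2 := P.C.pd.R_ge
  have hx : (P.x : ℂ) ≠ 0 := by exact_mod_cast h5
  have hx0 : 0 < |(P.x : ℝ)| := by
    rw [abs_pos]
    exact_mod_cast h5
  have h6 : ‖evz P.T (P.C.pd.x P.i)‖ ≤ 2 * P.C.pd.R := by
    refine evz_le (by linarith) (by linarith) h1 fun m => ?_
    refine (P.C.pd.growth P.i m).trans (le_of_eq ?_)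
    ring
  rw [P.hy, norm_div, Complex.norm_intCast, Complex.norm_intCast, div_le_iff₀ hx0] at h6
  have h7 : 2 * P.C.pd.R ≤ |(P.x : ℝ)| := by
    refine le_trans ?_ h4
    have h8 : (2 * P.C.pd.R) ^ 1 ≤ (2 * P.C.pd.R) ^ P.C.pd.e :=
      pow_le_pow_right₀ (by linarith) P.C.pd.e_pos
    rw [pow_one] at h8
    linarith
  calc |(P.y : ℝ)| ≤ 2 * P.C.pd.R * |(P.x : ℝ)| := h6
    _ ≤ |(P.x : ℝ)| * |(P.x : ℝ)| := mul_le_mul_of_nonneg_right h7 hx0.le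
    _ = _ := by ring

private theorem ky1_mem {k : ℕ} {D : Fin k → ℕ} {E : ℕ} {μ : Fin k → ℕ × ℕ} :
    μ ∈ bxs D E ↔ ∀ v, (μ v).1 ≤ D v ∧ (μ v).2 < E := by
  unfold bxs
  rw [Fintype.mem_piFinset]
  refine forall_congr' fun v => ?_
  rw [mem_product, mem_range, mem_range, Nat.lt_succ_iff]

theorem mv_le {ν k : ℕ} (hν : 4 ≤ ν) (P : Fin k → Ptd ν) (hT : ∀ v, (P v).Thr (cA ν)) {Y : ℝ} {E : ℕ}
    (hE : ∀ v, 2 * E * k * (P v).ell ≤ Y) (hY : ∀ v, (P v).ell ≤ Y) (hY0 : 0 ≤ Y) :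
    ∀ μ ∈ bxs (Df P Y) E, |((mv P μ : ℤ) : ℝ)| ≤ Real.exp ((k + 1) * Y) := by
  intro μ hμ
  rw [ky1_mem] at hμ
  have hell : ∀ v, 0 < (P v).ell := by
    intro v
    have h1 := ((P v).ell_ge (hT v)).2
    have h2 : (1 : ℝ) ≤ cA ν := by
      have h3 : 1 ≤ cA ν := by
        unfold cA
        have := Nat.factorial_pos ν
        have h4 : 0 < ν := by omega
        exact Nat.succ_le_of_lt (by positivity)
      exact_mod_cast h3
    have h3 : (0 : ℝ) < Real.log 2 := Real.log_pos (by norm_num)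
    nlinarith
  unfold mv
  push_cast
  rw [abs_prod]
  rcases Nat.eq_zero_or_pos k with hk | hk
  · subst hk
    rw [Finset.univ_eq_empty, prod_empty]
    refine Real.one_le_exp ?_
    positivity
  have hkr : (0 : ℝ) < k := by exact_mod_cast hk
  calc ∏ v, |((P v).x : ℝ) ^ (μ v).1 * ((P v).y : ℝ) ^ (μ v).2|
      ≤ ∏ _v : Fin k, Real.exp (Y + Y / k) := by
        refine prod_le_prod (fun v _ => abs_nonneg _) fun v _ => ?_
        rw [abs_mul, abs_pow, abs_pow, Real.exp_add]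
        have h0 := hell v
        refine mul_le_mul ?_ ?_ (by positivity) (by positivity)
        · rw [ky1_exp (P v) h0, ← Real.exp_nat_mul]
          apply Real.exp_le_exp.2
          have h1 : ((μ v).1 : ℝ) ≤ Y / (P v).ell := by
            have h2 : ((μ v).1 : ℝ) ≤ Df P Y v := by exact_mod_cast (hμ v).1
            exact h2.trans (Nat.floor_le (by positivity))
          rwa [le_div_iff₀ h0] at h1
        · have h1 := ky1_y hν (P v) (hT v)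
          rw [ky1_exp (P v) h0, ← Real.exp_nat_mul] at h1
          calc |((P v).y : ℝ)| ^ (μ v).2 ≤ Real.exp ((2 : ℕ) * (P v).ell) ^ (μ v).2 :=
                pow_le_pow_left₀ (abs_nonneg _) h1 _
            _ = Real.exp ((μ v).2 * ((2 : ℕ) * (P v).ell)) := by rw [← Real.exp_nat_mul]
            _ ≤ Real.exp (Y / k) := by
                apply Real.exp_le_exp.2
                rw [le_div_iff₀ hkr]
                push_cast
                refine le_trans ?_ (hE v)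
                have h2 : ((μ v).2 : ℝ) ≤ E := by exact_mod_cast (hμ v).2.le
                have h3 : ((μ v).2 : ℝ) * (2 * (P v).ell * k) ≤ E * (2 * (P v).ell * k) :=
                  mul_le_mul_of_nonneg_right h2 (by positivity)
                linarith
    _ = Real.exp ((k + 1) * Y) := by
        rw [prod_const, card_univ, Fintype.card_fin, ← Real.exp_nat_mul]
        congr 1
        field_simp

private theorem ky1_card {ν k : ℕ} (P : Fin k → Ptd ν) {Y : ℝ} {E E0 Kc : ℕ} (hE : E ≤ E0)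
    (h0 : ∀ v, 0 < (P v).ell) (hY : ∀ v, Y ≤ Kc * (P v).ell) :
    (bxs (Df P Y) E).card ≤ ((Kc + 1) * E0) ^ k := by
  unfold bxs
  rw [Fintype.card_piFinset]
  refine (prod_le_prod' (g := fun _ => (Kc + 1) * E0) fun v _ => ?_).trans (le_of_eq ?_)
  · rw [card_product, card_range, card_range]
    refine Nat.mul_le_mul ?_ hE
    have h1 : Df P Y v ≤ Kc := by
      unfold Df
      refine Nat.floor_le_of_le ?_
      rw [div_le_iff₀ (h0 v)]
      exact hY v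
    omega
  · rw [prod_const, card_univ, Fintype.card_fin]

private theorem ky1_cardbx {ν k Kc : ℕ} {K : Fin k → ℕ} (hK : ∀ v, K v ≤ 4 * k * Kc) :
    (bxs (fun v => K v + ν) ν).card ≤ ((4 * k * Kc + ν + 1) * ν) ^ k := by
  unfold bxs
  rw [Fintype.card_piFinset]
  refine (prod_le_prod' (g := fun _ => (4 * k * Kc + ν + 1) * ν) fun v _ => ?_).trans (le_of_eq ?_)
  · rw [card_product, card_range, card_range]
    refine Nat.mul_le_mul ?_ le_rfl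
    show K v + ν + 1 ≤ 4 * k * Kc + ν + 1
    have := hK v
    omega
  · rw [prod_const, card_univ, Fintype.card_fin]

private theorem ky1_nat (N : ℕ) {u : ℝ} (hu : 1 / 2 ≤ u) : (N : ℝ) ≤ Real.exp (2 * N * u) := by
  have h1 := Real.add_one_le_exp (2 * (N : ℝ) * u)
  have h2 : 2 * (N : ℝ) * (1 / 2) ≤ 2 * N * u :=
    mul_le_mul_of_nonneg_left hu (by positivity)
  linarith

/-- the base -/
private theorem ky1_Z {N bx r1 r2 nk k : ℕ} {C1 u ρ' L ρ1 : ℝ} (hu : 1 / 2 ≤ u) (hC1 : 0 ≤ C1)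
    (hN : N ≤ nk * r1) (hbx : bx ≤ r2) {CC : ℕ} (hCC : CC ≤ r1) (hρ' : 0 ≤ ρ') (hL : 0 ≤ L)
    (h1 : (nk * r1 : ℕ) * ((4 + 2 * (nk * r1 : ℕ) + 2 * r2 + k * C1) * u) ≤ ρ1 / 2 * L)
    (h2 : ((nk * r1 : ℕ) : ℝ) * (ρ' * (r1 * r2)) ≤ ρ1 / 2) :
    (4 * ((N : ℝ) * ((bx : ℝ) * Real.exp (C1 * u) ^ k * Real.exp (ρ' * L * (CC * bx))))) ^ N ≤
      Real.exp (ρ1 * L) := by
  have hN' : (N : ℝ) ≤ (nk * r1 : ℕ) := by exact_mod_cast hN
  have hbx' : (bx : ℝ) ≤ r2 := by exact_mod_cast hbx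
  have hCC' : (CC : ℝ) ≤ r1 := by exact_mod_cast hCC
  have hu0 : 0 ≤ u := by linarith only [hu]
  obtain ⟨X, hX⟩ : ∃ X : ℝ, X = (4 + 2 * (nk * r1 : ℕ) + 2 * r2 + k * C1) * u +
    ρ' * (r1 * r2) * L := ⟨_, rfl⟩
  have hX0 : 0 ≤ X := by rw [hX]; positivity
  have hbase : 4 * ((N : ℝ) * ((bx : ℝ) * Real.exp (C1 * u) ^ k *
      Real.exp (ρ' * L * (CC * bx)))) ≤ Real.exp X := by
    have e1 : (4 : ℝ) ≤ Real.exp (4 * u) := by
      have h3 : (4 : ℝ) ≤ Real.exp 2 := by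
        have h5 := Real.exp_one_gt_d9
        have h6 : Real.exp 2 = Real.exp 1 * Real.exp 1 := by
          rw [← Real.exp_add]
          norm_num
        rw [h6]
        nlinarith only [h5]
      refine h3.trans (Real.exp_le_exp.2 ?_)
      linarith only [hu]
    have e2 : (N : ℝ) ≤ Real.exp (2 * (nk * r1 : ℕ) * u) := hN'.trans (ky1_nat _ hu)
    have e3 : (bx : ℝ) ≤ Real.exp (2 * r2 * u) := hbx'.trans (ky1_nat _ hu)
    have e4 : Real.exp (C1 * u) ^ k = Real.exp (k * (C1 * u)) := by rw [← Real.exp_nat_mul]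
    have e5 : Real.exp (ρ' * L * (CC * bx)) ≤ Real.exp (ρ' * (r1 * r2) * L) := by
      apply Real.exp_le_exp.2
      have h3 : (CC : ℝ) * bx ≤ r1 * r2 := mul_le_mul hCC' hbx' (Nat.cast_nonneg _) (Nat.cast_nonneg _)
      have h4 := mul_le_mul_of_nonneg_left h3 (mul_nonneg hρ' hL)
      linarith only [h4]
    rw [e4]
    calc 4 * ((N : ℝ) * ((bx : ℝ) * Real.exp (k * (C1 * u)) * Real.exp (ρ' * L * (CC * bx))))
        ≤ Real.exp (4 * u) * (Real.exp (2 * (nk * r1 : ℕ) * u) * (Real.exp (2 * r2 * u) *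
          Real.exp (k * (C1 * u)) * Real.exp (ρ' * (r1 * r2) * L))) := by gcongr
      _ = Real.exp X := by
          rw [← Real.exp_add, ← Real.exp_add, ← Real.exp_add, ← Real.exp_add, hX]
          congr 1
          ring
  calc (4 * ((N : ℝ) * ((bx : ℝ) * Real.exp (C1 * u) ^ k * Real.exp (ρ' * L * (CC * bx))))) ^ N
      ≤ Real.exp X ^ N := pow_le_pow_left₀ (by positivity) hbase _
    _ = Real.exp (N * X) := by rw [← Real.exp_nat_mul]
    _ ≤ Real.exp (ρ1 * L) := by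
        apply Real.exp_le_exp.2
        have h3 : (N : ℝ) * X ≤ (nk * r1 : ℕ) * X := mul_le_mul_of_nonneg_right hN' hX0
        have h4 : ((nk * r1 : ℕ) : ℝ) * (ρ' * (r1 * r2)) * L ≤ ρ1 / 2 * L :=
          mul_le_mul_of_nonneg_right h2 hL
        have h5 : ((nk * r1 : ℕ) : ℝ) * X = (nk * r1 : ℕ) * ((4 + 2 * (nk * r1 : ℕ) + 2 * r2 +
            k * C1) * u) + ((nk * r1 : ℕ) : ℝ) * (ρ' * (r1 * r2)) * L := by
          rw [hX]
          ring
        linarith only [h1, h3, h4, h5]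

/-- the error -/
private theorem ky1_d {N k n M : ℕ} {u Z Y H : ℝ} (hu : 1 / 2 ≤ u) (hk : 4 ≤ k) (hN : N ≤ M)
    (hH : 1 ≤ H) (hHu : H ≤ Real.exp u) (hZ : Z ≤ Real.exp (Y / 4)) (hZ0 : 0 ≤ Z) (hY : 0 ≤ Y)
    (hs : (2 * (M : ℝ) + 2 * k + k * (n + 2)) * u ≤ 3 * Y) :
    (N : ℝ) * Z * (k * Real.exp (-((4 * k - 3) * Y)) * (H ^ n + 1) ^ k) * Real.exp ((k + 1) * Y) ≤
      Real.exp (-(4 * Y)) := by
  have hN' : (N : ℝ) ≤ M := by exact_mod_cast hN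
  have hkr : (4 : ℝ) ≤ k := by exact_mod_cast hk
  have e1 : (N : ℝ) ≤ Real.exp (2 * M * u) := hN'.trans (ky1_nat _ hu)
  have e2 : (k : ℝ) ≤ Real.exp (2 * k * u) := ky1_nat _ hu
  have e3 : (H ^ n + 1) ^ k ≤ Real.exp (k * ((n + 2) * u)) := by
    rw [Real.exp_nat_mul]
    refine pow_le_pow_left₀ (by positivity) ?_ _
    have h1 : H ^ n ≤ Real.exp (n * u) := by
      rw [Real.exp_nat_mul]
      exact pow_le_pow_left₀ (by linarith only [hH]) hHu _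
    have h2 : 1 ≤ Real.exp (n * u) := (one_le_pow₀ hH).trans h1
    have h3 : (2 : ℝ) ≤ Real.exp (2 * u) := by
      have h4 := Real.add_one_le_exp (2 * u)
      linarith only [h4, hu]
    calc H ^ n + 1 ≤ 2 * Real.exp (n * u) := by linarith only [h1, h2]
      _ ≤ Real.exp (2 * u) * Real.exp (n * u) := by gcongr
      _ = _ := by
          rw [← Real.exp_add]
          congr 1
          ring
  calc (N : ℝ) * Z * (k * Real.exp (-((4 * k - 3) * Y)) * (H ^ n + 1) ^ k) *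
        Real.exp ((k + 1) * Y)
      ≤ Real.exp (2 * M * u) * Real.exp (Y / 4) * (Real.exp (2 * k * u) *
        Real.exp (-((4 * k - 3) * Y)) * Real.exp (k * ((n + 2) * u))) * Real.exp ((k + 1) * Y) := by
        gcongr
    _ = Real.exp (2 * M * u + Y / 4 + (2 * k * u + -((4 * k - 3) * Y) + k * ((n + 2) * u)) +
        (k + 1) * Y) := by
        rw [← Real.exp_add, ← Real.exp_add, ← Real.exp_add, ← Real.exp_add, ← Real.exp_add]
    _ ≤ Real.exp (-(4 * Y)) := by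
        apply Real.exp_le_exp.2
        have h1 : 4 * Y ≤ k * Y := mul_le_mul_of_nonneg_right hkr hY
        linarith only [h1, hs, hY]

private theorem ky1_mono {k n : ℕ} {θ : Fin k → Fin n → ℂ} {p0 : Ix k n} {ι : Type} {w : ι → ℤ}
    {Z δ Z' δ' : ℝ} {C : Finset ι} (h : Apx θ p0 w Z δ C) (hZ : Z ≤ Z') (hδ : δ ≤ δ') :
    Apx θ p0 w Z' δ' C := by
  obtain ⟨z, h1, h2, h3⟩ := h
  exact ⟨z, h1, fun μ hμ β => (h2 μ hμ β).trans hZ, h3.trans hδ⟩

theorem key1 (ν n k : ℕ) (hν : 4 ≤ ν) (hk : 4 ≤ k) (R1 : ℝ) (hR1 : 1 ≤ R1) :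
    ∃ K0 : ℝ, 1 ≤ K0 ∧ 2 * k * R1 ≤ K0 ∧ ∀ (K2 : ℝ) (E0 : ℕ) (ρ1 : ℝ), 0 < ρ1 → ∃ ρ' : ℝ, 0 < ρ' ∧
    ∃ c : ℕ, cA ν ≤ c ∧ ∀ {θ : Fin k → Fin n → ℂ} (P : Fin k → Ptd ν) (l : Fin n)
      (_ : LabM θ P l) (H L Y : ℝ) (E : ℕ) (C B' : Finset (Fin k → ℕ × ℕ)),
      (∀ v, (P v).Thr c) → 1 ≤ H → (∀ v i, ‖θ v i‖ ≤ H) →
      (∀ v, c * Real.log H ≤ (P v).ell) → 0 < L →
      (∀ v, L ≤ (P v).ell ∧ (P v).ell ≤ R1 * L) → 1 ≤ E → E ≤ E0 →
      K0 * E * L ≤ Y → Y ≤ K2 * L → C ⊆ bxs (Df P Y) E →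
      (∀ μ ∈ bxs (Df P (4 * k * Y)) (E + ν), Dep (mv P) (ρ' * L) B' μ) →
      B'.card < n ^ k * C.card →
      Apx θ (fun _ => l) (mv P) (Real.exp (ρ1 * L)) (Real.exp (-(4 * Y))) C := by
  obtain ⟨c0, hlab⟩ := label_poly ν hν
  have hkr : (4 : ℝ) ≤ k := by exact_mod_cast hk
  have hνr : (4 : ℝ) ≤ ν := by exact_mod_cast hν
  have hR10 : 0 < R1 := by linarith only [hR1]
  have hkR : 4 ≤ k * R1 := by nlinarith only [hkr, hR1]
  refine ⟨4 * (ν + 2) * (k * R1), ?_, ?_, fun K2 E0 ρ1 hρ1 => ?_⟩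
  · nlinarith only [hkR, hνr]
  · nlinarith only [hkR, hνr]
  obtain ⟨Kc, hKc⟩ : ∃ Kc : ℕ, Kc = ⌈K2⌉₊ := ⟨_, rfl⟩
  obtain ⟨r1, hr1⟩ : ∃ r1 : ℕ, r1 = ((Kc + 1) * E0) ^ k := ⟨_, rfl⟩
  obtain ⟨r2, hr2⟩ : ∃ r2 : ℕ, r2 = ((4 * k * Kc + ν + 1) * ν) ^ k := ⟨_, rfl⟩
  obtain ⟨C1, hC1⟩ : ∃ C1 : ℝ, C1 = n + c0 * (4 * k * Kc + 1) := ⟨_, rfl⟩
  have hC10 : 0 ≤ C1 := by rw [hC1]; positivity
  obtain ⟨ρ2, hρ2⟩ : ∃ ρ2 : ℝ, ρ2 = min ρ1 (1 / 4) := ⟨_, rfl⟩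
  have hρ20 : 0 < ρ2 := by rw [hρ2]; exact lt_min hρ1 (by norm_num)
  have hρ21 : ρ2 ≤ ρ1 := by rw [hρ2]; exact min_le_left _ _
  have hρ24 : ρ2 ≤ 1 / 4 := by rw [hρ2]; exact min_le_right _ _
  obtain ⟨A, hA⟩ : ∃ A : ℝ, A = (4 + 2 * ((n ^ k * r1 : ℕ) : ℝ) + 2 * r2 + k * C1) := ⟨_, rfl⟩
  have hA0 : 0 < A := by
    rw [hA]
    positivity
  obtain ⟨A2, hA2⟩ : ∃ A2 : ℝ, A2 = 2 * ((n ^ k * r1 : ℕ) : ℝ) + 2 * k + k * (n + 2) := ⟨_, rfl⟩
  obtain ⟨c, hc⟩ : ∃ c : ℕ, c = cA ν + 1 + ⌈2 * (n ^ k * r1 : ℕ) * A * R1 / ρ2⌉₊ + ⌈A2 * R1⌉₊ +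
    ⌈2 * C1 * R1⌉₊ := ⟨_, rfl⟩
  have hcA : cA ν ≤ c := by omega
  have hc1 : 1 ≤ c := by omega
  have hcp : (0 : ℝ) < c := by exact_mod_cast hc1
  have hcZ : 2 * (n ^ k * r1 : ℕ) * A * R1 ≤ ρ2 * c := by
    have h1 : ⌈2 * (n ^ k * r1 : ℕ) * A * R1 / ρ2⌉₊ ≤ c := by omega
    have h2 : 2 * (n ^ k * r1 : ℕ) * A * R1 / ρ2 ≤ c :=
      (Nat.le_ceil _).trans (by exact_mod_cast h1)
    rw [div_le_iff₀ hρ20] at h2
    linarith only [h2]
  have hcA2 : A2 * R1 ≤ c := by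
    have h1 : ⌈A2 * R1⌉₊ ≤ c := by omega
    exact (Nat.le_ceil _).trans (by exact_mod_cast h1)
  have hcC1 : 2 * C1 * R1 ≤ c := by
    have h1 : ⌈2 * C1 * R1⌉₊ ≤ c := by omega
    exact (Nat.le_ceil _).trans (by exact_mod_cast h1)
  refine ⟨ρ2 / (2 * ((n ^ k * r1 : ℕ) + 1) * (r1 * r2 + 1)), by positivity, c, hcA, ?_⟩
  intro θ P l lm H L Y E C B' hT hH hθ hlH hL hLe hE hE0 hKY hYK hCs hdep hcard
  obtain ⟨ρ', hρ'⟩ : ∃ ρ' : ℝ, ρ' = ρ2 / (2 * ((n ^ k * r1 : ℕ) + 1) * (r1 * r2 + 1)) := ⟨_, rfl⟩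
  rw [← hρ'] at hdep
  have hρ'0 : 0 ≤ ρ' := by rw [hρ']; positivity
  have hell0 : ∀ v, 0 < (P v).ell := fun v => hL.trans_le (hLe v).1
  have v0 : Fin k := ⟨0, by omega⟩
  -- the scales
  have hE1 : (1 : ℝ) ≤ E := by exact_mod_cast hE
  have hbig : 4 * (ν + 2) * (k * R1) * L ≤ Y := by
    refine le_trans ?_ hKY
    have h1 : 4 * ((ν : ℝ) + 2) * (k * R1) * L * 1 ≤ 4 * (ν + 2) * (k * R1) * L * E :=
      mul_le_mul_of_nonneg_left hE1 (by positivity)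
    linarith only [h1]
  have hνY : (ν + 1) * (R1 * L) ≤ Y / 4 := by
    have h1 : 4 * ((ν : ℝ) + 2) * (4 * R1) * L ≤ 4 * (ν + 2) * (k * R1) * L := by gcongr
    have h2 : 0 < R1 * L := mul_pos hR10 hL
    nlinarith only [h1, h2, hbig, hνr]
  have hRL : 0 < R1 * L := mul_pos hR10 hL
  have hRLY : R1 * L ≤ Y := by nlinarith only [hνY, hRL, hνr]
  have hLRL : L ≤ R1 * L := le_mul_of_one_le_left hL.le hR1
  have hLY : L ≤ Y := hLRL.trans hRLY
  have hY0 : 0 < Y := hL.trans_le hLY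
  have hYKc : Y ≤ Kc * L := by
    refine hYK.trans (mul_le_mul_of_nonneg_right ?_ hL.le)
    rw [hKc]
    exact Nat.le_ceil _
  have hYKv : ∀ v, Y ≤ Kc * (P v).ell := fun v =>
    hYKc.trans (mul_le_mul_of_nonneg_left (hLe v).1 (Nat.cast_nonneg _))
  obtain ⟨u, hu⟩ : ∃ u : ℝ, u = R1 * L / c := ⟨_, rfl⟩
  have hcu : c * u = R1 * L := by rw [hu]; field_simp
  have hu2 : 1 / 2 ≤ u := by
    rw [hu, le_div_iff₀ hcp]
    have h1 := ((P v0).ell_ge (hT v0)).2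
    have h2 := (hLe v0).2
    have h3 := Real.log_two_gt_d9
    have h4 : (c : ℝ) * (1 / 2) ≤ c * Real.log 2 :=
      mul_le_mul_of_nonneg_left (by linarith only [h3]) hcp.le
    linarith only [h1, h2, h4]
  have hu0 : 0 < u := by linarith only [hu2]
  have hHu : H ≤ Real.exp u := by
    rw [← Real.log_le_iff_le_exp (by linarith only [hH])]
    rw [hu, le_div_iff₀ hcp]
    have h1 := (hlH v0).trans (hLe v0).2
    linarith only [h1]
  have hbu : ∀ v, ((P v).b : ℝ) ≤ Real.exp u := by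
    intro v
    have hb0 : (0 : ℝ) < (P v).b := by
      have := (P v).C.b2
      exact_mod_cast (by omega : 0 < (P v).b)
    rw [← Real.log_le_iff_le_exp hb0, hu, le_div_iff₀ hcp]
    have h1 := ((P v).ell_ge (hT v)).1.trans (hLe v).2
    linarith only [h1]
  have hC1u : C1 * u ≤ Y / 2 := by
    have h1 : 2 * C1 * R1 * L ≤ c * L := mul_le_mul_of_nonneg_right hcC1 hL.le
    rw [hu, mul_div_assoc', div_le_iff₀ hcp]
    have h2 : c * L ≤ c * Y := mul_le_mul_of_nonneg_left hLY hcp.le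
    linarith only [h1, h2]
  -- the label polynomials
  obtain ⟨K, hK⟩ : ∃ K : Fin k → ℕ, K = fun v => ⌊(4 * k - 2) * Y / (P v).ell⌋₊ := ⟨_, rfl⟩
  have hk2 : (0 : ℝ) ≤ 4 * k - 2 := by linarith only [hkr]
  have hK1 : ∀ v, (K v : ℝ) * (P v).ell ≤ (4 * k - 2) * Y := by
    intro v
    have h1 : (K v : ℝ) ≤ (4 * k - 2) * Y / (P v).ell := by
      rw [hK]
      exact Nat.floor_le (div_nonneg (mul_nonneg hk2 hY0.le) (hell0 v).le)
    rwa [le_div_iff₀ (hell0 v)] at h1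
  have hK2 : ∀ v, (4 * k - 2) * Y ≤ ((K v : ℝ) + 1) * (P v).ell := by
    intro v
    have h1 : (4 * k - 2) * Y / (P v).ell < (K v : ℝ) + 1 := by
      rw [hK]
      exact Nat.lt_floor_add_one _
    rw [div_lt_iff₀ (hell0 v)] at h1
    exact h1.le
  have hK3 : ∀ v, K v ≤ 4 * k * Kc := by
    intro v
    have h1 : (K v : ℝ) * (P v).ell ≤ ((4 * k * Kc : ℕ) : ℝ) * (P v).ell := by
      push_cast
      have h2 := hK1 v
      have h3 := mul_le_mul_of_nonneg_left (hYKv v) (by positivity : (0 : ℝ) ≤ 4 * k)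
      linarith only [h2, h3, hY0]
    exact_mod_cast le_of_mul_le_mul_right h1 (hell0 v)
  have hTA : ∀ v, (P v).Thr (cA ν) := fun v => (P v).thr_mono hcA (hT v)
  choose T t ht1 ht2 ht3 using fun v => hlab (P v) (θ v) l (lm.L v)
    (gdG_one (lm.monic v) (lm.rts v)) H hH (hθ v) (hTA v) (K v)
  have hTB : ∀ v, H ^ n * ((P v).b : ℝ) ^ (c0 * (K v + 1)) ≤ Real.exp (C1 * u) := by
    intro v
    have h1 : H ^ n ≤ Real.exp (n * u) := by
      rw [Real.exp_nat_mul]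
      exact pow_le_pow_left₀ (by linarith only [hH]) hHu _
    have h2 : ((P v).b : ℝ) ^ (c0 * (K v + 1)) ≤ Real.exp (c0 * (4 * k * Kc + 1) * u) := by
      calc ((P v).b : ℝ) ^ (c0 * (K v + 1)) ≤ Real.exp u ^ (c0 * (K v + 1)) :=
            pow_le_pow_left₀ (Nat.cast_nonneg _) (hbu v) _
        _ ≤ Real.exp u ^ (c0 * (4 * k * Kc + 1)) :=
            pow_le_pow_right₀ (Real.one_le_exp hu0.le)
              (Nat.mul_le_mul_left _ (Nat.succ_le_succ (hK3 v)))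
        _ = _ := by
            rw [← Real.exp_nat_mul]
            push_cast
            rfl
    calc H ^ n * ((P v).b : ℝ) ^ (c0 * (K v + 1))
        ≤ Real.exp (n * u) * Real.exp (c0 * (4 * k * Kc + 1) * u) := by gcongr
      _ = _ := by
          rw [← Real.exp_add, hC1]
          congr 1
          ring
  have htp : ∀ v, Real.exp ((4 * k - 2) * Y - (P v).ell) ≤ ‖t v‖ := by
    intro v
    refine le_trans ?_ (ht1 v)
    rw [ky1_exp (P v) (hell0 v), ← Real.exp_nat_mul]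
    apply Real.exp_le_exp.2
    have h1 := hK2 v
    linarith only [h1]
  have ht0 : ∀ v, t v ≠ 0 := by
    intro v h0
    have h1 := htp v
    rw [h0, norm_zero] at h1
    exact absurd h1 (not_le.2 (Real.exp_pos _))
  have hap : ∀ v (b : Fin n), ‖((tv (K v + ν) ν (T v b) (P v).x (P v).y : ℤ) : ℂ) -
      θ v l ^ (b : ℕ) * t v‖ ≤ Real.exp (-((4 * k - 3) * Y)) * ‖t v‖ := by
    intro v b
    refine (ht3 v b).trans ?_
    calc H ^ n * ((P v).b : ℝ) ^ (c0 * (K v + 1)) * |((P v).x : ℝ)| ^ ν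
        ≤ Real.exp (C1 * u) * Real.exp (ν * (P v).ell) := by
          rw [ky1_exp (P v) (hell0 v), ← Real.exp_nat_mul]
          exact mul_le_mul_of_nonneg_right (hTB v) (Real.exp_pos _).le
      _ ≤ Real.exp (-((4 * k - 3) * Y)) * Real.exp ((4 * k - 2) * Y - (P v).ell) := by
          rw [← Real.exp_add, ← Real.exp_add]
          apply Real.exp_le_exp.2
          have h1 : ((ν : ℝ) + 1) * (P v).ell ≤ (ν + 1) * (R1 * L) :=
            mul_le_mul_of_nonneg_left (hLe v).2 (by positivity)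
          linarith only [h1, hνY, hC1u, hY0]
      _ ≤ _ := mul_le_mul_of_nonneg_left (htp v) (Real.exp_pos _).le
  have hΔ1 : Real.exp (-((4 * k - 3) * Y)) ≤ 1 := by
    rw [Real.exp_le_one_iff]
    have : 0 ≤ (4 * (k : ℝ) - 3) * Y := mul_nonneg (by linarith only [hkr]) hY0.le
    linarith only [this]
  have hθH : ∀ v (b : Fin n), ‖θ v l ^ (b : ℕ)‖ ≤ H ^ n := by
    intro v b
    rw [norm_pow]
    exact (pow_le_pow_left₀ (norm_nonneg _) (hθ v l) _).trans (pow_le_pow_right₀ hH b.2.le)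
  have hdep2 : ∀ μ ∈ C, ∀ s ∈ bxs (fun v => K v + ν) ν, Dep (mv P) (ρ' * L) B' (μ + s) := by
    intro μ hμ s hs
    apply hdep
    rw [ky1_mem]
    have h1 := ky1_mem.1 (hCs hμ)
    have h2 := ky1_mem.1 hs
    intro v
    obtain ⟨h3, h4⟩ := h1 v
    obtain ⟨h5, h6⟩ := h2 v
    refine ⟨?_, ?_⟩
    · show (μ v).1 + (s v).1 ≤ Df P (4 * k * Y) v
      have h7 : (μ v).1 + (s v).1 ≤ Df P Y v + (K v + ν) := Nat.add_le_add h3 h5
      refine h7.trans ?_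
      unfold Df
      refine Nat.le_floor ?_
      rw [le_div_iff₀ (hell0 v)]
      push_cast
      have h8 : (⌊Y / (P v).ell⌋₊ : ℝ) * (P v).ell ≤ Y := by
        rw [← le_div_iff₀ (hell0 v)]
        exact Nat.floor_le (div_nonneg hY0.le (hell0 v).le)
      have h9 := hK1 v
      have h10 : (ν : ℝ) * (P v).ell ≤ ν * (R1 * L) :=
        mul_le_mul_of_nonneg_left (hLe v).2 (Nat.cast_nonneg _)
      have h11 : (ν : ℝ) * (R1 * L) ≤ Y / 4 := by linarith only [hνY, hRL]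
      linarith only [h8, h9, h10, h11, hY0]
    · show (μ v).2 + (s v).2 < E + ν
      omega
  have hTA2 := mv_le hν P hTA (Y := Y) (E := E) (fun v => by
    refine le_trans ?_ hKY
    have h1 : 2 * (E : ℝ) * k * (P v).ell ≤ 2 * E * k * (R1 * L) :=
      mul_le_mul_of_nonneg_left (hLe v).2 (by positivity)
    have h2 : 2 * (E : ℝ) * k * (R1 * L) ≤ 4 * (ν + 2) * (k * R1) * E * L := by
      have h3 : 0 ≤ k * R1 * (E * L) := by positivity
      nlinarith only [h3, hνr]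
    linarith only [h1, h2]) (fun v => (hLe v).2.trans hRLY) hY0.le
  have h := label_lemma P θ l K T t (Δ := Real.exp (-((4 * k - 3) * Y)))
    (TB := Real.exp (C1 * u)) (H := H ^ n) (r := ρ' * L) (W := Real.exp ((k + 1) * Y)) ht0
    (Real.one_le_exp (by positivity)) (fun v b s => (ht2 v b s).trans (hTB v))
    (Real.exp_pos _).le hΔ1 (one_le_pow₀ hH) hθH hap (by positivity) C B' hdep2 hcard
    (fun μ hμ => hTA2 μ (hCs hμ))
  -- sizes
  have hCr : C.card ≤ r1 := by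
    rw [hr1]
    exact (card_le_card hCs).trans (ky1_card P hE0 hell0 hYKv)
  have hbx : (bxs (fun v => K v + ν) ν).card ≤ r2 := by
    rw [hr2]
    exact ky1_cardbx hK3
  have hNC : n ^ k * C.card ≤ n ^ k * r1 := Nat.mul_le_mul_left _ hCr
  have hZ := ky1_Z (N := n ^ k * C.card) (bx := (bxs (fun v => K v + ν) ν).card) (r1 := r1)
    (r2 := r2) (nk := n ^ k) (k := k) (C1 := C1) (u := u) (ρ' := ρ') (L := L) (ρ1 := ρ2) hu2 hC10
    hNC hbx hCr hρ'0 hL.le (by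
      rw [← hA]
      have h1 : 2 * ((n ^ k * r1 : ℕ) : ℝ) * A * R1 * L ≤ ρ2 * c * L :=
        mul_le_mul_of_nonneg_right hcZ hL.le
      rw [hu, mul_div_assoc', mul_div_assoc', div_le_iff₀ hcp]
      linarith only [h1]) (by
      rw [hρ', div_mul_eq_mul_div, mul_div_assoc', div_le_div_iff₀ (by positivity) (by norm_num)]
      have h1 : ((n ^ k * r1 : ℕ) : ℝ) ≤ (n ^ k * r1 : ℕ) + 1 := by linarith only []
      have h2 : ((r1 : ℝ) * r2) ≤ r1 * r2 + 1 := by linarith only []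
      have h3 : ((n ^ k * r1 : ℕ) : ℝ) * ((r1 : ℝ) * r2) ≤ ((n ^ k * r1 : ℕ) + 1) * (r1 * r2 + 1) :=
        mul_le_mul h1 h2 (by positivity) (by positivity)
      have h4 := mul_le_mul_of_nonneg_left h3 hρ20.le
      linarith only [h4])
  obtain ⟨Z, hZd⟩ : ∃ Z : ℝ, Z = (4 * (((n ^ k * C.card : ℕ) : ℝ) *
    (((bxs (fun v => K v + ν) ν).card : ℝ) * Real.exp (C1 * u) ^ k *
      Real.exp (ρ' * L * (C.card * (bxs (fun v => K v + ν) ν).card))))) ^ (n ^ k * C.card) :=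
    ⟨_, rfl⟩
  rw [← hZd] at h hZ
  have hZ0 : 0 ≤ Z := by
    rw [hZd]
    positivity
  refine ky1_mono h (hZ.trans (Real.exp_le_exp.2 (mul_le_mul_of_nonneg_right hρ21 hL.le))) ?_
  have hZ4 : Z ≤ Real.exp (Y / 4) := by
    refine hZ.trans (Real.exp_le_exp.2 ?_)
    have h1 : ρ2 * L ≤ 1 / 4 * Y := mul_le_mul hρ24 hLY hL.le (by norm_num)
    linarith only [h1]
  have hd := ky1_d (N := n ^ k * C.card) (k := k) (n := n) (M := n ^ k * r1) (u := u) (Z := Z)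
    (Y := Y) (H := H) hu2 hk hNC hH hHu hZ4 hZ0 hY0.le (by
      rw [← hA2, hu, mul_div_assoc', div_le_iff₀ hcp]
      have h1 : A2 * R1 * L ≤ c * L := mul_le_mul_of_nonneg_right hcA2 hL.le
      have h2 : c * L ≤ c * Y := mul_le_mul_of_nonneg_left hLY hcp.le
      have h3 : 0 < c * Y := mul_pos hcp hY0
      linarith only [h1, h2, h3])
  refine le_trans (le_of_eq ?_) hd
  push_cast
  ring

end Pool.Agent.H37.LB
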