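import Pool.Agent.H37.LB.TSM

/-! # [H37 LB ZRL] Small Taylor coefficients at the rational point vanish

Copies of `zrx_int`, `zrx_size` and the end of `zeroX` (`Pool/Agent/H97/FB/ZRX.lean`), with `fl_int` and integers `w μ`: `z = M^(J/e) ce^Dn Δ^l (1/X0)^l S` is an integer, `|z| ≤ exp (Y + Q0^2 log X0 + Q0 l log X0 - 2 Y)`; with `τ = 1 / (4 (Q0 + 1))`, `Q0^2 log X0 ≤ Y / 4` (`c ≥ 4 Q0^2`), `Q0 l log X0 < Y / 4` it is `< 1`, so `z = 0`, `S = 0`. -/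

namespace Pool.Agent.H37.LB

open Finset Polynomial Pool.Agent.H72.ES Pool.Agent.H87.SA Pool.Agent.H87.SA2 Pool.Agent.H87.AX
  Pool.Agent.H8.AW Pool.Agent.H52.AC Pool.Agent.H97.NW Pool.Agent.H8.RZ Pool.Agent.H97.FB
  Pool.Agent.H97.FC

private theorem zrx_int {Dn Dl κ e M : ℕ} {X0 R : ℝ} (an : AnchX Dn Dl κ e M X0 R)
    (hX : 0 < X0) (he : 1 ≤ e) (hM : X0 ^ e = (M : ℝ)) (hR : 0 ≤ R) (hRX : R < X0)
    (J : ℕ) {ι : Type} [Fintype ι] (A : ι → ℕ → ℕ → ℤ) (l : ℕ)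
    (g : ι → ℤ) : ∃ z : ℤ, (z : ℝ) = (((M : ℤ) ^ (J / e) * an.ce ^ Dn : ℤ) : ℝ) *
      (an.Δ : ℝ) ^ l * ((1 / X0) ^ l * ∑ μ, fl an J (A μ) l * ((g μ : ℤ) : ℝ)) := by
  choose z hz using fun μ => fl_int an hX he hM hR hRX J (A μ) l
  refine ⟨∑ μ, z μ * g μ, ?_⟩
  rw [Int.cast_sum, mul_sum, mul_sum]
  refine sum_congr rfl fun μ _ => ?_
  rw [Int.cast_mul, hz μ]
  ring

private theorem zrx_size {Q0 Dn Dl κ e M : ℕ} {X0 R : ℝ} (an : AnchX Dn Dl κ e M X0 R)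
    (hb : Bnd Q0 Dn Dl κ e M X0 R) (hX : 1 < X0) {Y : ℝ} (hY : 0 ≤ Y) (l : ℕ) {S E : ℝ}
    (hS : |S| ≤ Real.exp (l * Real.log X0 + E)) :
    |(((M : ℤ) ^ (Jx X0 Y / e) * an.ce ^ Dn : ℤ) : ℝ) * (an.Δ : ℝ) ^ l * ((1 / X0) ^ l * S)| ≤
      Real.exp (Y + (Q0 : ℝ) ^ 2 * Real.log X0 + Q0 * (l * Real.log X0) + E) := by
  have hX0 : 0 < X0 := by linarith
  have hL : 0 < Real.log X0 := Real.log_pos hX
  obtain ⟨L, hLd⟩ : ∃ L : ℝ, L = Real.log X0 := ⟨_, rfl⟩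
  have hexp : ∀ k : ℕ, X0 ^ k = Real.exp (k * L) := by
    intro k
    rw [Real.exp_nat_mul, hLd, Real.exp_log hX0]
  have hM0 : (0 : ℝ) ≤ (M : ℝ) ^ (Jx X0 Y / e) := by positivity
  have hce0 : (0 : ℝ) ≤ (an.ce : ℝ) := by
    have h1 : (1 : ℝ) ≤ (an.ce : ℝ) := by exact_mod_cast an.ce_pos
    linarith
  have hΔ0 : (0 : ℝ) ≤ (an.Δ : ℝ) := by
    have h1 : (1 : ℝ) ≤ (an.Δ : ℝ) := by exact_mod_cast an.Δ_pos
    linarith
  have e1 : (M : ℝ) ^ (Jx X0 Y / e) ≤ Real.exp Y := by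
    rw [← hb.pow, ← pow_mul]
    calc X0 ^ (e * (Jx X0 Y / e)) ≤ X0 ^ (Jx X0 Y) :=
          pow_le_pow_right₀ hX.le (Nat.mul_div_le _ _)
      _ = Real.exp (Jx X0 Y * L) := hexp _
      _ ≤ Real.exp Y := by
          apply Real.exp_le_exp.mpr
          have h1 : (Jx X0 Y : ℝ) ≤ Y / Real.log X0 := by
            unfold Jx
            exact Nat.floor_le (div_nonneg hY hL.le)
          rw [hLd]
          rwa [le_div_iff₀ hL] at h1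
  have e2 : (an.ce : ℝ) ^ Dn ≤ Real.exp ((Q0 : ℝ) ^ 2 * L) := by
    calc (an.ce : ℝ) ^ Dn ≤ (X0 ^ κ) ^ Dn := pow_le_pow_left₀ hce0 an.ce_le _
      _ = X0 ^ (κ * Dn) := by rw [pow_mul]
      _ ≤ X0 ^ (Q0 ^ 2) := by
          apply pow_le_pow_right₀ hX.le
          rw [pow_two]
          exact Nat.mul_le_mul hb.κ_le (hb.DDl.trans hb.Dl_le)
      _ = Real.exp ((Q0 : ℝ) ^ 2 * L) := by
          rw [hexp]
          push_cast
          rfl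
  have e3 : (an.Δ : ℝ) ^ l ≤ Real.exp (Q0 * (l * L)) := by
    calc (an.Δ : ℝ) ^ l ≤ (X0 ^ κ) ^ l := pow_le_pow_left₀ hΔ0 an.Δ_le _
      _ = X0 ^ (κ * l) := by rw [pow_mul]
      _ ≤ X0 ^ (Q0 * l) := by
          apply pow_le_pow_right₀ hX.le
          exact Nat.mul_le_mul_right _ hb.κ_le
      _ = Real.exp (Q0 * (l * L)) := by
          rw [hexp]
          push_cast
          rw [mul_assoc]
  have e4 : (1 / X0) ^ l = Real.exp (-(l * L)) := by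
    rw [one_div, inv_pow, hexp, Real.exp_neg]
  rw [abs_mul, abs_mul, abs_mul]
  push_cast
  rw [abs_mul, abs_of_nonneg hM0, abs_of_nonneg (pow_nonneg hce0 _),
    abs_of_nonneg (pow_nonneg hΔ0 _), e4, abs_of_pos (Real.exp_pos _), ← hLd]
  rw [← hLd] at hS
  calc (M : ℝ) ^ (Jx X0 Y / e) * (an.ce : ℝ) ^ Dn * (an.Δ : ℝ) ^ l *
        (Real.exp (-(l * L)) * |S|)
      ≤ Real.exp Y * Real.exp ((Q0 : ℝ) ^ 2 * L) * Real.exp (Q0 * (l * L)) *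
        (Real.exp (-(l * L)) * Real.exp (l * L + E)) := by gcongr
    _ = Real.exp (Y + (Q0 : ℝ) ^ 2 * L + Q0 * (l * L) + E) := by
        rw [← Real.exp_add, ← Real.exp_add, ← Real.exp_add, ← Real.exp_add]
        congr 1
        ring

theorem zero_lab (Q0 : ℕ) : ∃ (τ : ℝ) (c : ℕ), 0 < τ ∧ 4 ≤ c ∧
    ∀ {Dn Dl κ e M : ℕ} {X0 R : ℝ} (an : AnchX Dn Dl κ e M X0 R), Bnd Q0 Dn Dl κ e M X0 R →
      (2 * R) ^ c ≤ X0 → ∀ Y : ℝ, c * Real.log X0 ≤ Y → ∀ {ι : Type} [Fintype ι]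
      (A : ι → ℕ → ℕ → ℤ) (w : ι → ℤ) (l : ℕ), (l : ℝ) * Real.log X0 < τ * Y →
      |∑ μ, fl an (Jx X0 Y) (A μ) l * ((w μ : ℤ) : ℝ)| ≤ Real.exp (l * Real.log X0 - 2 * Y) →
      ∑ μ, fl an (Jx X0 Y) (A μ) l * ((w μ : ℤ) : ℝ) = 0 := by
  refine ⟨1 / (4 * ((Q0 : ℝ) + 1)), 4 * Q0 ^ 2 + 4, by positivity, by omega, ?_⟩
  intro Dn Dl κ e M X0 R an hb hRX Y hY ι _ A w l hl hS
  have hR2 : 2 ≤ R := hb.R2
  have h4X : R < X0 := by
    have h3 : (2 * R) ^ 1 ≤ (2 * R) ^ (4 * Q0 ^ 2 + 4) :=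
      pow_le_pow_right₀ (by linarith) (by omega)
    have h4 := h3.trans hRX
    rw [pow_one] at h4
    linarith
  have hX1 : 1 < X0 := by linarith
  have hX0 : 0 < X0 := by linarith
  have hL0 : 0 < Real.log X0 := Real.log_pos hX1
  have hcY : (4 * (Q0 : ℝ) ^ 2 + 4) * Real.log X0 ≤ Y := by
    have h1 := hY
    push_cast at h1
    exact h1
  have hY0 : 0 < Y := lt_of_lt_of_le (by positivity) hcY
  have hLY : (Q0 : ℝ) ^ 2 * Real.log X0 ≤ Y / 4 := by nlinarith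
  obtain ⟨S, hSd⟩ : ∃ S : ℝ, S = ∑ μ, fl an (Jx X0 Y) (A μ) l * ((w μ : ℤ) : ℝ) := ⟨_, rfl⟩
  rw [← hSd] at hS ⊢
  have hSle : |S| ≤ Real.exp (l * Real.log X0 + (-(2 * Y))) := by
    refine hS.trans_eq ?_
    congr 1
  obtain ⟨z, hz⟩ := zrx_int an hX0 hb.e1 hb.pow (by linarith) h4X (Jx X0 Y) A l w
  rw [← hSd] at hz
  have hsize := zrx_size an hb hX1 hY0.le l hSle
  rw [← hz] at hsize
  have hlt : |((z : ℤ) : ℝ)| < 1 := by
    refine hsize.trans_lt ((Real.exp_lt_exp.mpr ?_).trans_eq Real.exp_zero)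
    have hlL : 0 ≤ (l : ℝ) * Real.log X0 := mul_nonneg (Nat.cast_nonneg _) hL0.le
    have hQ0 : (0 : ℝ) ≤ Q0 := Nat.cast_nonneg _
    have h4 : ((Q0 : ℝ) + 1) * (l * Real.log X0) <
        ((Q0 : ℝ) + 1) * (1 / (4 * ((Q0 : ℝ) + 1)) * Y) :=
      mul_lt_mul_of_pos_left hl (by positivity)
    have h5 : ((Q0 : ℝ) + 1) * (1 / (4 * ((Q0 : ℝ) + 1)) * Y) = Y / 4 := by
      field_simp
    rw [h5] at h4
    nlinarith
  have hlt2 : |z| < 1 := by exact_mod_cast hlt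
  have hz0 : z = 0 := Int.abs_lt_one_iff.mp hlt2
  rw [hz0, Int.cast_zero] at hz
  have hM0 : (((M : ℤ) ^ (Jx X0 Y / e) * an.ce ^ Dn : ℤ) : ℝ) ≠ 0 := by
    have h3 : (0 : ℝ) < (M : ℝ) := by
      rw [← hb.pow]
      positivity
    have h4 : (0 : ℝ) < (an.ce : ℝ) := by
      have h5 : (1 : ℝ) ≤ (an.ce : ℝ) := by exact_mod_cast an.ce_pos
      linarith
    push_cast
    positivity
  have hΔ0 : (an.Δ : ℝ) ^ l ≠ 0 := by
    have h5 : (1 : ℝ) ≤ (an.Δ : ℝ) := by exact_mod_cast an.Δ_pos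
    have h6 : (0 : ℝ) < (an.Δ : ℝ) := by linarith
    positivity
  have hXl : (1 / X0) ^ l ≠ 0 := by positivity
  have h9 := hz.symm
  rcases mul_eq_zero.1 h9 with h10 | h10
  · rcases mul_eq_zero.1 h10 with h11 | h11
    · exact absurd h11 hM0
    · exact absurd h11 hΔ0
  · rcases mul_eq_zero.1 h10 with h11 | h11
    · exact absurd h11 hXl
    · exact h11

end Pool.Agent.H37.LB
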