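import Pool.Agent.H37.LB.REL
import Pool.Agent.H37.LB.AUL
import Pool.Agent.H37.LB.ZRL
import Pool.Agent.H37.LB.CRL

/-! # [H37 LB KY2] If only few monomials are approximately independent, there is an exact relation

`τ, cz` from `zero_lab Q0`; `δ0, cc` from `core_lab Q0 r1 τ`. `δ1 = min ρ δ0 / something` so that `|A| ≤ exp (δ1 L) ≤ exp (ρ L), exp (δ0 Y)` (`L ≤ Y`). `Z = exp (ρ1 L)`, `δ = exp (-(4Y))`, `h1 = n^k Z H^(nk)`, `Hs = h1^(card ι) ≤ exp ((ρ1 r1 + small) L)` (`n^k ≤ exp (n^k)`, `c ≤ L`, `log H ≤ L / c`).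
(1) `rel_max`: `ρ0 = ρ`, `Rf`. `aux_lab` with `γ = {c // c ∈ C}`, `Rf c μ := Rf μ c`, `J = Jx X0 Y`, `KK = ⌊(k+4) Y / log X0⌋₊ + 1` (`k0 ≥ KK` implies `k0 log X0 > (k+4) Y`): `KK ≤ (k+4)(J+1) + 1 ≤ (k+5)(J+1)` (`Y / log X0 ≤ J + 1`), so `2 Dn n KK card C ≤ Dn (J+1) (2n(k+5) card C) ≤ (J+1) Dn card ι`.
`B2 = (2R)^KK`; `KK log (2R) ≤ KK log X0 / c ≤ ((k+4) Y + log X0) / c`. `|A| ≤ exp ((C1 / c + ρ1 r1 K2'..) L)`: all of `J+1, Dn, X0^e, X0^(κ Dl), 2^Dl` are `≤ exp (C Y / c)`, `Y ≤ K2 L` (as `smx_pre` in `SMX.lean`); so `≤ exp (min ρ δ0 * L)` for `ρ1` small (depends on `r1, ρ, δ0`) and `c` large.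
(2) `ck = ∑_μ ak an J (A μ) k0 i0 * w μ`. All `k0`: `‖ck‖ ≤ r1 * akbound * exp ((k+1) Y)`, `akbound = exp (small Y) (2R)^k0` (`ak_le`). For `k0 < KK`: `p0 = fun _ => l ∈ dm.Rt an.i0` (`dm.diag`): `ρ p0 * ck = ∑_μ ak * (ρ p0 w μ - ∑_(c ∈ C) Rf μ c p0 w c)` (the rest is `∑_c w c ∑_μ ak Rf μ c p0 = 0`), so
`‖ρ p0‖ ‖ck‖ ≤ r1 akbound Hs exp (-(4Y))`, and `1 ≤ ‖ρ p0‖ Hs^(n^k)` (`prod_ge`): `‖ck‖ ≤ exp (small Y - 4 Y) (2R)^k0 ≤ exp (-3 Y) (2R)^k0`. So with `U = exp ((k+1) Y + Y / 8)`, `TT = (k+4) Y`: `‖ck‖ ≤ U (2R)^k0 exp (- max (TT - k0 log X0) 0)` for all `k0` (`k0 ≥ KK`: the maximum is `0`; `k0 < KK`: the right side is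
`≥ U exp (-TT) (2R)^k0 ≥ exp (-3Y + Y/8) (2R)^k0`). (3) `fl_small`: `|S_l| ≤ 2 U exp (l log X0 - (1 - 4/c) TT) ≤ exp (l log X0 - 3 Y + Y/8 + log 2 + (4/c) TT) ≤ exp (l log X0 - 2 Y)`. `zero_lab`, `core_lab`: `∑_μ A μ s j w μ = 0` for all `s ≤ J`, `j < Dn`; take the `(s, j)` with `A μ s j ≠ 0`. -/

namespace Pool.Agent.H37.LB

open Finset Polynomial Pool.Agent.H72.ES Pool.Agent.H87.SA Pool.Agent.H87.SA2 Pool.Agent.H87.AX
  Pool.Agent.H8.AW Pool.Agent.H52.AC Pool.Agent.H97.NW Pool.Agent.H8.RZ Pool.Agent.H97.FB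
  Pool.Agent.H97.FC

private theorem ky2_pre {Q0 Dn Dl κ e M J : ℕ} {X0 R y : ℝ} (hB : Bnd Q0 Dn Dl κ e M X0 R)
    (hX1 : 1 ≤ X0) (hy1 : 1 ≤ y) (hLy : Real.log X0 ≤ y) (hJ : (J : ℝ) ≤ y) :
    ((J : ℝ) + 1) * Dn * ((X0 ^ κ) ^ Dl * 2 ^ Dl) ≤
      Real.exp (((Q0 : ℝ) ^ 2 + 2 * Q0 + 2) * y) := by
  have hL0 : 0 ≤ Real.log X0 := Real.log_nonneg hX1
  have hQ : (Dl : ℝ) ≤ Q0 := by exact_mod_cast hB.Dl_le
  have hDn : (Dn : ℝ) ≤ Q0 := by exact_mod_cast hB.DDl.trans hB.Dl_le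
  have hκ : (κ : ℝ) ≤ Q0 := by exact_mod_cast hB.κ_le
  have hQ0 : (0 : ℝ) ≤ Q0 := Nat.cast_nonneg _
  have b1 : (J : ℝ) + 1 ≤ Real.exp (2 * y) := by
    have h3 := Real.add_one_le_exp (2 * y)
    linarith
  have b2 : (Dn : ℝ) ≤ Real.exp (Q0 * y) := by
    have h1 := Real.add_one_le_exp (Q0 * y)
    have h2 : (Q0 : ℝ) ≤ Q0 * y := le_mul_of_one_le_right hQ0 hy1
    linarith
  have b3 : (X0 ^ κ) ^ Dl ≤ Real.exp ((Q0 : ℝ) ^ 2 * y) := by
    rw [← pow_mul]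
    have h1 : X0 ^ (κ * Dl) = Real.exp (((κ * Dl : ℕ) : ℝ) * Real.log X0) := by
      rw [Real.exp_nat_mul, Real.exp_log (by linarith)]
    rw [h1]
    apply Real.exp_le_exp.2
    push_cast
    have h2 : (κ : ℝ) * Dl ≤ (Q0 : ℝ) ^ 2 := by
      rw [sq]
      exact mul_le_mul hκ hQ (Nat.cast_nonneg _) hQ0
    exact mul_le_mul h2 hLy hL0 (by positivity)
  have b4 : (2 : ℝ) ^ Dl ≤ Real.exp (Q0 * y) := by
    have h1 : (2 : ℝ) ^ Dl ≤ Real.exp Dl := by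
      rw [← mul_one ((Dl : ℕ) : ℝ), Real.exp_nat_mul]
      refine pow_le_pow_left₀ (by norm_num) ?_ _
      have := Real.add_one_le_exp (1 : ℝ)
      linarith
    refine h1.trans (Real.exp_le_exp.2 ?_)
    have h2 : (Q0 : ℝ) ≤ Q0 * y := le_mul_of_one_le_right hQ0 hy1
    linarith
  calc ((J : ℝ) + 1) * Dn * ((X0 ^ κ) ^ Dl * 2 ^ Dl)
      ≤ (Real.exp (2 * y) * Real.exp (Q0 * y)) *
        (Real.exp ((Q0 : ℝ) ^ 2 * y) * Real.exp (Q0 * y)) := by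
        refine mul_le_mul (mul_le_mul b1 b2 (by positivity) (by positivity))
          (mul_le_mul b3 b4 (by positivity) (by positivity)) (by positivity) (by positivity)
    _ = Real.exp (((Q0 : ℝ) ^ 2 + 2 * Q0 + 2) * y) := by
        rw [← Real.exp_add, ← Real.exp_add, ← Real.exp_add]
        congr 1
        ring

private theorem ky2_Xe {Q0 Dn Dl κ e M : ℕ} {X0 R y : ℝ} (hB : Bnd Q0 Dn Dl κ e M X0 R)
    (hX1 : 1 ≤ X0) (hLy : Real.log X0 ≤ y) : X0 ^ e ≤ Real.exp (Q0 * y) := by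
  have h1 : X0 ^ e = Real.exp ((e : ℝ) * Real.log X0) := by
    rw [Real.exp_nat_mul, Real.exp_log (by linarith)]
  rw [h1]
  apply Real.exp_le_exp.2
  have h2 : (e : ℝ) ≤ Q0 := by exact_mod_cast hB.e_le
  exact mul_le_mul h2 hLy (Real.log_nonneg hX1) (Nat.cast_nonneg _)

private theorem ky2_Hs {n k r1 r : ℕ} {H t y : ℝ} (hH : 1 ≤ H) (hlH : Real.log H ≤ y)
    (hy : 1 ≤ y) (ht : 0 ≤ t) (hr : r ≤ r1) (hn : 1 ≤ n) :
    1 ≤ ((n : ℝ) ^ k * Real.exp t * H ^ (n * k)) ^ r ∧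
    ((n : ℝ) ^ k * Real.exp t * H ^ (n * k)) ^ r ≤
      Real.exp (r1 * (t + ((n : ℝ) ^ k + n * k) * y)) := by
  have hnk : (0 : ℝ) ≤ (n : ℝ) ^ k := by positivity
  have hn1 : (1 : ℝ) ≤ n := by exact_mod_cast hn
  have hb1 : 1 ≤ (n : ℝ) ^ k * Real.exp t * H ^ (n * k) :=
    one_le_mul_of_one_le_of_one_le
      (one_le_mul_of_one_le_of_one_le (one_le_pow₀ hn1) (Real.one_le_exp ht)) (one_le_pow₀ hH)
  refine ⟨one_le_pow₀ hb1, ?_⟩
  have h1 : (n : ℝ) ^ k ≤ Real.exp ((n : ℝ) ^ k * y) := by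
    have h2 := Real.add_one_le_exp ((n : ℝ) ^ k * y)
    have h3 : (n : ℝ) ^ k * 1 ≤ (n : ℝ) ^ k * y := mul_le_mul_of_nonneg_left hy hnk
    linarith
  have h2 : H ^ (n * k) ≤ Real.exp ((n * k) * y) := by
    have h3 : H ^ (n * k) = Real.exp (((n * k : ℕ) : ℝ) * Real.log H) := by
      rw [Real.exp_nat_mul, Real.exp_log (by linarith)]
    rw [h3]
    apply Real.exp_le_exp.2
    push_cast
    exact mul_le_mul_of_nonneg_left hlH (by positivity)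
  have h3 : (n : ℝ) ^ k * Real.exp t * H ^ (n * k) ≤
      Real.exp (t + ((n : ℝ) ^ k + n * k) * y) := by
    calc (n : ℝ) ^ k * Real.exp t * H ^ (n * k)
        ≤ Real.exp ((n : ℝ) ^ k * y) * Real.exp t * Real.exp ((n * k) * y) := by gcongr
      _ = _ := by
          rw [← Real.exp_add, ← Real.exp_add]
          congr 1
          ring
  calc ((n : ℝ) ^ k * Real.exp t * H ^ (n * k)) ^ r
      ≤ ((n : ℝ) ^ k * Real.exp t * H ^ (n * k)) ^ r1 := pow_le_pow_right₀ hb1 hr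
    _ ≤ Real.exp (t + ((n : ℝ) ^ k + n * k) * y) ^ r1 :=
        pow_le_pow_left₀ (by linarith) h3 _
    _ = _ := by rw [← Real.exp_nat_mul]

private theorem ky2_B2 {KK : ℕ} {X0 R c Y kk : ℝ} (hR : 2 ≤ R) (hc : 0 < c)
    (hRX : c * Real.log (2 * R) ≤ Real.log X0) (hKK : (KK : ℝ) * Real.log X0 ≤ kk * Y + Real.log X0)
    (hLY : Real.log X0 ≤ Y) : (2 * R) ^ KK ≤ Real.exp ((kk + 1) * (Y / c)) := by
  have h1 : (2 * R) ^ KK = Real.exp ((KK : ℝ) * Real.log (2 * R)) := by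
    rw [Real.exp_nat_mul, Real.exp_log (by linarith)]
  rw [h1]
  apply Real.exp_le_exp.2
  rw [← mul_div_assoc, le_div_iff₀ hc]
  have h2 : (KK : ℝ) * (c * Real.log (2 * R)) ≤ KK * Real.log X0 :=
    mul_le_mul_of_nonneg_left hRX (Nat.cast_nonneg _)
  nlinarith

/-- the near coefficients -/
private theorem ky2_near {ι : Type} [Fintype ι] (C : Finset ι) (a : ι → ℂ) (w : ι → ℂ) (ρ : ℂ)
    (Rf : ι → ι → ℂ) {b δ : ℝ} (hb : ∀ μ, ‖a μ‖ ≤ b) (hb0 : 0 ≤ b)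
    (hR : ∀ μ, ‖ρ * w μ - ∑ c ∈ C, Rf μ c * w c‖ ≤ δ)
    (h0 : ∀ c ∈ C, ∑ μ, a μ * Rf μ c = 0) :
    ‖ρ‖ * ‖∑ μ, a μ * w μ‖ ≤ Fintype.card ι * (b * δ) := by
  have h1 : ρ * ∑ μ, a μ * w μ = ∑ μ, a μ * (ρ * w μ - ∑ c ∈ C, Rf μ c * w c) := by
    have h2 : ∑ μ, a μ * ∑ c ∈ C, Rf μ c * w c = 0 := by
      simp only [mul_sum]
      rw [sum_comm]
      refine sum_eq_zero fun c hc => ?_
      have h3 : ∑ μ, a μ * (Rf μ c * w c) = (∑ μ, a μ * Rf μ c) * w c := by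
        rw [sum_mul]
        exact sum_congr rfl fun μ _ => by ring
      rw [h3, h0 c hc, zero_mul]
    have h3 : ∑ μ, a μ * (ρ * w μ - ∑ c ∈ C, Rf μ c * w c) =
        ∑ μ, a μ * (ρ * w μ) - ∑ μ, a μ * ∑ c ∈ C, Rf μ c * w c := by
      rw [← sum_sub_distrib]
      exact sum_congr rfl fun μ _ => by ring
    rw [h3, h2, sub_zero, mul_sum]
    exact sum_congr rfl fun μ _ => by ring
  rw [← norm_mul, h1]
  refine (norm_sum_le _ _).trans ?_
  calc ∑ μ, ‖a μ * (ρ * w μ - ∑ c ∈ C, Rf μ c * w c)‖ ≤ ∑ _μ : ι, b * δ := by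
        refine sum_le_sum fun μ _ => ?_
        rw [norm_mul]
        exact mul_le_mul (hb μ) (hR μ) (norm_nonneg _) hb0
    _ = _ := by rw [sum_const, card_univ, nsmul_eq_mul]

theorem key2 (Q0 n k r1 : ℕ) (hn : 1 ≤ n) (K2 : ℝ) (ρ : ℝ) (hρ : 0 < ρ) : ∃ ρ1 : ℝ, 0 < ρ1 ∧
    ∃ c : ℕ, ∀ {Dn Dl κ e M : ℕ} {X0 R : ℝ} (an : AnchX Dn Dl κ e M X0 R)
      {θ : Fin k → Fin n → ℂ} (_ : DiagM an θ) (g : Fin k → ℤ[X]), (∀ v, (g v).Monic) →
      (∀ v, Rts (g v) (θ v)) → TrG (vM θ) → ∀ (l : Fin n) (H L Y : ℝ),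
      Bnd Q0 Dn Dl κ e M X0 R → (2 * R) ^ c ≤ X0 → c * Real.log X0 ≤ L → (c : ℝ) ≤ L → 1 ≤ H →
      (∀ v i, ‖θ v i‖ ≤ H) → c * Real.log H ≤ L → L ≤ Y → Y ≤ K2 * L →
      ∀ {ι : Type} [Fintype ι] [DecidableEq ι], Fintype.card ι ≤ r1 → 0 < Fintype.card ι →
      ∀ (w : ι → ℤ), (∀ μ, |((w μ : ℤ) : ℝ)| ≤ Real.exp ((k + 1) * Y)) → ∀ C : Finset ι,
      ¬ Apx θ (fun _ => l) w (Real.exp (ρ1 * L)) (Real.exp (-(4 * Y))) C →
      (∀ μ ∉ C, Apx θ (fun _ => l) w (Real.exp (ρ1 * L)) (Real.exp (-(4 * Y))) (insert μ C)) →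
      2 * n * (k + 5) * C.card ≤ Fintype.card ι →
      ∃ f : ι → ℤ, f ≠ 0 ∧ (∀ μ, |((f μ : ℤ) : ℝ)| ≤ Real.exp (ρ * L)) ∧ ∑ μ, f μ * w μ = 0 := by
  obtain ⟨τ, cz, hτ, hcz4, hz⟩ := zero_lab Q0
  obtain ⟨δ0, cc, hδ0, hcc6, hcore⟩ := core_lab Q0 r1 τ hτ
  obtain ⟨δ1, hδ1d⟩ : ∃ δ1 : ℝ, δ1 = min (min ρ δ0) (1 / 16) := ⟨_, rfl⟩
  have hδ1 : 0 < δ1 := by rw [hδ1d]; exact lt_min (lt_min hρ hδ0) (by norm_num)
  have hδρ : δ1 ≤ ρ := by rw [hδ1d]; exact (min_le_left _ _).trans (min_le_left _ _)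
  have hδ0' : δ1 ≤ δ0 := by rw [hδ1d]; exact (min_le_left _ _).trans (min_le_right _ _)
  have hδ16 : δ1 ≤ 1 / 16 := by rw [hδ1d]; exact min_le_right _ _
  obtain ⟨N1, hN1⟩ : ∃ N1 : ℝ, N1 = (n : ℝ) ^ k + 1 := ⟨_, rfl⟩
  have hnk0 : (0 : ℝ) ≤ (n : ℝ) ^ k := by positivity
  have hN11 : 1 ≤ N1 := by linarith
  obtain ⟨G, hG⟩ : ∃ G : ℝ, G = (4 * k + 17) + ((Q0 : ℝ) ^ 2 + 2 * Q0 + 2) + r1 + Q0 + (k + 5) +
    r1 * ((n : ℝ) ^ k + n * k) + 2 := ⟨_, rfl⟩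
  have hkr : (0 : ℝ) ≤ k := Nat.cast_nonneg _
  have hr1r : (0 : ℝ) ≤ r1 := Nat.cast_nonneg _
  have hQr : (0 : ℝ) ≤ Q0 := Nat.cast_nonneg _
  have hnr : (0 : ℝ) ≤ n := Nat.cast_nonneg _
  have hq2 : (0 : ℝ) ≤ (Q0 : ℝ) ^ 2 := by positivity
  have hrn : 0 ≤ (r1 : ℝ) * ((n : ℝ) ^ k + n * k) := by positivity
  have hG0 : 0 < G := by rw [hG]; linarith
  obtain ⟨c, hcd⟩ : ∃ c : ℕ, c = cz + cc + ⌈16 * N1 * G⌉₊ + ⌈2 * G * K2 / δ1⌉₊ := ⟨_, rfl⟩
  have hcz : cz ≤ c := by omega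
  have hccc : cc ≤ c := by omega
  have hc4 : 4 ≤ c := by omega
  have hc1 : 16 * N1 * G ≤ c := by
    have h1 : ⌈16 * N1 * G⌉₊ ≤ c := by omega
    exact (Nat.le_ceil _).trans (by exact_mod_cast h1)
  have hc2 : 2 * G * K2 ≤ δ1 * c := by
    have h1 : ⌈2 * G * K2 / δ1⌉₊ ≤ c := by omega
    have h2 : 2 * G * K2 / δ1 ≤ c := (Nat.le_ceil _).trans (by exact_mod_cast h1)
    rw [div_le_iff₀ hδ1] at h2
    linarith
  refine ⟨δ1 / (8 * ((r1 : ℝ) + 1) * N1), by positivity, c, ?_⟩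
  intro Dn Dl κ e M X0 R an θ dm g hgm hgr htr l H L Y hB hRX hXL hcL hH hθ hHL hLY hYK ι _ _ hι hι0 w
    hw C hC1 hC2 hcount
  obtain ⟨ρ1, hρ1⟩ : ∃ ρ1 : ℝ, ρ1 = δ1 / (8 * ((r1 : ℝ) + 1) * N1) := ⟨_, rfl⟩
  rw [← hρ1] at hC1 hC2
  have hρ1p : 0 < ρ1 := by rw [hρ1]; positivity
  -- the scales
  have hR2 := hB.R2
  have h2R : (4 : ℝ) ≤ 2 * R := by linarith
  have hX1 : (1 : ℝ) ≤ X0 := (one_le_pow₀ (by linarith)).trans hRX
  have hcr : (4 : ℝ) ≤ c := by exact_mod_cast hc4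
  have hcp : (0 : ℝ) < c := by linarith
  have hL0 : 0 < L := by linarith
  have hY0 : 0 < Y := by linarith
  have hlX : 0 ≤ Real.log X0 := Real.log_nonneg hX1
  have hlR : c * Real.log (2 * R) ≤ Real.log X0 := by
    rw [← Real.log_pow]
    exact Real.log_le_log (by positivity) hRX
  have hlR1 : 1 ≤ Real.log (2 * R) := by
    rw [Real.le_log_iff_exp_le (by positivity)]
    have := Real.exp_one_lt_d9
    linarith
  have hcX : (c : ℝ) ≤ Real.log X0 := (le_mul_of_one_le_right hcp.le hlR1).trans hlR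
  have hlX0 : 0 < Real.log X0 := by linarith
  obtain ⟨y, hy⟩ : ∃ y : ℝ, y = Y / c := ⟨_, rfl⟩
  have hcy : c * y = Y := by rw [hy]; field_simp
  have hy1 : 1 ≤ y := by
    rw [hy, one_le_div hcp]
    linarith
  have hXy : Real.log X0 ≤ y := by
    rw [hy, le_div_iff₀ hcp]
    linarith
  have hHy : Real.log H ≤ y := by
    rw [hy, le_div_iff₀ hcp]
    linarith
  have hXY : Real.log X0 ≤ Y := hXy.trans (by
    rw [← hcy]
    exact le_mul_of_one_le_left (by linarith) (by linarith))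
  obtain ⟨J, hJ⟩ : ∃ J : ℕ, J = Jx X0 Y := ⟨_, rfl⟩
  have hJY : (J : ℝ) ≤ Y / Real.log X0 := by
    rw [hJ]
    exact Nat.floor_le (by positivity)
  have hJY2 : Y / Real.log X0 < (J : ℝ) + 1 := by
    rw [hJ]
    exact Nat.lt_floor_add_one _
  have hJy : (J : ℝ) ≤ y := by
    refine hJY.trans ?_
    rw [hy]
    exact div_le_div_of_nonneg_left hY0.le hcp hcX
  have hGy : 16 * N1 * (G * y) ≤ Y := by
    have h1 := mul_le_mul_of_nonneg_right hc1 (by linarith : (0 : ℝ) ≤ y)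
    rw [hcy] at h1
    linarith
  have hGyL : G * y ≤ δ1 / 2 * L := by
    have h1 : G * Y ≤ G * (K2 * L) := mul_le_mul_of_nonneg_left hYK hG0.le
    have h2 : 2 * G * K2 * L ≤ δ1 * c * L := mul_le_mul_of_nonneg_right hc2 hL0.le
    rw [hy, mul_div_assoc', div_le_iff₀ hcp]
    linarith
  have hGy0 : 0 ≤ G * y := mul_nonneg hG0.le (by linarith)
  have hGy16 : G * y ≤ Y / 16 := by
    have h1 : 1 * (G * y) ≤ N1 * (G * y) := mul_le_mul_of_nonneg_right hN11 hGy0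
    linarith
  have hρL : (r1 : ℝ) * (ρ1 * L) ≤ δ1 / 8 * L := by
    have h1 : (r1 : ℝ) * ρ1 ≤ δ1 / 8 := by
      rw [hρ1, mul_div_assoc', div_le_div_iff₀ (by positivity) (by norm_num)]
      have h2 : (r1 : ℝ) * 8 ≤ 8 * ((r1 : ℝ) + 1) * N1 := by
        have h3 := mul_le_mul_of_nonneg_left hN11 (by linarith : 0 ≤ (r1 : ℝ) + 1)
        linarith
      have h4 := mul_le_mul_of_nonneg_left h2 hδ1.le
      linarith
    have h5 := mul_le_mul_of_nonneg_right h1 hL0.le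
    linarith
  have hNρL : N1 * (r1 * (ρ1 * L)) ≤ δ1 / 8 * L := by
    have h1 : N1 * (r1 * ρ1) ≤ δ1 / 8 := by
      have h2 : N1 * ((r1 : ℝ) * ρ1) = r1 * δ1 / (8 * ((r1 : ℝ) + 1)) := by
        rw [hρ1]
        field_simp
      rw [h2, div_le_div_iff₀ (by positivity) (by norm_num)]
      linarith
    have h5 := mul_le_mul_of_nonneg_right h1 hL0.le
    linarith
  -- the number of conditions
  obtain ⟨KK, hKK⟩ : ∃ KK : ℕ, KK = ⌊((k : ℝ) + 4) * Y / Real.log X0⌋₊ + 1 := ⟨_, rfl⟩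
  have hKK1 : KK ≤ (k + 5) * (J + 1) := by
    have h1 : ⌊((k : ℝ) + 4) * Y / Real.log X0⌋₊ ≤ (k + 4) * (J + 1) := by
      refine Nat.floor_le_of_le ?_
      push_cast
      rw [mul_div_assoc]
      exact mul_le_mul_of_nonneg_left hJY2.le (by positivity)
    rw [hKK]
    have h2 : (k + 5) * (J + 1) = (k + 4) * (J + 1) + (J + 1) := by ring
    omega
  have hKK2 : (KK : ℝ) * Real.log X0 ≤ ((k : ℝ) + 4) * Y + Real.log X0 := by
    rw [hKK]
    push_cast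
    have h1 : (⌊((k : ℝ) + 4) * Y / Real.log X0⌋₊ : ℝ) ≤ ((k : ℝ) + 4) * Y / Real.log X0 :=
      Nat.floor_le (by positivity)
    rw [le_div_iff₀ hlX0] at h1
    linarith
  have hKK3 : ∀ k0 : ℕ, KK ≤ k0 → ((k : ℝ) + 4) * Y ≤ k0 * Real.log X0 := by
    intro k0 hk0
    have h1 : ((k : ℝ) + 4) * Y / Real.log X0 < k0 := by
      have h2 := Nat.lt_floor_add_one (((k : ℝ) + 4) * Y / Real.log X0)
      have h3 : ((⌊((k : ℝ) + 4) * Y / Real.log X0⌋₊ + 1 : ℕ) : ℝ) ≤ k0 := by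
        rw [← hKK]
        exact_mod_cast hk0
      push_cast at h3
      linarith
    rw [div_lt_iff₀ hlX0] at h1
    exact h1.le
  have hcount2 : 2 * (Dn * n * (KK * Fintype.card {c // c ∈ C})) ≤
      (J + 1) * Dn * Fintype.card ι := by
    rw [Fintype.card_coe]
    calc 2 * (Dn * n * (KK * C.card)) ≤ 2 * (Dn * n * (((k + 5) * (J + 1)) * C.card)) := by
          gcongr
      _ = (J + 1) * Dn * (2 * n * (k + 5) * C.card) := by ring
      _ ≤ (J + 1) * Dn * Fintype.card ι := Nat.mul_le_mul_left _ hcount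
  -- the forms
  obtain ⟨ρf, Rf, hρf, hRf, hρ0, hρb, hRb, hrel⟩ := rel_max g hgm hgr htr hH hθ
    (Real.one_le_exp (by positivity : 0 ≤ ρ1 * L)) (Real.exp_pos (-(4 * Y))).le (fun _ => l) w C
    hC1 hC2
  obtain ⟨Hs, hHsd⟩ : ∃ Hs : ℝ, Hs = ((n : ℝ) ^ k * Real.exp (ρ1 * L) * H ^ (n * k)) ^
    Fintype.card ι := ⟨_, rfl⟩
  obtain ⟨hHs1, hHs2⟩ := ky2_Hs (n := n) (k := k) hH hHy hy1
    (by positivity : 0 ≤ ρ1 * L) hι hn
  rw [← hHsd] at hρb hRb hrel hHs1 hHs2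
  have hHsE : Hs ≤ Real.exp (r1 * (ρ1 * L) + r1 * ((n : ℝ) ^ k + n * k) * y) := by
    refine hHs2.trans (le_of_eq ?_)
    congr 1
    ring
  obtain ⟨A, hA0, hAb, hAv⟩ := aux_lab an hB.D1 hB.DDl hB.e1 hX1 hB.pow (by linarith) dm g hgm hgr
    (γ := {c // c ∈ C}) (fun c μ => Rf μ c.1) (fun c μ => hRf μ c.1) hHs1
    (fun c μ p => hRb μ c.1 p) J KK le_rfl hcount2 hι0
  have hpre := ky2_pre hB hX1 hy1 hXy hJy
  have hXe := ky2_Xe hB hX1 hXy
  have hB2 := ky2_B2 (KK := KK) (kk := (k : ℝ) + 4) hR2 hcp hlR hKK2 hXY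
  rw [← hy] at hB2
  have hιr : (Fintype.card ι : ℝ) ≤ Real.exp (r1 * y) := by
    have h1 : (Fintype.card ι : ℝ) ≤ r1 := by exact_mod_cast hι
    have h2 := Real.add_one_le_exp ((r1 : ℝ) * y)
    have h3 : (r1 : ℝ) * 1 ≤ r1 * y := mul_le_mul_of_nonneg_left hy1 hr1r
    linarith
  have hDn0 : (0 : ℝ) ≤ Dn := Nat.cast_nonneg _
  have hJ0 : (0 : ℝ) ≤ J := Nat.cast_nonneg _
  have hX0p : 0 < X0 := by linarith
  have hAb2 : ∀ μ s j, |((A μ s j : ℤ) : ℝ)| ≤ Real.exp (δ1 * L) := by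
    intro μ s j
    refine (hAb μ s j).trans ?_
    have h4 : (4 : ℝ) ≤ Real.exp (2 * y) := by
      have h1 : (4 : ℝ) ≤ Real.exp 2 := by
        have h5 := Real.exp_one_gt_d9
        have h6 : Real.exp 2 = Real.exp 1 * Real.exp 1 := by
          rw [← Real.exp_add]
          norm_num
        rw [h6]
        nlinarith only [h5]
      refine h1.trans (Real.exp_le_exp.2 ?_)
      linarith
    calc 4 * ((((J + 1) * Dn * Fintype.card ι : ℕ) : ℝ) *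
          (X0 ^ e * ((X0 ^ κ) ^ Dl * 2 ^ Dl * (2 * R) ^ KK) * Hs))
        = 4 * ((((J : ℝ) + 1) * Dn * ((X0 ^ κ) ^ Dl * 2 ^ Dl)) * Fintype.card ι *
          (X0 ^ e * ((2 * R) ^ KK * Hs))) := by
          push_cast
          ring
      _ ≤ Real.exp (2 * y) * (Real.exp (((Q0 : ℝ) ^ 2 + 2 * Q0 + 2) * y) * Real.exp (r1 * y) *
          (Real.exp (Q0 * y) * (Real.exp (((k : ℝ) + 4 + 1) * y) *
            Real.exp (r1 * (ρ1 * L) + r1 * ((n : ℝ) ^ k + n * k) * y)))) := by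
          gcongr
      _ = Real.exp (2 * y + (((Q0 : ℝ) ^ 2 + 2 * Q0 + 2) * y + r1 * y +
          (Q0 * y + (((k : ℝ) + 4 + 1) * y +
            (r1 * (ρ1 * L) + r1 * ((n : ℝ) ^ k + n * k) * y))))) := by
          rw [← Real.exp_add, ← Real.exp_add, ← Real.exp_add, ← Real.exp_add, ← Real.exp_add]
      _ ≤ Real.exp (δ1 * L) := by
          apply Real.exp_le_exp.2
          have h5 : 2 * y + (((Q0 : ℝ) ^ 2 + 2 * Q0 + 2) * y + r1 * y +
              (Q0 * y + (((k : ℝ) + 4 + 1) * y +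
              (r1 * (ρ1 * L) + r1 * ((n : ℝ) ^ k + n * k) * y)))) =
              r1 * (ρ1 * L) + (G - (4 * k + 17)) * y := by
            rw [hG]
            ring
          rw [h5]
          have h6 : (G - (4 * k + 17)) * y ≤ G * y :=
            mul_le_mul_of_nonneg_right (by linarith) (by linarith)
          have h7 : 0 < δ1 * L := by positivity
          linarith
  -- the bound of the coefficients
  obtain ⟨b, hb⟩ : ∃ b : ℝ, b = Real.exp (((Q0 : ℝ) ^ 2 + 2 * Q0 + 2) * y) * Real.exp (δ1 * L) :=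
    ⟨_, rfl⟩
  have hb0 : 0 < b := by rw [hb]; positivity
  have hak : ∀ μ k0, ‖ak an J (A μ) k0 an.i0‖ ≤ b * (2 * R) ^ k0 := by
    intro μ k0
    refine (ak_le an hB.DDl hB.e1 hX1 (by linarith) J (A μ) (hAb2 μ) k0 an.i0).trans ?_
    rw [hb]
    refine mul_le_mul_of_nonneg_right ?_ (by positivity)
    exact mul_le_mul_of_nonneg_right hpre (Real.exp_pos _).le
  have hδL : δ1 * L ≤ Y / 16 := by
    have h1 : δ1 * L ≤ 1 / 16 * Y := mul_le_mul hδ16 hLY hL0.le (by norm_num)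
    linarith
  have hbE : (Fintype.card ι : ℝ) * b ≤ Real.exp (Y / 8) := by
    calc (Fintype.card ι : ℝ) * b ≤ Real.exp (r1 * y) *
          (Real.exp (((Q0 : ℝ) ^ 2 + 2 * Q0 + 2) * y) * Real.exp (δ1 * L)) := by
          rw [hb]
          gcongr
      _ = Real.exp (r1 * y + (((Q0 : ℝ) ^ 2 + 2 * Q0 + 2) * y + δ1 * L)) := by
          rw [← Real.exp_add, ← Real.exp_add]
      _ ≤ Real.exp (Y / 8) := by
          apply Real.exp_le_exp.2
          have h5 : r1 * y + ((Q0 : ℝ) ^ 2 + 2 * Q0 + 2) * y ≤ G * y := by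
            rw [← add_mul]
            refine mul_le_mul_of_nonneg_right ?_ (by linarith)
            rw [hG]
            linarith
          linarith
  have hall : ∀ k0 : ℕ, ‖∑ μ, ak an J (A μ) k0 an.i0 * ((w μ : ℤ) : ℂ)‖ ≤
      Real.exp ((k + 1) * Y + Y / 8) * (2 * R) ^ k0 := by
    intro k0
    refine (norm_sum_le _ _).trans ?_
    calc ∑ μ, ‖ak an J (A μ) k0 an.i0 * ((w μ : ℤ) : ℂ)‖
        ≤ ∑ _μ : ι, b * (2 * R) ^ k0 * Real.exp ((k + 1) * Y) := by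
          refine sum_le_sum fun μ _ => ?_
          rw [norm_mul, Complex.norm_intCast]
          exact mul_le_mul (hak μ k0) (hw μ) (abs_nonneg _) (by positivity)
      _ = (Fintype.card ι * b) * Real.exp ((k + 1) * Y) * (2 * R) ^ k0 := by
          rw [sum_const, card_univ, nsmul_eq_mul]
          ring
      _ ≤ Real.exp (Y / 8) * Real.exp ((k + 1) * Y) * (2 * R) ^ k0 := by gcongr
      _ = _ := by
          rw [← Real.exp_add]
          congr 2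
          ring
  have hsm : ∀ k0 < KK, ‖∑ μ, ak an J (A μ) k0 an.i0 * ((w μ : ℤ) : ℂ)‖ ≤
      Real.exp (-(3 * Y)) * (2 * R) ^ k0 := by
    intro k0 hk0
    have h1 := ky2_near C (fun μ => ak an J (A μ) k0 an.i0) (fun μ => ((w μ : ℤ) : ℂ))
      (ρf fun _ => l) (fun μ c => Rf μ c fun _ => l) (fun μ => hak μ k0) (by positivity) hrel
      (fun c hc => hAv k0 hk0 an.i0 (fun _ => l) (dm.diag l) ⟨c, hc⟩)
    have h2 := prod_ge g hgm hgr hρf hρ0 hHs1 hρb (fun _ => l)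
    obtain ⟨S, hS⟩ : ∃ S : ℝ, S = ‖∑ μ, ak an J (A μ) k0 an.i0 * ((w μ : ℤ) : ℂ)‖ := ⟨_, rfl⟩
    rw [← hS] at h1 ⊢
    have hS0 : 0 ≤ S := by rw [hS]; exact norm_nonneg _
    have hpos : 0 < Hs ^ (n ^ k) := pow_pos (by linarith) _
    have h3 : S ≤ Hs ^ (n ^ k) * (Fintype.card ι * (b * (2 * R) ^ k0 *
        (Hs * Real.exp (-(4 * Y))))) := by
      calc S = 1 * S := (one_mul S).symm
        _ ≤ (‖ρf fun _ => l‖ * Hs ^ (n ^ k)) * S := mul_le_mul_of_nonneg_right h2 hS0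
        _ = Hs ^ (n ^ k) * (‖ρf fun _ => l‖ * S) := by ring
        _ ≤ _ := mul_le_mul_of_nonneg_left h1 hpos.le
    refine h3.trans ?_
    have h4 : Hs ^ (n ^ k) * Hs ≤ Real.exp (Y / 8) := by
      rw [← pow_succ]
      calc Hs ^ (n ^ k + 1) ≤ Real.exp (r1 * (ρ1 * L) + r1 * ((n : ℝ) ^ k + n * k) * y) ^
            (n ^ k + 1) := pow_le_pow_left₀ (by linarith) hHsE _
        _ = Real.exp (N1 * (r1 * (ρ1 * L) + r1 * ((n : ℝ) ^ k + n * k) * y)) := by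
            rw [← Real.exp_nat_mul]
            congr 1
            rw [hN1]
            push_cast
            ring
        _ ≤ Real.exp (Y / 8) := by
            apply Real.exp_le_exp.2
            have h5 : (r1 : ℝ) * ((n : ℝ) ^ k + n * k) * y ≤ G * y := by
              refine mul_le_mul_of_nonneg_right ?_ (by linarith)
              rw [hG]
              linarith
            have h6 : N1 * ((r1 : ℝ) * ((n : ℝ) ^ k + n * k) * y) ≤ N1 * (G * y) :=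
              mul_le_mul_of_nonneg_left h5 (by linarith)
            rw [mul_add]
            linarith
    calc Hs ^ (n ^ k) * (Fintype.card ι * (b * (2 * R) ^ k0 * (Hs * Real.exp (-(4 * Y)))))
        = (Hs ^ (n ^ k) * Hs) * (Fintype.card ι * b) * Real.exp (-(4 * Y)) * (2 * R) ^ k0 := by
          ring
      _ ≤ Real.exp (Y / 8) * Real.exp (Y / 8) * Real.exp (-(4 * Y)) * (2 * R) ^ k0 := by
          gcongr
      _ ≤ Real.exp (-(3 * Y)) * (2 * R) ^ k0 := by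
          refine mul_le_mul_of_nonneg_right ?_ (by positivity)
          rw [← Real.exp_add, ← Real.exp_add]
          apply Real.exp_le_exp.2
          linarith
  have hTT : 0 ≤ ((k : ℝ) + 4) * Y := by positivity
  have hfl := fl_small an hB.DDl hB.e1 hc4 hR2 hRX J A hAb2 w
    (U := Real.exp ((k + 1) * Y + Y / 8)) (TT := ((k : ℝ) + 4) * Y) (Real.exp_pos _).le hTT
    (by
      intro k0
      rcases lt_or_ge k0 KK with h | h
      · refine (hsm k0 h).trans ?_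
        have h1 : Real.exp (-(((k : ℝ) + 4) * Y)) ≤
            Real.exp (-(max (((k : ℝ) + 4) * Y - k0 * Real.log X0) 0)) := by
          apply Real.exp_le_exp.2
          have h2 : max (((k : ℝ) + 4) * Y - k0 * Real.log X0) 0 ≤ ((k : ℝ) + 4) * Y := by
            refine max_le ?_ hTT
            have : 0 ≤ (k0 : ℝ) * Real.log X0 := by positivity
            linarith
          linarith
        calc Real.exp (-(3 * Y)) * (2 * R) ^ k0
            ≤ Real.exp ((k + 1) * Y + Y / 8) * Real.exp (-(((k : ℝ) + 4) * Y)) * (2 * R) ^ k0 := by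
              refine mul_le_mul_of_nonneg_right ?_ (by positivity)
              rw [← Real.exp_add]
              apply Real.exp_le_exp.2
              linarith
          _ = Real.exp ((k + 1) * Y + Y / 8) * (2 * R) ^ k0 * Real.exp (-(((k : ℝ) + 4) * Y)) := by
              ring
          _ ≤ _ := mul_le_mul_of_nonneg_left h1 (by positivity)
      · have h1 : max (((k : ℝ) + 4) * Y - k0 * Real.log X0) 0 = 0 := by
          apply max_eq_right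
          have := hKK3 k0 h
          linarith
        rw [h1, neg_zero, Real.exp_zero, mul_one]
        exact hall k0)
  have h2R1 : (1 : ℝ) ≤ 2 * R := by linarith
  have hzero : ∀ l : ℕ, (l : ℝ) * Real.log X0 < τ * Y →
      ∑ μ, fl an (Jx X0 Y) (A μ) l * ((w μ : ℤ) : ℝ) = 0 := by
    intro l hl
    refine hz an hB ((pow_le_pow_right₀ h2R1 hcz).trans hRX) Y ?_ A w l hl ?_
    · refine le_trans (mul_le_mul_of_nonneg_right (by exact_mod_cast hcz) hlX) (hXL.trans hLY)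
    · rw [← hJ]
      refine (hfl l).trans ?_
      have h2 : (2 : ℝ) ≤ Real.exp y := by
        have h3 := Real.add_one_le_exp y
        linarith
      calc 2 * Real.exp ((k + 1) * Y + Y / 8) *
            Real.exp (l * Real.log X0 - (1 - 4 / c) * (((k : ℝ) + 4) * Y))
          ≤ Real.exp y * Real.exp ((k + 1) * Y + Y / 8) *
            Real.exp (l * Real.log X0 - (1 - 4 / c) * (((k : ℝ) + 4) * Y)) := by gcongr
        _ = Real.exp (y + ((k + 1) * Y + Y / 8) +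
            (l * Real.log X0 - (1 - 4 / c) * (((k : ℝ) + 4) * Y))) := by
            rw [← Real.exp_add, ← Real.exp_add]
        _ ≤ Real.exp (l * Real.log X0 - 2 * Y) := by
            apply Real.exp_le_exp.2
            have h3 : (1 - 4 / (c : ℝ)) * (((k : ℝ) + 4) * Y) =
                ((k : ℝ) + 4) * Y - 4 * ((k : ℝ) + 4) * y := by
              rw [hy]
              field_simp
            rw [h3]
            have h4 : (1 + 4 * ((k : ℝ) + 4)) * y ≤ G * y := by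
              refine mul_le_mul_of_nonneg_right ?_ (by linarith)
              rw [hG]
              linarith
            linarith
  have hfin := hcore an hB ((pow_le_pow_right₀ h2R1 hccc).trans hRX) Y hY0.le
    (le_trans (mul_le_mul_of_nonneg_right (by exact_mod_cast hccc) hlX) (hXL.trans hLY)) hι A w
    (fun μ s j => (hAb2 μ s j).trans (Real.exp_le_exp.2 (mul_le_mul hδ0' hLY hL0.le hδ0.le))) hzero
  obtain ⟨μ0, s, hs, j, hj, hne⟩ := hA0
  rw [hJ] at hs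
  refine ⟨fun μ => A μ s j, fun h => hne ?_, fun μ => (hAb2 μ s j).trans (Real.exp_le_exp.2
    (mul_le_mul_of_nonneg_right hδρ hL0.le)), hfin s hs j hj⟩
  exact congrFun h μ0

end Pool.Agent.H37.LB
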