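import Pool.Agent.H37.LB.Defs
import Mathlib.Combinatorics.Nullstellensatz

/-! # [H37 LB LIN] The monomials in the roots are linearly independent

Suppose `zt θ z p = 0`. By `tr` (`TrG (vM θ)`, `vM θ p v = θ v (p v)`) for every `p'` there is `σ` with `Cj σ (θ v (p v)) (θ v (p' v))` for all `v`, so `zt θ z p' = σ (0) = 0` (write `zt θ z p` as the value of an element of `AA`; `θ` integral from `g` monic and `Rts`: `θ v i` is a root of `g v`).
So the polynomial `Q = ∑_β z β ∏_v X_v^(β v) : MvPolynomial (Fin k) ℂ` vanishes at all points of `∏_v {θ v i}`, sets of `n` elements (`Rts`: injective), and `degreeOf v Q < n`: `MvPolynomial.eq_zero_of_eval_zero_at_prod_finset`: `Q = 0`, so its coefficients `z β` (at `Finsupp.equivFunOnFinite.symm (fun v => β v)`, different for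
different `β`) are zero. (If `n = 0` and `k ≥ 1` there is no `p`; if `k = 0` there is one `β`.) -/

namespace Pool.Agent.H37.LB

open Finset Polynomial Pool.Agent.H72.ES Pool.Agent.H87.SA Pool.Agent.H87.SA2 Pool.Agent.H87.AX
  Pool.Agent.H8.AW Pool.Agent.H52.AC Pool.Agent.H97.NW Pool.Agent.H8.RZ Pool.Agent.H97.FB
  Pool.Agent.H97.FC

private theorem lin_mem {n : ℕ} {g : ℤ[X]} {θ : Fin n → ℂ} (hg : g.Monic) (hr : Rts g θ) (i : Fin n) :
    θ i ∈ AA := by
  rw [mem_algebraicClosure_iff]
  have h1 : eval₂ (Int.castRingHom ℂ) (θ i) g = 0 := by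
    rw [← eval_map, hr.1, eval_prod]
    apply Finset.prod_eq_zero (Finset.mem_univ i)
    simp
  have h2 : IsIntegral ℤ (θ i) := ⟨g, hg, by simpa using h1⟩
  have h3 : IsAlgebraic ℤ (θ i) := h2.isAlgebraic
  exact h3.extendScalars (algebraMap ℤ ℚ).injective_int

/-- the exponent vectors -/
private noncomputable def linE {k n : ℕ} (β : Ix k n) : Fin k →₀ ℕ :=
  Finsupp.equivFunOnFinite.symm (fun v => (β v : ℕ))

private theorem linE_apply {k n : ℕ} (β : Ix k n) (v : Fin k) : linE β v = (β v : ℕ) := rfl

private theorem linE_inj {k n : ℕ} : Function.Injective (linE (k := k) (n := n)) := by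
  intro β β' h
  funext v
  apply Fin.ext
  rw [← linE_apply, ← linE_apply, h]

private theorem lin_all {k n : ℕ} {θ : Fin k → Fin n → ℂ} (g : Fin k → ℤ[X]) (hg : ∀ v, (g v).Monic)
    (hr : ∀ v, Rts (g v) (θ v)) (tr : TrG (vM θ)) (z : Ix k n → ℤ) (p : Ix k n) (h0 : zt θ z p = 0)
    (p' : Ix k n) : zt θ z p' = 0 := by
  obtain ⟨σ, hσ⟩ := tr p p'
  have hmem : ∀ v i, θ v i ∈ AA := fun v i => lin_mem (hg v) (hr v) i
  have hσ' : ∀ v, σ ⟨θ v (p v), hmem v (p v)⟩ = θ v (p' v) := fun v => hσ v ⟨θ v (p v), hmem v (p v)⟩ rfl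
  set y : AA := ∑ β : Ix k n, (z β : AA) * ∏ v, (⟨θ v (p v), hmem v (p v)⟩ : AA) ^ (β v : ℕ) with hy
  have h1 : (y : ℂ) = zt θ z p := by
    rw [hy]
    unfold zt
    push_cast
    rfl
  have h2 : y = 0 := by
    apply Subtype.ext
    rw [h1, h0]
    rfl
  have h3 : σ y = zt θ z p' := by
    rw [hy, map_sum]
    unfold zt
    refine Finset.sum_congr rfl (fun β _ => ?_)
    rw [map_mul, map_prod, map_intCast]
    congr 1
    refine Finset.prod_congr rfl (fun v _ => ?_)
    rw [map_pow, hσ']
  rw [← h3, h2, map_zero]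

theorem zt_ne {k n : ℕ} {θ : Fin k → Fin n → ℂ} (g : Fin k → ℤ[X]) (hg : ∀ v, (g v).Monic)
    (hr : ∀ v, Rts (g v) (θ v)) (tr : TrG (vM θ)) (z : Ix k n → ℤ) (hz : z ≠ 0) (p : Ix k n) :
    zt θ z p ≠ 0 := by
  classical
  intro h0
  apply hz
  have hall := lin_all g hg hr tr z p h0
  set Q : MvPolynomial (Fin k) ℂ := ∑ β : Ix k n, MvPolynomial.monomial (linE β) (z β : ℂ) with hQ
  have heval : ∀ x : Fin k → ℂ, MvPolynomial.eval x Q = ∑ β : Ix k n, (z β : ℂ) * ∏ v, x v ^ (β v : ℕ) := by
    intro x
    rw [hQ, map_sum]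
    refine Finset.sum_congr rfl (fun β _ => ?_)
    rw [MvPolynomial.eval_monomial, Finsupp.prod_fintype _ _ (fun v => pow_zero _)]
    rfl
  have hcoeff : ∀ β : Ix k n, MvPolynomial.coeff (linE β) Q = (z β : ℂ) := by
    intro β
    rw [hQ, MvPolynomial.coeff_sum]
    simp only [MvPolynomial.coeff_monomial]
    rw [Finset.sum_eq_single β]
    · simp
    · intro b _ hb
      rw [if_neg]
      intro h
      exact hb (linE_inj h)
    · intro h
      exact absurd (Finset.mem_univ β) h
  have hQ0 : Q = 0 := by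
    rcases Nat.eq_zero_or_pos k with hk | hk
    · subst hk
      have h1 := hall p
      have h2 : ∀ β : Ix 0 n, β = p := fun β => Subsingleton.elim _ _
      rw [hQ]
      apply Finset.sum_eq_zero
      intro β _
      have h3 : (z β : ℂ) = 0 := by
        unfold zt at h1
        rw [Finset.sum_eq_single p (fun b _ hb => absurd (h2 b) hb)
          (fun h => absurd (Finset.mem_univ p) h)] at h1
        rw [h2 β]
        simpa using h1
      rw [h3]
      exact MvPolynomial.monomial_zero
    · apply MvPolynomial.eq_zero_of_eval_zero_at_prod_finset Q (fun v => Finset.univ.image (θ v))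
      · intro v
        have hn : 0 < n := by
          have := (p v).2
          omega
        rw [Finset.card_image_of_injective _ (hr v).2, Finset.card_univ, Fintype.card_fin]
        rw [MvPolynomial.degreeOf_lt_iff hn]
        intro m hm
        rw [hQ] at hm
        have h1 := MvPolynomial.support_sum hm
        rw [Finset.mem_biUnion] at h1
        obtain ⟨β, _, h2⟩ := h1
        have h3 := MvPolynomial.support_monomial_subset h2
        rw [Finset.mem_singleton] at h3
        rw [h3, linE_apply]
        exact (β v).2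
      · intro x hx
        have h1 : ∀ v, ∃ i, θ v i = x v := by
          intro v
          have := hx v
          rw [Finset.mem_image] at this
          obtain ⟨i, _, hi⟩ := this
          exact ⟨i, hi⟩
        choose i hi using h1
        rw [heval]
        have h2 := hall i
        unfold zt at h2
        simp only [hi] at h2
        exact h2
  funext β
  have h1 := hcoeff β
  rw [hQ0, MvPolynomial.coeff_zero] at h1
  have h2 : (z β : ℂ) = ((0 : ℤ) : ℂ) := by rw [← h1]; simp
  exact_mod_cast h2

end Pool.Agent.H37.LB
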