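import Pool.Agent.H37.LB.Defs
import Pool.Agent.H97.NW.SIE

/-! # [H37 LB LLM] The label lemma: approximate relations from a reduction

`w = mv P`, `mv P (μ + s) = mv P μ * mv P s` (`pow_add`), `bx = bxs (fun v => K v + ν) ν = piFinset (range (K v + ν + 1) ×ˢ range ν)`.
(1) For `β : Ix k n` : `∏_v tv (K v + ν) ν (T v (β v)) x_v y_v = ∑_(s ∈ bx) (∏_v T v (β v) (s v)) * mv P s` (`Finset.prod_univ_sum` with `Fintype.piFinset`). (2) Let `En = image (μ, s) ↦ μ + s` of `C ×ˢ bx` (`card ≤ card C * card bx`); from `hdep` choose for every `κ ∈ En` `a κ ≠ 0`, `c κ : _ → ℤ`, `|a κ|, |c κ ν'| ≤ exp r`,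
`a κ * w κ = ∑_(ν' ∈ B') c κ ν' * w ν'` (outside `En` put `a κ = 1`). `Den = ∏_(κ ∈ En) a κ ≠ 0`, `Den * w κ = (∏_(κ' ∈ En.erase κ) a κ') ∑ c κ ν' w ν'`. (3) UNKNOWNS `z (μ, β)`, `(μ, β) ∈ C × Ix k n` (`card = card C * n^k`); EQUATIONS for `ν' ∈ B'`:
`∑_(μ, β) z (μ,β) m (ν', (μ,β)) = 0`, `m = ∑_(s ∈ bx) (∏_v T v (β v) (s v)) (∏_(κ' ∈ En.erase (μ+s)) a κ') c (μ+s) ν'`, `|m| ≤ card bx * TB^k * exp (r * card En)`. More unknowns than equations: Siegel's lemma, e.g. `Int.Matrix.exists_ne_zero_int_vec_norm_le'` of Mathlib (exponent `m/(n-m) ≤ m < N0`) or `pigeon_gen`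
(`Pool/Agent/H97/NW/SIE.lean`, values `< 1/2`, so zero): `z ≠ 0`, `|z| ≤ Zb = (4 N0 |bx| TB^k exp (r |C| |bx|))^N0`, `N0 = n^k card C`. (If `B'` is empty take one coordinate 1.) Then `Den * ∑_(μ,β) z (μ,β) (∏_v tv ..) w μ = 0`, so `∑_(μ,β) z (μ,β) (∏_v tv (T v (β v))) w μ = 0`.
(4) DIVIDE by `∏_v t v`: `u_v = tv (..) / t v = θ v l^(β v) + ε_v`, `‖ε_v‖ ≤ Δ`, `‖θ..‖ ≤ H`: `‖∏_v u_v - ∏_v θ v l^(β v)‖ ≤ k Δ (H + 1)^k` (`Δ ≤ 1`; induction, or telescoping). So `‖∑_μ zt θ (z μ) (fun _ => l) w μ‖ = ‖∑_(μ,β) z (μ,β) (∏ θ^β - ∏ u) w μ‖ ≤ card C * n^k * Zb * (k Δ (H+1)^k) * W`. -/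

namespace Pool.Agent.H37.LB

open Finset Polynomial Pool.Agent.H72.ES Pool.Agent.H87.SA Pool.Agent.H87.SA2 Pool.Agent.H87.AX
  Pool.Agent.H8.AW Pool.Agent.H52.AC Pool.Agent.H97.NW Pool.Agent.H8.RZ Pool.Agent.H97.FB
  Pool.Agent.H97.FC

/-- a product of approximations -/
private theorem llm_prod {ι : Type} (s : Finset ι) (u v : ι → ℂ) {Δ H : ℝ} (hΔ : 0 ≤ Δ) (hΔ1 : Δ ≤ 1)
    (hH : 1 ≤ H) (hv : ∀ i ∈ s, ‖v i‖ ≤ H) (huv : ∀ i ∈ s, ‖u i - v i‖ ≤ Δ) :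
    ‖∏ i ∈ s, u i - ∏ i ∈ s, v i‖ ≤ s.card * Δ * (H + 1) ^ s.card := by
  classical
  induction s using Finset.induction_on with
  | empty => simp
  | insert i s hi ih =>
    have ih' := ih (fun j hj => hv j (mem_insert_of_mem hj)) fun j hj => huv j (mem_insert_of_mem hj)
    rw [prod_insert hi, prod_insert hi, card_insert_of_notMem hi]
    have h1 : u i * ∏ j ∈ s, u j - v i * ∏ j ∈ s, v j =
        u i * (∏ j ∈ s, u j - ∏ j ∈ s, v j) + (u i - v i) * ∏ j ∈ s, v j := by ring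
    have h2 : ‖u i‖ ≤ H + 1 := by
      have e1 : u i = v i + (u i - v i) := by ring
      rw [e1]
      refine (norm_add_le _ _).trans ?_
      have e2 := hv i (mem_insert_self i s)
      have e3 := huv i (mem_insert_self i s)
      linarith
    have h3 : ‖∏ j ∈ s, v j‖ ≤ (H + 1) ^ s.card := by
      rw [norm_prod]
      calc ∏ j ∈ s, ‖v j‖ ≤ ∏ _j ∈ s, (H + 1) := by
            refine prod_le_prod (fun _ _ => norm_nonneg _) fun j hj => ?_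
            have := hv j (mem_insert_of_mem hj)
            linarith
        _ = (H + 1) ^ s.card := by rw [prod_const]
    rw [h1]
    refine (norm_add_le _ _).trans ?_
    rw [norm_mul, norm_mul]
    have h4 : (0 : ℝ) ≤ (H + 1) ^ s.card := by positivity
    have h5 : ‖u i‖ * ‖∏ j ∈ s, u j - ∏ j ∈ s, v j‖ ≤
        (H + 1) * (s.card * Δ * (H + 1) ^ s.card) := by
      gcongr
    have h6 : ‖u i - v i‖ * ‖∏ j ∈ s, v j‖ ≤ Δ * (H + 1) ^ s.card := by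
      have := huv i (mem_insert_self i s)
      gcongr
    have h7 : Δ * (H + 1) ^ s.card ≤ (H + 1) * (Δ * (H + 1) ^ s.card) := by
      have h8 : 0 ≤ Δ * (H + 1) ^ s.card := mul_nonneg hΔ h4
      nlinarith
    push_cast
    rw [pow_succ]
    nlinarith

/-- the value of a product of polynomials -/
private theorem llm_tv {ν k : ℕ} (P : Fin k → Ptd ν) (K : Fin k → ℕ) (T : Fin k → ℕ × ℕ → ℤ)
    (μ : Fin k → ℕ × ℕ) :
    (∏ v, tv (K v + ν) ν (T v) (P v).x (P v).y) * mv P μ =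
      ∑ s ∈ bxs (fun v => K v + ν) ν, (∏ v, T v (s v)) * mv P (μ + s) := by
  have h1 : ∏ v, tv (K v + ν) ν (T v) (P v).x (P v).y =
      ∑ s ∈ bxs (fun v => K v + ν) ν, ∏ v, (T v (s v) * ((P v).x ^ (s v).1 * (P v).y ^ (s v).2)) := by
    unfold tv bxs
    rw [prod_univ_sum]
  rw [h1, sum_mul]
  refine sum_congr rfl fun s _ => ?_
  rw [prod_mul_distrib]
  have h2 : mv P (μ + s) = mv P μ * ∏ v, ((P v).x ^ (s v).1 * (P v).y ^ (s v).2) := by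
    unfold mv
    rw [← prod_mul_distrib]
    refine prod_congr rfl fun v _ => ?_
    simp only [Pi.add_apply, Prod.fst_add, Prod.snd_add]
    ring
  rw [h2]
  ring

/-- Siegel: a small solution of the reduced system -/
private theorem llm_sieg {ν k n : ℕ} (P : Fin k → Ptd ν) (K : Fin k → ℕ)
    (T : Fin k → Fin n → ℕ × ℕ → ℤ) {TB r : ℝ} (hTB : 1 ≤ TB)
    (hT : ∀ v b s, |((T v b s : ℤ) : ℝ)| ≤ TB) (hr : 0 ≤ r) (C B' : Finset (Fin k → ℕ × ℕ))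
    (hdep : ∀ μ ∈ C, ∀ s ∈ bxs (fun v => K v + ν) ν, Dep (mv P) r B' (μ + s))
    (hcard : B'.card < n ^ k * C.card) :
    ∃ z : (Fin k → ℕ × ℕ) → Ix k n → ℤ, (∃ μ ∈ C, z μ ≠ 0) ∧
      (∀ μ ∈ C, ∀ β, |((z μ β : ℤ) : ℝ)| ≤
        (4 * ((n ^ k * C.card : ℕ) * ((bxs (fun v => K v + ν) ν).card * TB ^ k *
        Real.exp (r * (C.card * (bxs (fun v => K v + ν) ν).card)))) : ℝ) ^ (n ^ k * C.card)) ∧
      ∑ μ ∈ C, ∑ β, z μ β * ((∏ v, tv (K v + ν) ν (T v (β v)) (P v).x (P v).y) * mv P μ) = 0 := by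
  classical
  obtain ⟨D, hD⟩ : ∃ D, D = bxs (fun v : Fin k => K v + ν) ν := ⟨_, rfl⟩
  rw [← hD] at hdep ⊢
  have hDne : 1 ≤ D.card := by
    rw [hD, Nat.succ_le_iff, card_pos]
    refine ⟨fun _ => (0, 0), Fintype.mem_piFinset.2 fun v => mem_product.2 ⟨?_, ?_⟩⟩
    · rw [mem_range]
      exact Nat.succ_pos _
    · rw [mem_range]
      have h1 := (P v).C.d1
      have h2 := (P v).C.dn
      show 0 < ν
      omega
  have hch : ∀ q : (Fin k → ℕ × ℕ) × (Fin k → ℕ × ℕ), ∃ (a : ℤ) (c : (Fin k → ℕ × ℕ) → ℤ),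
      q ∈ C ×ˢ D → a ≠ 0 ∧ |(a : ℝ)| ≤ Real.exp r ∧ (∀ ν' ∈ B', |((c ν' : ℤ) : ℝ)| ≤ Real.exp r) ∧
        a * mv P (q.1 + q.2) = ∑ ν' ∈ B', c ν' * mv P ν' := by
    intro q
    by_cases hq : q ∈ C ×ˢ D
    · obtain ⟨h1, h2⟩ := mem_product.1 hq
      obtain ⟨a, c, h3⟩ := hdep q.1 h1 q.2 h2
      exact ⟨a, c, fun _ => h3⟩
    · exact ⟨0, fun _ => 0, fun h => absurd h hq⟩
  choose a c hac using hch
  obtain ⟨A', hA'⟩ : ∃ A' : (Fin k → ℕ × ℕ) × (Fin k → ℕ × ℕ) → ℤ,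
      ∀ q, A' q = ∏ q' ∈ (C ×ˢ D).erase q, a q' := ⟨_, fun _ => rfl⟩
  obtain ⟨Den, hDen⟩ : ∃ Den : ℤ, Den = ∏ q ∈ C ×ˢ D, a q := ⟨_, rfl⟩
  have hDen0 : Den ≠ 0 := by
    rw [hDen]
    exact prod_ne_zero_iff.2 fun q hq => (hac q hq).1
  have hDA : ∀ q ∈ C ×ˢ D, Den = A' q * a q := fun q hq => by
    rw [hDen, hA', mul_comm, mul_prod_erase _ _ hq]
  obtain ⟨mm, hmm⟩ : ∃ mm : (Fin k → ℕ × ℕ) → (Fin k → ℕ × ℕ) → Ix k n → ℤ,
      ∀ ν' μ β, mm ν' μ β = ∑ s ∈ D, (∏ v, T v (β v) (s v)) * (A' (μ, s) * c (μ, s) ν') :=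
    ⟨_, fun _ _ _ => rfl⟩
  have hid : ∀ μ ∈ C, ∀ β : Ix k n, Den * ((∏ v, tv (K v + ν) ν (T v (β v)) (P v).x (P v).y) *
      mv P μ) = ∑ ν' ∈ B', mm ν' μ β * mv P ν' := by
    intro μ hμ β
    rw [llm_tv P K (fun v => T v (β v)) μ, ← hD, mul_sum]
    have h1 : ∀ s ∈ D, Den * ((∏ v, T v (β v) (s v)) * mv P (μ + s)) =
        ∑ ν' ∈ B', (∏ v, T v (β v) (s v)) * (A' (μ, s) * c (μ, s) ν') * mv P ν' := by
      intro s hs
      have hq : (μ, s) ∈ C ×ˢ D := mem_product.2 ⟨hμ, hs⟩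
      have h2 := (hac (μ, s) hq).2.2.2
      rw [hDA _ hq]
      calc A' (μ, s) * a (μ, s) * ((∏ v, T v (β v) (s v)) * mv P (μ + s))
          = (∏ v, T v (β v) (s v)) * A' (μ, s) * (a (μ, s) * mv P (μ + s)) := by ring
        _ = (∏ v, T v (β v) (s v)) * A' (μ, s) * ∑ ν' ∈ B', c (μ, s) ν' * mv P ν' := by rw [h2]
        _ = _ := by
            rw [mul_sum]
            refine sum_congr rfl fun ν' _ => ?_
            ring
    rw [sum_congr rfl h1, sum_comm]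
    refine sum_congr rfl fun ν' _ => ?_
    rw [hmm, sum_mul]
  -- the size of the coefficients
  have hexp1 : 1 ≤ Real.exp r := Real.one_le_exp hr
  have hTBk : (1 : ℝ) ≤ TB ^ k := one_le_pow₀ hTB
  have hbd : ∀ ν' ∈ B', ∀ μ ∈ C, ∀ β : Ix k n, |((mm ν' μ β : ℤ) : ℝ)| ≤
      D.card * TB ^ k * Real.exp (r * (C.card * D.card)) := by
    intro ν' hν μ hμ β
    rw [hmm]
    push_cast
    refine (abs_sum_le_sum_abs _ _).trans ?_
    have h1 : ∀ s ∈ D, |(∏ v, ((T v (β v) (s v) : ℤ) : ℝ)) *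
        (((A' (μ, s) : ℤ) : ℝ) * ((c (μ, s) ν' : ℤ) : ℝ))| ≤
        TB ^ k * Real.exp (r * (C.card * D.card)) := by
      intro s hs
      have hq : (μ, s) ∈ C ×ˢ D := mem_product.2 ⟨hμ, hs⟩
      rw [abs_mul, abs_mul, abs_prod]
      have h2 : ∏ v, |((T v (β v) (s v) : ℤ) : ℝ)| ≤ TB ^ k := by
        calc ∏ v, |((T v (β v) (s v) : ℤ) : ℝ)| ≤ ∏ _v : Fin k, TB :=
              prod_le_prod (fun _ _ => abs_nonneg _) fun v _ => hT v (β v) (s v)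
          _ = TB ^ k := by rw [prod_const, card_univ, Fintype.card_fin]
      have h3 : |((A' (μ, s) : ℤ) : ℝ)| ≤ Real.exp r ^ ((C ×ˢ D).card - 1) := by
        rw [hA']
        push_cast
        rw [abs_prod]
        calc ∏ q' ∈ (C ×ˢ D).erase (μ, s), |((a q' : ℤ) : ℝ)|
            ≤ ∏ _q' ∈ (C ×ˢ D).erase (μ, s), Real.exp r :=
              prod_le_prod (fun _ _ => abs_nonneg _) fun q' hq' => (hac q' (mem_of_mem_erase hq')).2.1
          _ = Real.exp r ^ ((C ×ˢ D).card - 1) := by rw [prod_const, card_erase_of_mem hq]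
      have h4 : |((c (μ, s) ν' : ℤ) : ℝ)| ≤ Real.exp r := (hac (μ, s) hq).2.2.1 ν' hν
      have h5 : |((A' (μ, s) : ℤ) : ℝ)| * |((c (μ, s) ν' : ℤ) : ℝ)| ≤
          Real.exp (r * (C.card * D.card)) := by
        calc |((A' (μ, s) : ℤ) : ℝ)| * |((c (μ, s) ν' : ℤ) : ℝ)|
            ≤ Real.exp r ^ ((C ×ˢ D).card - 1) * Real.exp r := by gcongr
          _ = Real.exp r ^ (C ×ˢ D).card := by
              rw [← pow_succ, Nat.sub_add_cancel (card_pos.2 ⟨_, hq⟩)]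
          _ = Real.exp (r * (C.card * D.card)) := by
              rw [← Real.exp_nat_mul, card_product]
              congr 1
              push_cast
              ring
      gcongr
    refine (sum_le_sum h1).trans (le_of_eq ?_)
    rw [sum_const, nsmul_eq_mul]
    ring
  -- Siegel
  obtain ⟨N0, hN0⟩ : ∃ N0 : ℕ, N0 = n ^ k * C.card := ⟨_, rfl⟩
  rw [← hN0] at hcard ⊢
  have hN01 : 1 ≤ N0 := by omega
  obtain ⟨M0, hM0⟩ : ∃ M0 : ℝ, M0 = D.card * TB ^ k * Real.exp (r * (C.card * D.card)) := ⟨_, rfl⟩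
  have hM01 : 1 ≤ M0 := by
    rw [hM0]
    refine one_le_mul_of_one_le_of_one_le (one_le_mul_of_one_le_of_one_le ?_ hTBk)
      (Real.one_le_exp (by positivity))
    exact_mod_cast hDne
  rw [← hM0] at hbd ⊢
  have hMN : (1 : ℝ) ≤ N0 * M0 := one_le_mul_of_one_le_of_one_le (by exact_mod_cast hN01) hM01
  have hcι : Fintype.card (C × Ix k n) = N0 := by
    rw [Fintype.card_prod, Fintype.card_coe, Fintype.card_fun, Fintype.card_fin, Fintype.card_fin,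
      hN0, mul_comm]
  obtain ⟨A, hA0, hAb, hAz⟩ := pigeon_gen (ι := C × Ix k n) (κ := B')
    (fun ν' i => ((mm ν'.1 i.1.1 i.2 : ℤ) : ℝ)) hMN
    (by
      intro ν'
      calc ∑ i : C × Ix k n, |((mm ν'.1 i.1.1 i.2 : ℤ) : ℝ)| ≤ ∑ _i : C × Ix k n, M0 :=
            sum_le_sum fun i _ => hbd ν'.1 ν'.2 i.1.1 i.1.2 i.2
        _ = N0 * M0 := by rw [sum_const, card_univ, hcι, nsmul_eq_mul])
    (r := N0) hN01
    (by
      rw [hcι, Fintype.card_coe]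
      have h1 : B'.card + 1 ≤ N0 := hcard
      nlinarith)
    (by rw [hcι]; omega)
  have hAz' : ∀ ν' ∈ B', ∑ i : C × Ix k n, mm ν' i.1.1 i.2 * A i = 0 := by
    intro ν' hν
    have h1 := hAz ⟨ν', hν⟩
    have h2 : |((∑ i : C × Ix k n, mm ν' i.1.1 i.2 * A i : ℤ) : ℝ)| < 1 := by
      push_cast
      linarith
    have h3 : |∑ i : C × Ix k n, mm ν' i.1.1 i.2 * A i| < 1 := by exact_mod_cast h2
    exact Int.abs_lt_one_iff.1 h3
  refine ⟨fun μ β => if h : μ ∈ C then A (⟨μ, h⟩, β) else 0, ?_, ?_, ?_⟩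
  · obtain ⟨i, hi⟩ := Function.ne_iff.1 hA0
    refine ⟨i.1.1, i.1.2, fun h => hi ?_⟩
    have h1 := congrFun h i.2
    simpa using h1
  · intro μ hμ β
    simp only [hμ, dif_pos]
    exact hAb _
  · have h1 : Den * ∑ μ ∈ C, ∑ β, (if h : μ ∈ C then A (⟨μ, h⟩, β) else 0) *
        ((∏ v, tv (K v + ν) ν (T v (β v)) (P v).x (P v).y) * mv P μ) = 0 := by
      calc Den * ∑ μ ∈ C, ∑ β, (if h : μ ∈ C then A (⟨μ, h⟩, β) else 0) *
            ((∏ v, tv (K v + ν) ν (T v (β v)) (P v).x (P v).y) * mv P μ)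
          = ∑ μ ∈ C, ∑ β, ∑ ν' ∈ B', (if h : μ ∈ C then A (⟨μ, h⟩, β) else 0) *
              (mm ν' μ β * mv P ν') := by
            rw [mul_sum]
            refine sum_congr rfl fun μ hμ => ?_
            rw [mul_sum]
            refine sum_congr rfl fun β _ => ?_
            rw [← mul_sum, ← hid μ hμ β]
            ring
        _ = ∑ μ ∈ C.attach, ∑ β, ∑ ν' ∈ B', A (μ, β) * (mm ν' μ.1 β * mv P ν') := by
            rw [← sum_attach C]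
            refine sum_congr rfl fun μ _ => sum_congr rfl fun β _ => sum_congr rfl fun ν' _ => ?_
            rw [dif_pos μ.2]
        _ = ∑ i : C × Ix k n, ∑ ν' ∈ B', A i * (mm ν' i.1.1 i.2 * mv P ν') := by
            rw [Fintype.sum_prod_type, univ_eq_attach]
        _ = ∑ ν' ∈ B', (∑ i : C × Ix k n, mm ν' i.1.1 i.2 * A i) * mv P ν' := by
            rw [sum_comm]
            refine sum_congr rfl fun ν' _ => ?_
            rw [sum_mul]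
            refine sum_congr rfl fun i _ => ?_
            ring
        _ = 0 := sum_eq_zero fun ν' hν => by rw [hAz' ν' hν, zero_mul]
    exact (mul_eq_zero.1 h1).resolve_left hDen0

theorem label_lemma {ν k n : ℕ} (P : Fin k → Ptd ν) (θ : Fin k → Fin n → ℂ) (l : Fin n)
    (K : Fin k → ℕ) (T : Fin k → Fin n → ℕ × ℕ → ℤ) (t : Fin k → ℂ) {Δ TB H r W : ℝ}
    (ht : ∀ v, t v ≠ 0) (hTB : 1 ≤ TB) (hT : ∀ v b s, |((T v b s : ℤ) : ℝ)| ≤ TB) (hΔ : 0 ≤ Δ)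
    (hΔ1 : Δ ≤ 1) (hH : 1 ≤ H) (hθ : ∀ v (b : Fin n), ‖θ v l ^ (b : ℕ)‖ ≤ H)
    (hap : ∀ v (b : Fin n), ‖((tv (K v + ν) ν (T v b) (P v).x (P v).y : ℤ) : ℂ) -
      θ v l ^ (b : ℕ) * t v‖ ≤ Δ * ‖t v‖) (hr : 0 ≤ r) (C B' : Finset (Fin k → ℕ × ℕ))
    (hdep : ∀ μ ∈ C, ∀ s ∈ bxs (fun v => K v + ν) ν, Dep (mv P) r B' (μ + s))
    (hcard : B'.card < n ^ k * C.card) (hW : ∀ μ ∈ C, |((mv P μ : ℤ) : ℝ)| ≤ W) :
    Apx θ (fun _ => l) (mv P)
      ((4 * ((n ^ k * C.card : ℕ) * ((bxs (fun v => K v + ν) ν).card * TB ^ k *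
        Real.exp (r * (C.card * (bxs (fun v => K v + ν) ν).card)))) : ℝ) ^ (n ^ k * C.card))
      (C.card * n ^ k * (4 * ((n ^ k * C.card : ℕ) * ((bxs (fun v => K v + ν) ν).card * TB ^ k *
        Real.exp (r * (C.card * (bxs (fun v => K v + ν) ν).card)))) : ℝ) ^ (n ^ k * C.card) *
        (k * Δ * (H + 1) ^ k) * W) C := by
  classical
  obtain ⟨z, hz0, hzb, hzz⟩ := llm_sieg P K T hTB hT hr C B' hdep hcard
  obtain ⟨Z, hZ⟩ : ∃ Z : ℝ, Z = (4 * ((n ^ k * C.card : ℕ) * ((bxs (fun v => K v + ν) ν).card *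
    TB ^ k * Real.exp (r * (C.card * (bxs (fun v => K v + ν) ν).card)))) : ℝ) ^ (n ^ k * C.card) :=
    ⟨_, rfl⟩
  rw [← hZ] at hzb ⊢
  refine ⟨z, hz0, hzb, ?_⟩
  have htp : (∏ v, t v) ≠ 0 := prod_ne_zero_iff.2 fun v _ => ht v
  obtain ⟨u, hu⟩ : ∃ u : Fin k → Fin n → ℂ,
      ∀ v b, u v b = ((tv (K v + ν) ν (T v b) (P v).x (P v).y : ℤ) : ℂ) / t v := ⟨_, fun _ _ => rfl⟩
  have hut : ∀ v b, ((tv (K v + ν) ν (T v b) (P v).x (P v).y : ℤ) : ℂ) = u v b * t v := fun v b => by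
    rw [hu, div_mul_cancel₀ _ (ht v)]
  have huΔ : ∀ v b, ‖u v b - θ v l ^ (b : ℕ)‖ ≤ Δ := by
    intro v b
    have h1 := hap v b
    rw [hut, ← sub_mul, norm_mul] at h1
    exact le_of_mul_le_mul_right h1 (norm_pos_iff.2 (ht v))
  have hzero : ∑ μ ∈ C, ∑ β, ((z μ β : ℤ) : ℂ) * ((∏ v, u v (β v)) * ((mv P μ : ℤ) : ℂ)) = 0 := by
    have h1 : ((∑ μ ∈ C, ∑ β, z μ β * ((∏ v, tv (K v + ν) ν (T v (β v)) (P v).x (P v).y) *
        mv P μ) : ℤ) : ℂ) = 0 := by rw [hzz]; simp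
    push_cast at h1
    have h2 : (∏ v, t v) * ∑ μ ∈ C, ∑ β, ((z μ β : ℤ) : ℂ) *
        ((∏ v, u v (β v)) * ((mv P μ : ℤ) : ℂ)) = 0 := by
      rw [← h1, mul_sum]
      refine sum_congr rfl fun μ _ => ?_
      rw [mul_sum]
      refine sum_congr rfl fun β _ => ?_
      rw [prod_congr rfl fun v _ => hut v (β v), prod_mul_distrib]
      ring
    exact (mul_eq_zero.1 h2).resolve_left htp
  have hmain : ∑ μ ∈ C, zt θ (z μ) (fun _ => l) * ((mv P μ : ℤ) : ℂ) =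
      ∑ μ ∈ C, ∑ β : Ix k n, ((z μ β : ℤ) : ℂ) *
        ((∏ v, θ v l ^ (β v : ℕ) - ∏ v, u v (β v)) * ((mv P μ : ℤ) : ℂ)) := by
    rw [← sub_zero (∑ μ ∈ C, zt θ (z μ) (fun _ => l) * ((mv P μ : ℤ) : ℂ)), ← hzero,
      ← sum_sub_distrib]
    refine sum_congr rfl fun μ _ => ?_
    unfold zt
    rw [sum_mul, ← sum_sub_distrib]
    refine sum_congr rfl fun β _ => ?_
    ring
  rw [hmain]
  obtain ⟨E, hE⟩ : ∃ E : ℝ, E = k * Δ * (H + 1) ^ k := ⟨_, rfl⟩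
  rw [← hE]
  have hE0 : 0 ≤ E := by rw [hE]; positivity
  have hterm : ∀ μ ∈ C, ∀ β : Ix k n, ‖((z μ β : ℤ) : ℂ) *
      ((∏ v, θ v l ^ (β v : ℕ) - ∏ v, u v (β v)) * ((mv P μ : ℤ) : ℂ))‖ ≤ Z * E * W := by
    intro μ hμ β
    rw [norm_mul, norm_mul, Complex.norm_intCast, Complex.norm_intCast]
    have h1 := hzb μ hμ β
    have h2 := hW μ hμ
    have h3 : ‖∏ v, θ v l ^ (β v : ℕ) - ∏ v, u v (β v)‖ ≤ E := by
      rw [norm_sub_rev]
      have := llm_prod (univ : Finset (Fin k)) (fun v => u v (β v)) (fun v => θ v l ^ (β v : ℕ)) hΔ hΔ1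
        hH (fun v _ => hθ v (β v)) fun v _ => huΔ v (β v)
      rwa [card_univ, Fintype.card_fin, ← hE] at this
    have hZ0 : 0 ≤ Z := (abs_nonneg _).trans h1
    calc |((z μ β : ℤ) : ℝ)| * (‖∏ v, θ v l ^ (β v : ℕ) - ∏ v, u v (β v)‖ * |((mv P μ : ℤ) : ℝ)|)
        ≤ Z * (E * W) := by gcongr
      _ = Z * E * W := by ring
  calc ‖∑ μ ∈ C, ∑ β : Ix k n, ((z μ β : ℤ) : ℂ) *
        ((∏ v, θ v l ^ (β v : ℕ) - ∏ v, u v (β v)) * ((mv P μ : ℤ) : ℂ))‖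
      ≤ ∑ μ ∈ C, ∑ β : Ix k n, ‖((z μ β : ℤ) : ℂ) *
        ((∏ v, θ v l ^ (β v : ℕ) - ∏ v, u v (β v)) * ((mv P μ : ℤ) : ℂ))‖ :=
        (norm_sum_le _ _).trans (sum_le_sum fun μ _ => norm_sum_le _ _)
    _ ≤ ∑ _μ ∈ C, ∑ _β : Ix k n, Z * E * W := sum_le_sum fun μ hμ => sum_le_sum fun β _ => hterm μ hμ β
    _ = C.card * n ^ k * Z * E * W := by
        rw [sum_const, sum_const, card_univ, Fintype.card_fun, Fintype.card_fin, Fintype.card_fin,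
          nsmul_eq_mul, nsmul_eq_mul]
        push_cast
        ring

end Pool.Agent.H37.LB
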