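import Pool.Agent.H37.LB.Defs
import Pool.Agent.H52.AC.PRM
import Pool.Agent.H52.AC.LIO
import Pool.Agent.H87.AX.GX

/-! # [H37 LB LPA] The coefficients of the label polynomial are integers

`int_of_fix`: the minimal polynomial of `c` over `ℚ` has only the root `c` in `ℂ` (as in `root_lt_LIO`, `Pool/Agent/H52/AC/LIO.lean`: every root is `ψ a` for some `ψ : AA →+* ℂ`, `(a : ℂ) = c`), it is separable, so it has degree 1, `c ∈ ℚ`, and `c` is integral over `ℤ`, so `c ∈ ℤ`
(`minpoly.isIntegrallyClosed_eq_field_fractions'`: the minimal polynomial over `ℤ` is `X - z`).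
`lpol_int`: (1) the coefficient `c` (of `T^k Y^j`) is an algebraic integer (`pd.integral`, `G.int` with `v1 θ i 0 = θ i`; `PI_GX`-lemmas of `Pool/Agent/H87/AX/GX.lean`). (2) GALOIS: for `σ : AA →+* ℂ` take `π` of `perm_gal P.C.pd σ` (`Pool/Agent/H52/AC/PRM.lean`). By `L.gal`
(its hypothesis is `hπ p`, in the form `Cj`) `π p ∈ L.S` and `Cj σ (θ (th p)) (θ (th (π p)))` for `p ∈ L.S`; `π` maps `L.S` injectively into itself, so onto (`Finset.map_eq_of_subset`, `Finset.image` with equal cards). Let `ι : AA →+* ℂ` be the inclusion; all series have coefficients in `AA` (`coeff_mem`; `θ` integral), so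
`lpol = g.map (PowerSeries.map ι)` for `g = ∑_(p ∈ S) C (C (a_p^b)) ∏_(p' ≠ p) (X - C (ξ_(p')))` over `AA⟦T⟧`, and `g.map (PowerSeries.map σ) = ∑_(p ∈ S) C (C (θ (th (π p))^b)) ∏_(p' ≠ p) (X - C (x_(π p'))) = lpol` (reindex both by `π`: `Finset.sum_bij`, `Finset.prod_bij`). So `σ a = c` for every `a : AA` with
`(a : ℂ) = c`. (3) `int_of_fix`. (4) ROTATION: for `ζ` a primitive `e`-th root of unity (`Complex.isPrimitiveRoot_exp`) take `ρ` of `perm_rot P.C.pd`: `rescale ζ (x_p) = x_(ρ p)`; `L.rot`: `ρ p ∈ L.S`, `th (ρ p) = th p`. So `lpol.map (rescale ζ) = lpol` (the same reindexing), the coefficients satisfy `ζ^k c = c`, so `c = 0` if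
`e ∤ k` (`IsPrimitiveRoot.pow_eq_one_iff_dvd`). Take `ψ m j` = the integer for `k = e m` (`choose`). -/

namespace Pool.Agent.H37.LB

open Finset Polynomial Pool.Agent.H72.ES Pool.Agent.H87.SA Pool.Agent.H87.SA2 Pool.Agent.H87.AX
  Pool.Agent.H8.AW Pool.Agent.H52.AC Pool.Agent.H97.NW Pool.Agent.H8.RZ Pool.Agent.H97.FB
  Pool.Agent.H97.FC

/-- an algebraic integer fixed by all embeddings is an integer -/
theorem int_of_fix {c : ℂ} (hc : IsIntegral ℤ c) (h : ∀ σ : AA →+* ℂ, Cj σ c c) :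
    ∃ z : ℤ, (z : ℂ) = c := by
  have halg : IsAlgebraic ℚ c := hc.tower_top.isAlgebraic
  have hmem : c ∈ AA := mem_algebraicClosure_iff.mpr halg
  obtain ⟨a, ha⟩ : ∃ a : AA, a = ⟨c, hmem⟩ := ⟨_, rfl⟩
  have hac : (algebraMap AA ℂ) a = c := by
    rw [ha]
    rfl
  have hcQ : IsIntegral ℚ c := hc.tower_top
  have hint' : IsIntegral ℚ a := by
    rw [← isIntegral_algebraMap_iff (algebraMap AA ℂ).injective, hac]
    exact hcQ
  have hmin : minpoly ℚ a = minpoly ℚ c := by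
    rw [← hac]
    exact (minpoly.algebraMap_eq (algebraMap AA ℂ).injective a).symm
  have hAA : Algebra.IsAlgebraic ℚ AA := algebraicClosure.isAlgebraic ℚ ℂ
  have hset := Algebra.IsAlgebraic.range_eval_eq_rootSet_minpoly (F := ℚ) (K := AA) ℂ a
  have hroot : ∀ β ∈ (minpoly ℚ c).rootSet ℂ, β = c := by
    intro β hβ
    rw [← hmin, ← hset] at hβ
    obtain ⟨ψ, hψ⟩ := hβ
    rw [← hψ]
    exact h ψ.toRingHom a hac
  have hsep : (minpoly ℚ c).Separable := (minpoly.irreducible hcQ).separable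
  have hcard : Fintype.card ((minpoly ℚ c).rootSet ℂ) = (minpoly ℚ c).natDegree :=
    Polynomial.card_rootSet_eq_natDegree hsep (IsAlgClosed.splits _)
  have hsub : Subsingleton ((minpoly ℚ c).rootSet ℂ) :=
    ⟨fun x y => Subtype.ext ((hroot x.1 x.2).trans (hroot y.1 y.2).symm)⟩
  have hle : Fintype.card ((minpoly ℚ c).rootSet ℂ) ≤ 1 := Fintype.card_le_one_iff_subsingleton.2 hsub
  have hpos := minpoly.natDegree_pos hcQ
  have h1 : (minpoly ℚ c).natDegree = 1 := by omega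
  rw [minpoly.natDegree_eq_one_iff] at h1
  obtain ⟨r, hr⟩ := h1
  have hri : IsIntegral ℤ r := by
    rw [← isIntegral_algebraMap_iff (algebraMap ℚ ℂ).injective, hr]
    exact hc
  obtain ⟨z, hz⟩ := (IsIntegrallyClosed.isIntegral_iff (R := ℤ) (K := ℚ)).1 hri
  refine ⟨z, ?_⟩
  rw [← hr, ← hz]
  simp

private theorem reidx {d : ℕ} {R : Type} [CommRing R] (π : Equiv.Perm (Fin d)) {S : Finset (Fin d)}
    (hS : ∀ p ∈ S, π p ∈ S) (A B : Fin d → R) :
    ∑ p ∈ S, A (π p) * ∏ p' ∈ univ.erase p, B (π p') =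
      ∑ p ∈ S, A p * ∏ p' ∈ univ.erase p, B p' := by
  have h1 : ∀ p, ∏ p' ∈ univ.erase p, B (π p') = ∏ q ∈ univ.erase (π p), B q := by
    intro p
    apply Finset.prod_equiv π
    · intro i
      simp [π.injective.eq_iff]
    · intros
      rfl
  have h2 : S.map π.toEmbedding = S := by
    apply Finset.eq_of_subset_of_card_le
    · intro x hx
      rw [Finset.mem_map] at hx
      obtain ⟨p, hp, rfl⟩ := hx
      exact hS p hp
    · rw [Finset.card_map]
  have h3 : ∑ p ∈ S, A p * ∏ p' ∈ univ.erase p, B p' =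
      ∑ p ∈ S.map π.toEmbedding, A p * ∏ p' ∈ univ.erase p, B p' := by rw [h2]
  rw [h3, Finset.sum_map]
  refine sum_congr rfl fun p _ => ?_
  rw [h1]
  rfl

/-- all coefficients are algebraic integers -/
private def PIQ (w : (PowerSeries ℂ)[X]) : Prop := ∀ j, PI_GX (w.coeff j)

private theorem PIQ_mul {w w' : (PowerSeries ℂ)[X]} (h : PIQ w) (h' : PIQ w') : PIQ (w * w') := by
  intro j m
  rw [Polynomial.coeff_mul, map_sum]
  exact IsIntegral.sum _ fun x _ => PI_mul_GX (h _) (h' _) m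

private theorem PIQ_one : PIQ 1 := by
  intro j m
  rw [Polynomial.coeff_one]
  split_ifs
  · exact PI_one_GX m
  · rw [map_zero]
    exact isIntegral_zero

private theorem PIQ_prod {T : Type} (s : Finset T) (w : T → (PowerSeries ℂ)[X])
    (h : ∀ t ∈ s, PIQ (w t)) : PIQ (∏ t ∈ s, w t) := by
  classical
  induction s using Finset.induction_on with
  | empty => rw [prod_empty]; exact PIQ_one
  | insert a s ha ih =>
    rw [prod_insert ha]
    exact PIQ_mul (h a (mem_insert_self a s)) (ih fun t ht => h t (mem_insert_of_mem ht))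

private theorem PIQ_sum {T : Type} (s : Finset T) (w : T → (PowerSeries ℂ)[X])
    (h : ∀ t ∈ s, PIQ (w t)) : PIQ (∑ t ∈ s, w t) := by
  intro j m
  rw [finset_sum_coeff, map_sum]
  exact IsIntegral.sum _ fun t ht => h t ht j m

private theorem PIQ_C {x : PowerSeries ℂ} (h : PI_GX x) : PIQ (C x) := by
  intro j m
  rw [Polynomial.coeff_C]
  split_ifs
  · exact h m
  · rw [map_zero]
    exact isIntegral_zero

private theorem PIQ_XC {x : PowerSeries ℂ} (h : PI_GX x) : PIQ (X - C x) := by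
  intro j m
  rw [Polynomial.coeff_sub, map_sub]
  refine IsIntegral.sub ?_ (PIQ_C h j m)
  rw [Polynomial.coeff_X]
  split_ifs
  · exact PI_one_GX m
  · rw [map_zero]
    exact isIntegral_zero

private theorem PI_CC {c : ℂ} (h : IsIntegral ℤ c) : PI_GX (PowerSeries.C c) := by
  intro m
  rw [PowerSeries.coeff_C]
  split_ifs
  · exact h
  · exact isIntegral_zero

/-- corresponding polynomials -/
private def PGQ (σ : AA →+* ℂ) (w w' : (PowerSeries ℂ)[X]) : Prop :=
  ∀ j, PG_GX σ (w.coeff j) (w'.coeff j)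

private theorem PGQ_mul {σ : AA →+* ℂ} {w w' v v' : (PowerSeries ℂ)[X]} (h : PGQ σ w w')
    (h' : PGQ σ v v') : PGQ σ (w * v) (w' * v') := by
  intro j m
  rw [Polynomial.coeff_mul, Polynomial.coeff_mul, map_sum, map_sum]
  exact G_sum_GX _ _ _ fun x _ => PG_mul_GX (h _) (h' _) m

private theorem PGQ_one (σ : AA →+* ℂ) : PGQ σ 1 1 := by
  intro j m
  rw [Polynomial.coeff_one]
  split_ifs
  · exact PG_one_GX σ m
  · rw [map_zero]
    exact G_zero_GX σ

private theorem PGQ_prod {σ : AA →+* ℂ} {T : Type} (s : Finset T)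
    (w w' : T → (PowerSeries ℂ)[X]) (h : ∀ t ∈ s, PGQ σ (w t) (w' t)) :
    PGQ σ (∏ t ∈ s, w t) (∏ t ∈ s, w' t) := by
  classical
  induction s using Finset.induction_on with
  | empty => rw [prod_empty, prod_empty]; exact PGQ_one σ
  | insert a s ha ih =>
    rw [prod_insert ha, prod_insert ha]
    exact PGQ_mul (h a (mem_insert_self a s)) (ih fun t ht => h t (mem_insert_of_mem ht))

private theorem PGQ_sum {σ : AA →+* ℂ} {T : Type} (s : Finset T)
    (w w' : T → (PowerSeries ℂ)[X]) (h : ∀ t ∈ s, PGQ σ (w t) (w' t)) :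
    PGQ σ (∑ t ∈ s, w t) (∑ t ∈ s, w' t) := by
  intro j m
  rw [finset_sum_coeff, finset_sum_coeff, map_sum, map_sum]
  exact G_sum_GX _ _ _ fun t ht => h t ht j m

private theorem PGQ_C {σ : AA →+* ℂ} {x x' : PowerSeries ℂ} (h : PG_GX σ x x') :
    PGQ σ (C x) (C x') := by
  intro j m
  rw [Polynomial.coeff_C, Polynomial.coeff_C]
  split_ifs
  · exact h m
  · rw [map_zero]
    exact G_zero_GX σ

private theorem G_sub {σ : AA →+* ℂ} {z z' w w' : ℂ} (h : G_GX σ z z') (h' : G_GX σ w w') :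
    G_GX σ (z - w) (z' - w') := by
  obtain ⟨a, rfl, rfl⟩ := h
  obtain ⟨b, rfl, rfl⟩ := h'
  exact ⟨a - b, rfl, map_sub _ _ _⟩

private theorem PGQ_XC {σ : AA →+* ℂ} {x x' : PowerSeries ℂ} (h : PG_GX σ x x') :
    PGQ σ (X - C x) (X - C x') := by
  intro j m
  rw [Polynomial.coeff_sub, Polynomial.coeff_sub, map_sub, map_sub]
  refine G_sub ?_ (PGQ_C h j m)
  rw [Polynomial.coeff_X]
  split_ifs
  · exact PG_one_GX σ m
  · rw [map_zero]
    exact G_zero_GX σ

private theorem PG_CC {σ : AA →+* ℂ} {c c' : ℂ} (h : G_GX σ c c') :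
    PG_GX σ (PowerSeries.C c) (PowerSeries.C c') := by
  intro m
  rw [PowerSeries.coeff_C, PowerSeries.coeff_C]
  split_ifs
  · exact h
  · exact G_zero_GX σ

theorem lpol_int {ν n : ℕ} (P : Ptd ν) (θ : Fin n → ℂ) {l : Fin n} (L : LbG P (v1 θ) l)
    (G : GdG (v1 θ)) (b : ℕ) : ∃ ψ : ℕ → ℕ → ℤ, ∀ k j,
      PowerSeries.coeff k ((lpol P θ L b).coeff j) =
        if P.C.pd.e ∣ k then ((ψ (k / P.C.pd.e) j : ℤ) : ℂ) else 0 := by
  have hθ : ∀ i, IsIntegral ℤ (θ i) := fun i => G.int i 0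
  have hmem : ∀ z : ℂ, IsIntegral ℤ z → z ∈ AA := fun z hz =>
    mem_algebraicClosure_iff.mpr hz.tower_top.isAlgebraic
  have hGG : ∀ (σ : AA →+* ℂ) (z w : ℂ), IsIntegral ℤ z → Cj σ z w → G_GX σ z w :=
    fun σ z w hz h => ⟨⟨z, hmem z hz⟩, rfl, h _ rfl⟩
  -- integrality
  have hI : PIQ (lpol P θ L b) := by
    unfold lpol
    refine PIQ_sum _ _ fun p _ => PIQ_mul (PIQ_C (PI_CC ((hθ _).pow _)))
      (PIQ_prod _ _ fun p' _ => PIQ_XC (P.C.pd.integral p'))
  -- Galois
  have hσ : ∀ σ : AA →+* ℂ, PGQ σ (lpol P θ L b) (lpol P θ L b) := by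
    intro σ
    obtain ⟨π, hπ⟩ := perm_gal P.C.pd σ
    have hL : ∀ p ∈ L.S, π p ∈ L.S ∧ ∀ u, Cj σ (v1 θ (L.th p) u) (v1 θ (L.th (π p)) u) :=
      fun p hp => L.gal σ p hp (π p) fun k => hπ p k
    have h1 : PGQ σ (∑ p ∈ L.S, C (PowerSeries.C (θ (L.th p) ^ b)) *
        ∏ p' ∈ univ.erase p, (X - C (P.C.pd.x p')))
        (∑ p ∈ L.S, C (PowerSeries.C (θ (L.th (π p)) ^ b)) *
          ∏ p' ∈ univ.erase p, (X - C (P.C.pd.x (π p')))) := by
      refine PGQ_sum _ _ _ fun p hp => PGQ_mul (PGQ_C (PG_CC (G_pow_GX ?_ _)))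
        (PGQ_prod _ _ _ fun p' _ => PGQ_XC ?_)
      · exact hGG σ _ _ (hθ _) ((hL p hp).2 0)
      · intro m
        exact hGG σ _ _ (P.C.pd.integral p' m) (hπ p' m)
    rw [reidx π (fun p hp => (hL p hp).1) (fun p => C (PowerSeries.C (θ (L.th p) ^ b)))
      (fun p' => (X - C (P.C.pd.x p')))] at h1
    exact h1
  have hz : ∀ k j, ∃ z : ℤ, (z : ℂ) = PowerSeries.coeff k ((lpol P θ L b).coeff j) := by
    intro k j
    refine int_of_fix (hI j k) fun σ => ?_
    obtain ⟨c, hc1, hc2⟩ := hσ σ j k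
    intro a ha
    have h1 : a = c := Subtype.ext (ha.trans hc1.symm)
    rw [h1, hc2]
  choose z hz using hz
  refine ⟨fun m j => z (P.C.pd.e * m) j, fun k j => ?_⟩
  split_ifs with hk
  · simp only [Nat.mul_div_cancel' hk]
    exact (hz k j).symm
  · -- rotation
    have he0 : P.C.pd.e ≠ 0 := Nat.one_le_iff_ne_zero.1 P.C.pd.e_pos
    have hprim := Complex.isPrimitiveRoot_exp P.C.pd.e he0
    obtain ⟨ζ, hζ⟩ : ∃ ζ : ℂ, ζ = Complex.exp (2 * Real.pi * Complex.I / P.C.pd.e) := ⟨_, rfl⟩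
    rw [← hζ] at hprim
    obtain ⟨ρ, hρ⟩ := perm_rot P.C.pd hprim.pow_eq_one
    have hL : ∀ p ∈ L.S, ρ p ∈ L.S ∧ L.th (ρ p) = L.th p := fun p hp =>
      L.rot ζ hprim.pow_eq_one p hp (ρ p) (hρ p)
    have h1 : (lpol P θ L b).map (PowerSeries.rescale ζ) = lpol P θ L b := by
      unfold lpol
      rw [Polynomial.map_sum]
      have h2 := reidx ρ (fun p hp => (hL p hp).1) (fun p => C (PowerSeries.C (θ (L.th p) ^ b)))
        (fun p' => ((X : (PowerSeries ℂ)[X]) - C (P.C.pd.x p')))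
      rw [← h2]
      refine sum_congr rfl fun p hp => ?_
      rw [Polynomial.map_mul, Polynomial.map_C, Polynomial.map_prod, (hL p hp).2]
      congr 1
      · congr 1
        ext m
        rw [PowerSeries.coeff_rescale, PowerSeries.coeff_C]
        split_ifs with hm
        · rw [hm, pow_zero, one_mul]
        · rw [mul_zero]
      · refine prod_congr rfl fun p' _ => ?_
        rw [Polynomial.map_sub, Polynomial.map_X, Polynomial.map_C, hρ]
    have h3 := congrArg (fun w => PowerSeries.coeff k (w.coeff j)) h1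
    simp only [Polynomial.coeff_map, PowerSeries.coeff_rescale] at h3
    have h4 : ζ ^ k ≠ 1 := fun h5 => hk ((hprim.pow_eq_one_iff_dvd k).1 h5)
    have h5 : (ζ ^ k - 1) * PowerSeries.coeff k ((lpol P θ L b).coeff j) = 0 := by
      rw [sub_mul, one_mul, h3, sub_self]
    rcases mul_eq_zero.1 h5 with h6 | h6
    · exact absurd (sub_eq_zero.1 h6) h4
    · exact h6

end Pool.Agent.H37.LB
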