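import Pool.Agent.H37.LB.EQF
import Pool.Agent.H37.LB.LIN

/-! # [H37 LB REL] A maximal set without approximate relation, and the forms

`max_set`: the empty set has no approximate relation (`∃ μ ∈ ∅`); take `C` of maximal cardinality (`Finset.exists_max_image` over the powerset filtered by `¬ Apx`); for `μ ∉ C` the set `insert μ C` is larger, so `Apx`.
`rel_max`: for `μ ∉ C` let `zz μ : ι → Ix k n → ℤ` be the coefficients for `insert μ C`; `zz μ μ ≠ 0` (otherwise restricting to `C` gives `Apx C`: the term `μ` of the sum is `zt θ 0 p0 * w μ = 0`). `D = univ \\ C`. `ρ p = ∏_(μ ∈ D) zt θ (zz μ μ) p`;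
`R μ c p = if μ ∈ C then (if μ = c then ρ p else 0) else - zt θ (zz μ c) p * ∏_(μ' ∈ D.erase μ) zt θ (zz μ' μ') p`. `EqF` by `eqF_zt, eqF_mul, eqF_prod, eqF_int`; `ρ p ≠ 0` by `zt_ne`. `‖zt θ z p‖ ≤ n^k Z H^(n k) =: h1` (`‖θ‖ ≤ H`, `β v < n`, `1 ≤ H`, `1 ≤ Z`); so `‖ρ p‖, ‖R μ c p‖ ≤ h1^(card ι)` (`1 ≤ h1`; `n ≥ 1` if there is a `p`).
Last: for `μ ∈ C` the difference is `0`; for `μ ∉ C` it is `(∏_(D.erase μ) ..) * (zt (zz μ μ) w μ + ∑_(c ∈ C) zt (zz μ c) w c)`, and the bracket is the sum of `Apx (insert μ C)` (`Finset.sum_insert`), of norm `≤ δ`. -/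

namespace Pool.Agent.H37.LB

open Finset Polynomial Pool.Agent.H72.ES Pool.Agent.H87.SA Pool.Agent.H87.SA2 Pool.Agent.H87.AX
  Pool.Agent.H8.AW Pool.Agent.H52.AC Pool.Agent.H97.NW Pool.Agent.H8.RZ Pool.Agent.H97.FB
  Pool.Agent.H97.FC

private theorem rel_zero {k n : ℕ} (θ : Fin k → Fin n → ℂ) (z : Ix k n → ℤ) (hz : z = 0)
    (p : Ix k n) : zt θ z p = 0 := by
  subst hz
  unfold zt
  refine Finset.sum_eq_zero fun β _ => ?_
  simp

private theorem rel_bd {k n : ℕ} {θ : Fin k → Fin n → ℂ} {H Z : ℝ} (hH : 1 ≤ H)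
    (hθ : ∀ v i, ‖θ v i‖ ≤ H) (hZ : 1 ≤ Z) (z : Ix k n → ℤ) (hz : ∀ β, |((z β : ℤ) : ℝ)| ≤ Z)
    (p : Ix k n) : ‖zt θ z p‖ ≤ n ^ k * Z * H ^ (n * k) := by
  unfold zt
  have hone : ∀ β : Ix k n, ‖(z β : ℂ) * ∏ v, θ v (p v) ^ (β v : ℕ)‖ ≤ Z * H ^ (n * k) := by
    intro β
    rw [norm_mul, norm_prod]
    have h1 : ‖(z β : ℂ)‖ ≤ Z := by
      rw [Complex.norm_intCast]
      exact hz β
    have h2 : ∏ v, ‖θ v (p v) ^ (β v : ℕ)‖ ≤ H ^ (n * k) := by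
      have h3 : ∏ v, ‖θ v (p v) ^ (β v : ℕ)‖ ≤ ∏ _v : Fin k, H ^ n := by
        refine Finset.prod_le_prod (fun v _ => norm_nonneg _) fun v _ => ?_
        rw [norm_pow]
        calc ‖θ v (p v)‖ ^ (β v : ℕ) ≤ H ^ (β v : ℕ) :=
              pow_le_pow_left₀ (norm_nonneg _) (hθ v (p v)) _
          _ ≤ H ^ n := pow_le_pow_right₀ hH (β v).2.le
      refine h3.trans (le_of_eq ?_)
      rw [Finset.prod_const, Finset.card_univ, Fintype.card_fin, ← pow_mul]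
    exact mul_le_mul h1 h2 (Finset.prod_nonneg fun v _ => norm_nonneg _) (by linarith)
  refine (norm_sum_le _ _).trans ((Finset.sum_le_sum fun β _ => hone β).trans (le_of_eq ?_))
  rw [Finset.sum_const, Finset.card_univ, Fintype.card_fun, Fintype.card_fin, Fintype.card_fin,
    nsmul_eq_mul]
  push_cast
  ring

theorem max_set {k n : ℕ} (θ : Fin k → Fin n → ℂ) (p0 : Ix k n) {ι : Type} [Fintype ι]
    [DecidableEq ι] (w : ι → ℤ) (Z δ : ℝ) : ∃ C : Finset ι, ¬ Apx θ p0 w Z δ C ∧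
      ∀ μ ∉ C, Apx θ p0 w Z δ (insert μ C) := by
  classical
  obtain ⟨C, hC, hmax⟩ := Finset.exists_max_image
    ((Finset.univ : Finset (Finset ι)).filter fun C => ¬ Apx θ p0 w Z δ C) Finset.card
    ⟨∅, by
      rw [Finset.mem_filter]
      refine ⟨Finset.mem_univ _, ?_⟩
      rintro ⟨z, ⟨μ, hμ, -⟩, -⟩
      exact absurd hμ (Finset.notMem_empty μ)⟩
  refine ⟨C, (Finset.mem_filter.1 hC).2, fun μ hμ => ?_⟩
  by_contra hn
  have h1 := hmax (insert μ C) (Finset.mem_filter.2 ⟨Finset.mem_univ _, hn⟩)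
  rw [Finset.card_insert_of_notMem hμ] at h1
  omega

theorem rel_max {k n : ℕ} {θ : Fin k → Fin n → ℂ} (g : Fin k → ℤ[X]) (hg : ∀ v, (g v).Monic)
    (hr : ∀ v, Rts (g v) (θ v)) (tr : TrG (vM θ)) {H Z δ : ℝ} (hH : 1 ≤ H)
    (hθ : ∀ v i, ‖θ v i‖ ≤ H) (hZ : 1 ≤ Z) (hδ : 0 ≤ δ) (p0 : Ix k n) {ι : Type} [Fintype ι]
    [DecidableEq ι] (w : ι → ℤ) (C : Finset ι) (h1 : ¬ Apx θ p0 w Z δ C)
    (h2 : ∀ μ ∉ C, Apx θ p0 w Z δ (insert μ C)) :
    ∃ (ρ : Ix k n → ℂ) (Rf : ι → ι → Ix k n → ℂ), EqF θ ρ ∧ (∀ μ c, EqF θ (Rf μ c)) ∧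
      (∀ p, ρ p ≠ 0) ∧ (∀ p, ‖ρ p‖ ≤ (n ^ k * Z * H ^ (n * k)) ^ Fintype.card ι) ∧
      (∀ μ c p, ‖Rf μ c p‖ ≤ (n ^ k * Z * H ^ (n * k)) ^ Fintype.card ι) ∧
      ∀ μ, ‖ρ p0 * ((w μ : ℤ) : ℂ) - ∑ c ∈ C, Rf μ c p0 * ((w c : ℤ) : ℂ)‖ ≤
        (n ^ k * Z * H ^ (n * k)) ^ Fintype.card ι * δ := by
  classical
  obtain ⟨h, hh⟩ : ∃ h : ℝ, h = n ^ k * Z * H ^ (n * k) := ⟨_, rfl⟩
  rw [← hh]
  have hbd : ∀ (z : Ix k n → ℤ), (∀ β, |((z β : ℤ) : ℝ)| ≤ Z) → ∀ p, ‖zt θ z p‖ ≤ h := by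
    intro z hz p
    rw [hh]
    exact rel_bd hH hθ hZ z hz p
  have hh1 : 1 ≤ h := by
    have h3 : 0 < Fintype.card (Ix k n) := Fintype.card_pos_iff.2 ⟨p0⟩
    rw [Fintype.card_fun, Fintype.card_fin, Fintype.card_fin] at h3
    have h4 : (1 : ℝ) ≤ (n : ℝ) ^ k := by exact_mod_cast h3
    have h5 : (1 : ℝ) ≤ H ^ (n * k) := one_le_pow₀ hH
    rw [hh]
    have h6 : (1 : ℝ) ≤ (n : ℝ) ^ k * Z := by nlinarith
    nlinarith
  have hh0 : 0 ≤ h := by linarith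
  have hch : ∀ μ, ∃ z : ι → Ix k n → ℤ, μ ∉ C → (z μ ≠ 0 ∧
      (∀ c ∈ insert μ C, ∀ β, |((z c β : ℤ) : ℝ)| ≤ Z) ∧
      ‖∑ c ∈ insert μ C, zt θ (z c) p0 * ((w c : ℤ) : ℂ)‖ ≤ δ) := by
    intro μ
    by_cases hμ : μ ∈ C
    · exact ⟨fun _ _ => 0, fun hn => absurd hμ hn⟩
    · obtain ⟨z, ⟨c, hc, hzc⟩, hz1, hz2⟩ := h2 μ hμ
      refine ⟨z, fun _ => ⟨?_, hz1, hz2⟩⟩
      intro h0
      apply h1
      refine ⟨z, ⟨c, ?_, hzc⟩, fun c hc => hz1 c (Finset.mem_insert_of_mem hc), ?_⟩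
      · rcases Finset.mem_insert.1 hc with h3 | h3
        · rw [h3] at hzc
          exact absurd h0 hzc
        · exact h3
      · rw [Finset.sum_insert hμ, rel_zero θ (z μ) h0, zero_mul, zero_add] at hz2
        exact hz2
  choose zz hzz using hch
  obtain ⟨D, hD⟩ : ∃ D : Finset ι, D = Finset.univ \ C := ⟨_, rfl⟩
  have hDm : ∀ μ, μ ∈ D ↔ μ ∉ C := by
    intro μ
    rw [hD, Finset.mem_sdiff]
    exact ⟨fun h => h.2, fun h => ⟨Finset.mem_univ _, h⟩⟩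
  have hF : ∀ μ ∈ D, ∀ p, ‖zt θ (zz μ μ) p‖ ≤ h := by
    intro μ hμ p
    exact hbd _ ((hzz μ ((hDm μ).1 hμ)).2.1 μ (Finset.mem_insert_self _ _)) p
  have hprod : ∀ E : Finset ι, E ⊆ D → ∀ p, ‖∏ μ ∈ E, zt θ (zz μ μ) p‖ ≤ h ^ E.card := by
    intro E hE p
    rw [norm_prod, ← Finset.prod_const]
    exact Finset.prod_le_prod (fun μ _ => norm_nonneg _) fun μ hμ => hF μ (hE hμ) p
  have hDc : D.card ≤ Fintype.card ι := Finset.card_le_univ D
  obtain ⟨Rf, hR⟩ : ∃ Rf : ι → ι → Ix k n → ℂ, Rf = fun μ c p =>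
      if c ∈ C then (if μ ∈ C then (if μ = c then ∏ μ' ∈ D, zt θ (zz μ' μ') p else 0) else
        (-1 : ℤ) * (zt θ (zz μ c) p * ∏ μ' ∈ D.erase μ, zt θ (zz μ' μ') p)) else ((0 : ℤ) : ℂ) :=
    ⟨_, rfl⟩
  have hρ : EqF θ fun p => ∏ μ' ∈ D, zt θ (zz μ' μ') p :=
    eqF_prod D (fun μ' p => zt θ (zz μ' μ') p) fun μ' _ => eqF_zt g hg hr (zz μ' μ')
  refine ⟨fun p => ∏ μ' ∈ D, zt θ (zz μ' μ') p, Rf, hρ, ?_, ?_, ?_, ?_, ?_⟩
  · intro μ c
    rw [hR]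
    by_cases hc : c ∈ C
    · by_cases hμ : μ ∈ C
      · by_cases hmc : μ = c
        · simp only [if_pos hc, if_pos hμ, if_pos hmc]
          exact hρ
        · simp only [if_pos hc, if_pos hμ, if_neg hmc]
          have h3 := eqF_int θ 0
          rw [Int.cast_zero] at h3
          exact h3
      · simp only [if_pos hc, if_neg hμ]
        exact eqF_mul (eqF_int θ (-1)) (eqF_mul (eqF_zt g hg hr (zz μ c))
          (eqF_prod (D.erase μ) (fun μ' p => zt θ (zz μ' μ') p)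
            fun μ' _ => eqF_zt g hg hr (zz μ' μ')))
    · simp only [if_neg hc]
      exact eqF_int θ 0
  · intro p
    rw [Finset.prod_ne_zero_iff]
    intro μ hμ
    exact zt_ne g hg hr tr (zz μ μ) (hzz μ ((hDm μ).1 hμ)).1 p
  · intro p
    exact (hprod D (Finset.Subset.refl _) p).trans (pow_le_pow_right₀ hh1 hDc)
  · intro μ c p
    rw [hR]
    by_cases hc : c ∈ C
    · by_cases hμ : μ ∈ C
      · by_cases hmc : μ = c
        · simp only [if_pos hc, if_pos hμ, if_pos hmc]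
          exact (hprod D (Finset.Subset.refl _) p).trans (pow_le_pow_right₀ hh1 hDc)
        · simp only [if_pos hc, if_pos hμ, if_neg hmc, norm_zero]
          positivity
      · simp only [if_pos hc, if_neg hμ]
        rw [norm_mul, norm_mul]
        have h3 : ‖((-1 : ℤ) : ℂ)‖ = 1 := by simp
        have h4 : ‖zt θ (zz μ c) p‖ ≤ h :=
          hbd _ ((hzz μ hμ).2.1 c (Finset.mem_insert_of_mem hc)) p
        have h5 := hprod (D.erase μ) (Finset.erase_subset _ _) p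
        rw [h3, one_mul]
        have h6 : (D.erase μ).card + 1 = D.card := Finset.card_erase_add_one ((hDm μ).2 hμ)
        calc ‖zt θ (zz μ c) p‖ * ‖∏ μ' ∈ D.erase μ, zt θ (zz μ' μ') p‖
            ≤ h * h ^ (D.erase μ).card := mul_le_mul h4 h5 (norm_nonneg _) hh0
          _ = h ^ D.card := by rw [← h6, pow_succ, mul_comm]
          _ ≤ h ^ Fintype.card ι := pow_le_pow_right₀ hh1 hDc
    · simp only [if_neg hc, Int.cast_zero, norm_zero]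
      positivity
  · intro μ
    by_cases hμ : μ ∈ C
    · have h3 : ∑ c ∈ C, Rf μ c p0 * ((w c : ℤ) : ℂ) =
          (∏ μ' ∈ D, zt θ (zz μ' μ') p0) * ((w μ : ℤ) : ℂ) := by
        rw [Finset.sum_eq_single μ]
        · rw [hR]
          simp only [if_pos hμ, if_true]
        · intro c hc hcm
          rw [hR]
          simp only [if_pos hc, if_pos hμ, if_neg (Ne.symm hcm), zero_mul]
        · intro hn
          exact absurd hμ hn
      rw [h3, sub_self, norm_zero]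
      positivity
    · have h3 : ∑ c ∈ C, Rf μ c p0 * ((w c : ℤ) : ℂ) =
          -((∏ μ' ∈ D.erase μ, zt θ (zz μ' μ') p0) *
            ∑ c ∈ C, zt θ (zz μ c) p0 * ((w c : ℤ) : ℂ)) := by
        rw [Finset.mul_sum, ← Finset.sum_neg_distrib]
        refine Finset.sum_congr rfl fun c hc => ?_
        rw [hR]
        simp only [if_pos hc, if_neg hμ]
        push_cast
        ring
      have h4 : ∏ μ' ∈ D, zt θ (zz μ' μ') p0 =
          zt θ (zz μ μ) p0 * ∏ μ' ∈ D.erase μ, zt θ (zz μ' μ') p0 :=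
        (Finset.mul_prod_erase D (fun μ' => zt θ (zz μ' μ') p0) ((hDm μ).2 hμ)).symm
      have h5 := (hzz μ hμ).2.2
      rw [Finset.sum_insert hμ] at h5
      have h6 : (∏ μ' ∈ D, zt θ (zz μ' μ') p0) * ((w μ : ℤ) : ℂ) -
          ∑ c ∈ C, Rf μ c p0 * ((w c : ℤ) : ℂ) =
          (∏ μ' ∈ D.erase μ, zt θ (zz μ' μ') p0) * (zt θ (zz μ μ) p0 * ((w μ : ℤ) : ℂ) +
            ∑ c ∈ C, zt θ (zz μ c) p0 * ((w c : ℤ) : ℂ)) := by
        rw [h3, h4]
        ring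
      rw [h6, norm_mul]
      have h7 := hprod (D.erase μ) (Finset.erase_subset _ _) p0
      have h8 : h ^ (D.erase μ).card ≤ h ^ Fintype.card ι :=
        pow_le_pow_right₀ hh1 (Finset.card_le_univ _)
      exact mul_le_mul (h7.trans h8) h5 (norm_nonneg _) (by positivity)

end Pool.Agent.H37.LB
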