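import Pool.Agent.H37.LB.Defs
import Pool.Agent.H97.FB.TRX
import Pool.Agent.H87.SA2.DnB
import Pool.Agent.H87.AX.VA

/-! # [H37 LB TSM] The Taylor coefficients

Copies of `coeff_uA`, `Ak_le`, `cv_uA`, `Fl_tsum`, `Fl_int` (`Pool/Agent/H97/FB/FLX.lean`) for one array `a : ℕ → ℕ → ℤ` (word by word: the index `μ` is not used in those proofs). `fl_small`: step (2), (3) of `small_x` (`SMX.lean`): `fl an J (A μ) l = ∑' i, binom(l+i, l) ak (l+i) (1/X0)^i` (summable by `tay_small` with `TT = 0` and the bound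
`ak_le`: `ak an J (A μ) k i0 ≤ U1 (2R)^k` for some `U1` (from `hA`)), multiply by `w μ`, sum over `μ` (`hasSum_sum`), `tay_small` for `a k = ∑_μ ak an J (A μ) k an.i0 * w μ`; the real number has the same norm as its cast to `ℂ`. -/

namespace Pool.Agent.H37.LB

open Finset Polynomial Pool.Agent.H72.ES Pool.Agent.H87.SA Pool.Agent.H87.SA2 Pool.Agent.H87.AX
  Pool.Agent.H8.AW Pool.Agent.H52.AC Pool.Agent.H97.NW Pool.Agent.H8.RZ Pool.Agent.H97.FB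
  Pool.Agent.H97.FC

variable {Dn Dl κ e M : ℕ} {X0 R : ℝ}

theorem coeff_ue (an : AnchX Dn Dl κ e M X0 R) (J : ℕ) (a : ℕ → ℕ → ℤ) (k : ℕ) :
    ((PowerSeries.coeff k ((ue an J a).map an.ψ) : ℝ) : ℂ) = ak an J a k an.i0 := by
  unfold ue ak
  rw [usR_map, an.ψ_x0, coeff_usR]
  push_cast
  refine sum_congr rfl fun s _ => sum_congr rfl fun j _ => ?_
  have h3 := zcR_map Complex.ofRealHom X0 e (an.Z.map an.ψ) k s j
  rw [← an.zs_i0] at h3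
  rw [mul_comm]
  congr 1

theorem ak_le (an : AnchX Dn Dl κ e M X0 R) (hDl : Dn ≤ Dl) (he : 1 ≤ e) (hX : 1 ≤ X0)
    (hR : 1 ≤ R) (J : ℕ) (a : ℕ → ℕ → ℤ) {Z : ℝ} (hA : ∀ s j, |((a s j : ℤ) : ℝ)| ≤ Z) (k : ℕ)
    (i : an.I) :
    ‖ak an J a k i‖ ≤ ((J : ℝ) + 1) * Dn * ((X0 ^ κ) ^ Dl * 2 ^ Dl) * Z * (2 * R) ^ k := by
  unfold ak
  calc ‖∑ s ∈ range (J + 1), ∑ j ∈ range Dn, zcR (X0 : ℂ) e (an.zs i) k s j * (a s j : ℂ)‖
      ≤ ∑ _s ∈ range (J + 1), ∑ _j ∈ range Dn, ((X0 ^ κ) ^ Dl * 2 ^ Dl * (2 * R) ^ k) * Z := by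
        refine (norm_sum_le _ _).trans (sum_le_sum fun s _ => ?_)
        refine (norm_sum_le _ _).trans (sum_le_sum fun j hj => ?_)
        rw [mem_range] at hj
        rw [norm_mul]
        have h1 := zcR_le subMul_normC (A := X0 ^ κ) (R := R) (one_le_pow₀ hX) hR
          (x0 := (X0 : ℂ)) he (fun r hr => by
            have := an.X0_le hr
            exact this) (Z := an.zs i) (an.zs_le i) hDl k s j hj
        have h2 : ‖((a s j : ℤ) : ℂ)‖ ≤ Z := by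
          rw [Complex.norm_intCast]
          exact hA s j
        exact mul_le_mul h1 h2 (norm_nonneg _) (by positivity)
    _ = _ := by
        rw [sum_const, sum_const, card_range, card_range, nsmul_eq_mul, nsmul_eq_mul]
        push_cast
        ring

theorem cv_ue (an : AnchX Dn Dl κ e M X0 R) (hR : 0 ≤ R) (hRX : R < X0) (J : ℕ)
    (a : ℕ → ℕ → ℤ) : Cv (1 / X0) ((ue an J a).map an.ψ) := by
  unfold ue
  rw [usR_map, an.ψ_x0]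
  have hX0 : 0 < X0 := lt_of_le_of_lt hR hRX
  exact (tay_usR (by positivity) X0 e J Dn a (an.cv hR hRX)).1

theorem fl_tsum (an : AnchX Dn Dl κ e M X0 R) (J : ℕ) (a : ℕ → ℕ → ℤ) (l : ℕ) :
    ((fl an J a l : ℝ) : ℂ) = ∑' i : ℕ, (((l + i).choose l : ℕ) : ℂ) * ak an J a (l + i) an.i0 *
      (((1 / X0 : ℝ)) : ℂ) ^ i := by
  unfold fl tay
  rw [PowerSeries.coeff_mk, Complex.ofReal_tsum]
  refine tsum_congr fun i => ?_
  rw [← coeff_ue]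
  push_cast
  ring

theorem fl_int (an : AnchX Dn Dl κ e M X0 R) (hX : 0 < X0) (he : 1 ≤ e) (hM : X0 ^ e = (M : ℝ))
    (hR : 0 ≤ R) (hRX : R < X0) (J : ℕ) (a : ℕ → ℕ → ℤ) (l : ℕ) :
    ∃ z : ℤ, (z : ℝ) = (((M : ℤ) ^ (J / e) * an.ce ^ Dn : ℤ) : ℝ) * (an.Δ : ℝ) ^ l *
      ((1 / X0) ^ l * fl an J a l) := by
  obtain ⟨z, hz⟩ := dnr_usR hX he hM J Dn a (an.cv hR hRX) an.dn l
  refine ⟨z, ?_⟩
  rw [hz]
  unfold fl ue
  rw [usR_map, an.ψ_x0]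

theorem fl_small (an : AnchX Dn Dl κ e M X0 R) (hDl : Dn ≤ Dl) (he : 1 ≤ e) {c : ℕ} (hc : 4 ≤ c)
    (hR : 2 ≤ R) (hX : (2 * R) ^ c ≤ X0) {ι : Type} [Fintype ι] (J : ℕ) (A : ι → ℕ → ℕ → ℤ) {Z : ℝ}
    (hA : ∀ μ s j, |((A μ s j : ℤ) : ℝ)| ≤ Z) (w : ι → ℤ) {U TT : ℝ} (hU : 0 ≤ U) (hTT : 0 ≤ TT)
    (ha : ∀ k0 : ℕ, ‖∑ μ, ak an J (A μ) k0 an.i0 * ((w μ : ℤ) : ℂ)‖ ≤
      U * (2 * R) ^ k0 * Real.exp (-(max (TT - k0 * Real.log X0) 0))) (l : ℕ) :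
    |∑ μ, fl an J (A μ) l * ((w μ : ℤ) : ℝ)| ≤
      2 * U * Real.exp (l * Real.log X0 - (1 - 4 / c) * TT) := by
  have hX1 : 1 ≤ X0 := (one_le_pow₀ (by linarith)).trans hX
  have hL0 : 0 ≤ Real.log X0 := Real.log_nonneg hX1
  have hsum : ∀ μ : ι, HasSum (fun i : ℕ => (((l + i).choose l : ℕ) : ℂ) *
      ak an J (A μ) (l + i) an.i0 * (((1 / X0 : ℝ)) : ℂ) ^ i) ((fl an J (A μ) l : ℝ) : ℂ) := by
    intro μ
    have hZ : 0 ≤ Z := (abs_nonneg _).trans (hA μ 0 0)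
    rw [fl_tsum]
    refine (tay_small hc hR hX (U := ((J : ℝ) + 1) * Dn * ((X0 ^ κ) ^ Dl * 2 ^ Dl) * Z) (by positivity)
      le_rfl (fun k => ak an J (A μ) k an.i0) (fun k => ?_) l).1.hasSum
    have h2 : max (0 - (k : ℝ) * Real.log X0) 0 = 0 := by
      apply max_eq_right
      have : 0 ≤ (k : ℝ) * Real.log X0 := by positivity
      linarith
    rw [h2, neg_zero, Real.exp_zero, mul_one]
    exact ak_le an hDl he hX1 (by linarith) J (A μ) (hA μ) k an.i0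
  have h2 : ((∑ μ, fl an J (A μ) l * ((w μ : ℤ) : ℝ) : ℝ) : ℂ) =
      ∑' i : ℕ, (((l + i).choose l : ℕ) : ℂ) *
        (∑ μ, ak an J (A μ) (l + i) an.i0 * ((w μ : ℤ) : ℂ)) * (((1 / X0 : ℝ)) : ℂ) ^ i := by
    have h3 := hasSum_sum (s := (univ : Finset ι)) fun μ _ =>
      (hsum μ).mul_right ((w μ : ℤ) : ℂ)
    simp only [Complex.ofReal_sum, Complex.ofReal_mul, Complex.ofReal_intCast]
    rw [← h3.tsum_eq]
    congr 1
    funext i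
    rw [mul_sum, sum_mul]
    refine sum_congr rfl fun μ _ => ?_
    ring
  have h3 := (tay_small hc hR hX hU hTT
    (fun k => ∑ μ, ak an J (A μ) k an.i0 * ((w μ : ℤ) : ℂ)) ha l).2
  rw [← Real.norm_eq_abs, ← Complex.norm_real, h2]
  exact h3

end Pool.Agent.H37.LB
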